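import Pool.Agent.Helper37.PiE.ZCore

/-! # The module `S_Core` -/

open MvPolynomial Trs
open scoped Classical

namespace Pool.Agent.Helper37.PiE

theorem dr_comm {n : ℕ} (tor : Fin n → Bool) (v w : Fin n → ℂ) (P : Rg n) :
    dr tor v (dr tor w P) = dr tor w (dr tor v P) := by
  have h : ⁅dr tor v, dr tor w⁆ = 0 := by
    apply MvPolynomial.derivation_ext
    intro i
    rw [Derivation.commutator_apply, dr_X, dr_X]
    split_ifs
    · rw [Derivation.leibniz, Derivation.leibniz, derivation_C, derivation_C, dr_X, dr_X]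
      simp only [smul_eq_mul, Derivation.coe_zero, Pi.zero_apply]
      split_ifs
      ring
    · rw [derivation_C, derivation_C]
      simp
  have h2 := congrArg (fun D => D P) h
  simp only [Derivation.commutator_apply, Derivation.coe_zero, Pi.zero_apply] at h2
  exact sub_eq_zero.1 h2

theorem dr_iter_comm {n : ℕ} (tor : Fin n → Bool) (v w : Fin n → ℂ) (k : ℕ) (P : Rg n) :
    (dr tor v)^[k] (dr tor w P) = dr tor w ((dr tor v)^[k] P) := by
  induction k generalizing P with
  | zero => rfl
  | succ k ih => rw [Function.iterate_succ_apply, Function.iterate_succ_apply, dr_comm, ih]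

theorem exists_bas {n : ℕ} (p : Ideal (Rg n)) {I : Finset (Fin n)} (hI : Ind p I) :
    ∃ I', I ⊆ I' ∧ Bas p I' := by
  obtain ⟨I', hI', hmax⟩ := Finset.exists_max_image
    (Finset.univ.filter fun I' : Finset (Fin n) => I ⊆ I' ∧ Ind p I') Finset.card
    ⟨I, Finset.mem_filter.2 ⟨Finset.mem_univ _, Finset.Subset.refl _, hI⟩⟩
  obtain ⟨-, h1, h2⟩ := Finset.mem_filter.1 hI'
  refine ⟨I', h1, h2, fun i hi hc => ?_⟩
  have := hmax (insert i I') (Finset.mem_filter.2 ⟨Finset.mem_univ _,
    h1.trans (Finset.subset_insert _ _), hc⟩)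
  rw [Finset.card_insert_of_notMem hi] at this
  omega

theorem eq_bot_of_ind {n : ℕ} {p : Ideal (Rg n)} {I : Finset (Fin n)} (hI : Ind p I)
    (hcard : I.card = n) : p = ⊥ := by
  have h1 : I = Finset.univ := by
    rw [← Finset.card_eq_iff_eq_univ, hcard, Fintype.card_fin]
  rw [eq_bot_iff]
  intro f hf
  exact (Submodule.mem_bot _).2 (hI f (by rw [h1]; exact Finset.subset_univ _) hf)

/-- at a prime of height one there is only one transversal direction -/
theorem height_one {n : ℕ} (tor : Fin n → Bool) (w1 w2 : Fin n → ℂ) (p : Ideal (Rg n))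
    (hp : p.IsPrime) (hh : p.height = 1) {z z' : Rg n} (hz : z ∈ p) (hz' : z' ∈ p) :
    dr tor w1 z * dr tor w2 z' - dr tor w2 z * dr tor w1 z' ∈ p := by
  by_cases hz0 : z = 0
  · subst hz0
    simp
  -- a prime element
  obtain ⟨π, hπ, hπp⟩ : ∃ π : Rg n, Prime π ∧ π ∈ p := by
    have h1 : ∀ a : Rg n, a ≠ 0 → a ∈ p → ∃ π : Rg n, Prime π ∧ π ∈ p := by
      intro a
      induction a using UniqueFactorizationMonoid.induction_on_prime with
      | h₁ => intro h; exact absurd rfl h
      | h₂ x hx =>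
        intro _ hxp
        exact absurd (Ideal.eq_top_of_isUnit_mem _ hxp hx) hp.ne_top
      | h₃ a π ha hπ ih =>
        intro _ hap
        rcases hp.mem_or_mem hap with h | h
        · exact ⟨π, hπ, h⟩
        · exact ih ha h
    exact h1 z hz0 hz
  have hprime : (Ideal.span {π}).IsPrime := (Ideal.span_singleton_prime hπ.ne_zero).2 hπ
  have hle : Ideal.span {π} ≤ p := (Ideal.span_singleton_le_iff_mem _).2 hπp
  have heq : Ideal.span {π} = p := by
    by_contra hne
    have hlt : Ideal.span {π} < p := lt_of_le_of_ne hle hne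
    have hbot : (⊥ : Ideal (Rg n)) < Ideal.span {π} := by
      rw [bot_lt_iff_ne_bot, Ne, Ideal.span_singleton_eq_bot]
      exact hπ.ne_zero
    have h1 := Ideal.height_add_one_le_of_lt_of_isPrime hlt
    have h2 := Ideal.height_add_one_le_of_lt_of_isPrime hbot
    rw [hh] at h1
    have h3 : (1 : ℕ∞) + 1 ≤ 1 := by
      refine le_trans (add_le_add (le_trans ?_ h2) le_rfl) h1
      simp
    exact absurd h3 (by decide)
  rw [← heq] at hz hz' ⊢
  obtain ⟨a, rfl⟩ := Ideal.mem_span_singleton'.1 hz
  obtain ⟨b, rfl⟩ := Ideal.mem_span_singleton'.1 hz'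
  rw [Ideal.mem_span_singleton']
  refine ⟨(b * (dr tor w1 a * dr tor w2 π - dr tor w2 a * dr tor w1 π) +
    a * (dr tor w1 π * dr tor w2 b - dr tor w2 π * dr tor w1 b)) +
    π * (dr tor w1 a * dr tor w2 b - dr tor w2 a * dr tor w1 b), ?_⟩
  rw [Derivation.leibniz, Derivation.leibniz, Derivation.leibniz, Derivation.leibniz]
  simp only [smul_eq_mul]
  ring

theorem fold_two {n : ℕ} (tor : Fin n → Bool) (W : Fin 2 → Fin n → ℂ) (l : List (Fin 2)) :
    ∀ f : Rg n, ∃ k1 k2, k1 + k2 = l.length ∧ l.foldl (fun Q i => dr tor (W i) Q) f =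
      (dr tor (W 0))^[k1] ((dr tor (W 1))^[k2] f) := by
  induction l with
  | nil => intro f; exact ⟨0, 0, rfl, rfl⟩
  | cons a l ih =>
    intro f
    obtain ⟨k1, k2, hk, h1⟩ := ih (dr tor (W a) f)
    have ha : a = 0 ∨ a = 1 := by
      rcases a with ⟨a, ha⟩
      interval_cases a
      · exact Or.inl rfl
      · exact Or.inr rfl
    rcases ha with rfl | rfl
    · refine ⟨k1 + 1, k2, by rw [List.length_cons]; omega, ?_⟩
      rw [List.foldl_cons, h1, Function.iterate_succ_apply, dr_iter_comm tor (W 1) (W 0) k2 f]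
    · refine ⟨k1, k2 + 1, by rw [List.length_cons]; omega, ?_⟩
      rw [List.foldl_cons, h1, Function.iterate_succ_apply]

theorem s_core (hTdim : S_Tdim) : S_Core := by
  intro n c σ w tor w1 w2 I hI hw d hd T _ q hinj hp hh hInd hWt V hmin hjet hdeg
  by_cases hT : Nonempty T
  swap
  · rw [not_nonempty_iff] at hT
    simp
  have hBas : ∀ t, Bas (q t) I := fun t => by
    obtain ⟨I', hII', hI'⟩ := exists_bas (q t) (hInd t)
    have h1 := hTdim n (q t) (hp t) I' hI'
    rw [hh t] at h1
    have h2 : c + I'.card = n := by exact_mod_cast h1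
    have h3 : I = I' := Finset.eq_of_subset_of_card_le hII' (by omega)
    rwa [h3]
  have hAlg : ∀ t, ∀ j, j ∉ I → ∃ U : Rg n, U ≠ 0 ∧ U.vars ⊆ insert j I ∧ U ∈ q t := by
    intro t j hj
    have h1 := (hBas t).2 j hj
    rw [Ind] at h1
    push Not at h1
    obtain ⟨f, hf1, hf2, hf3⟩ := h1
    exact ⟨f, hf3, by convert hf1, hf2⟩
  have hcn : c ≤ n := by omega
  have hKZ : c.factorial ≤ KZ n := by
    rw [KZ]
    calc c.factorial ≤ n.factorial := Nat.factorial_le hcn
      _ = 1 * n.factorial := (one_mul _).symm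
      _ ≤ 2 ^ n * n.factorial := Nat.mul_le_mul_right _ Nat.one_le_two_pow
  obtain ⟨t₀⟩ := hT
  have hjet' : ∀ t, ∀ f ∈ (V : Set (Rg n)), ∀ k1 k2, k1 + k2 ≤ σ →
      (dr tor w1)^[k1] ((dr tor w2)^[k2] f) ∈ q t := fun t f hf => hjet t f hf
  have hdeg' : ∀ f ∈ (V : Set (Rg n)), ∀ i, f.degreeOf i ≤ d i := fun f hf => hdeg f hf
  have hc0 : w ≠ 0 → c ≠ 0 := by
    intro hw0 hc
    have h1 := eq_bot_of_ind (hInd t₀) (by omega)
    have h2 := hWt t₀
    rw [h1] at h2
    rcases w with _ | _ | _ | w
    · exact hw0 rfl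
    · obtain ⟨z, hz, h3⟩ := h2
      rw [(Submodule.mem_bot _).1 hz, map_zero, map_zero] at h3
      rcases h3 with h3 | h3 <;> exact h3 (zero_mem _)
    · obtain ⟨z, hz, z', _, h3⟩ := h2
      rw [(Submodule.mem_bot _).1 hz, map_zero, map_zero] at h3
      simp at h3
    · omega
  rcases w with _ | _ | _ | w
  · -- `w = 0`
    have h1 := core_main (r := 0) (s := c) (T' := σ + 1) (by omega) tor I (by omega) d hd q hinj hp
      hInd hAlg (fun _ => Fin.elim0) (fun t => ⟨Fin.elim0, fun i => i.elim0, by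
        rw [Matrix.det_fin_zero]
        intro h
        exact (hp t).ne_top ((Ideal.eq_top_iff_one _).2 h)⟩) V hdeg' hmin (fun t f hf l _ => by
        rcases l with _ | ⟨a, _⟩
        · have h6 := hjet' t f hf 0 0 (by omega)
          rwa [Function.iterate_zero_apply, Function.iterate_zero_apply] at h6
        · exact a.elim0)
    rw [pow_zero, mul_one, zero_add] at h1
    simp only [Nat.add_zero, Nat.choose_zero_right, mul_one]
    exact h1.trans (Nat.mul_le_mul_right _ hKZ)
  · -- `w = 1`
    have hc := hc0 (by omega)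
    have h0 : ∀ t, ∃ v : Fin n → ℂ, (v = w1 ∨ v = w2) ∧ ∃ z ∈ q t, dr tor v z ∉ q t := fun t => by
      obtain ⟨z, hz, h3⟩ := hWt t
      rcases h3 with h3 | h3
      · exact ⟨w1, Or.inl rfl, z, hz, h3⟩
      · exact ⟨w2, Or.inr rfl, z, hz, h3⟩
    choose v hv z hz hvz using h0
    have hfold : ∀ (t) (l : List (Fin 1)) (f : Rg n),
        l.foldl (fun Q _ => dr tor (v t) Q) f = (dr tor (v t))^[l.length] f := by
      intro t l
      induction l with
      | nil => intro f; rfl
      | cons a l ih => intro f; rw [List.foldl_cons, ih, List.length_cons,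
          Function.iterate_succ_apply]
    have h1 := core_main (r := 1) (s := c - 1) (T' := σ + 1) (by omega) tor I (by omega) d hd q
      hinj hp hInd hAlg (fun t _ => v t) (fun t => ⟨fun _ => z t, fun _ => hz t, by
        rw [Matrix.det_fin_one]
        exact hvz t⟩) V hdeg' hmin (fun t f hf l hl => by
        rw [hfold]
        rcases hv t with h | h
        · rw [h]
          have h6 := hjet' t f hf l.length 0 (by omega)
          rwa [Function.iterate_zero_apply] at h6
        · rw [h]
          have h6 := hjet' t f hf 0 l.length (by omega)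
          rwa [Function.iterate_zero_apply] at h6)
    rw [pow_one] at h1
    have e : 1 + (c - 1) = c := by omega
    rw [e] at h1
    rw [zero_add, Nat.choose_one_right]
    exact h1.trans (Nat.mul_le_mul_right _ hKZ)
  · -- `w = 2`
    have hc := hc0 (by omega)
    have hc1 : c ≠ 1 := by
      intro hc1
      obtain ⟨z, hz, z', hz', h3⟩ := hWt t₀
      refine h3 (height_one tor w1 w2 (q t₀) (hp t₀) ?_ hz hz')
      rw [hh t₀, hc1]
      rfl
    have h1 := core_main (r := 2) (s := c - 2) (T' := σ + 1) (by omega) tor I (by omega) d hd q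
      hinj hp hInd hAlg (fun t => ![w1, w2]) (fun t => by
        obtain ⟨z, hz, z', hz', h3⟩ := hWt t
        refine ⟨![z, z'], Fin.forall_fin_two.2 ⟨hz, hz'⟩, ?_⟩
        · rw [Matrix.det_fin_two]
          intro h4
          apply h3
          simp only [Matrix.of_apply, Matrix.cons_val_zero, Matrix.cons_val_one] at h4
          rw [mul_comm (dr tor w2 z)]
          exact h4) V hdeg' hmin (fun t f hf l hl => by
        obtain ⟨k1, k2, hk, h5⟩ := fold_two tor ![w1, w2] l f
        rw [h5]
        have h6 := hjet' t f hf k1 k2 (by omega)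
        simpa only [Matrix.cons_val_zero, Matrix.cons_val_one] using h6)
    have e : 2 + (c - 2) = c := by omega
    rw [e] at h1
    have h2 : (σ + (0 + 1 + 1)).choose (0 + 1 + 1) ≤ (σ + 1) ^ 2 := by
      have h3 : (σ + (0 + 1 + 1)).choose (0 + 1 + 1) = (σ + 2) * (σ + 1) / 2 := by
        rw [zero_add, show (1 + 1) = 2 from rfl, Nat.choose_two_right]
        rfl
      rw [h3]
      refine Nat.div_le_of_le_mul ?_
      nlinarith
    calc Fintype.card T * (σ + (0 + 1 + 1)).choose (0 + 1 + 1) ≤ Fintype.card T * (σ + 1) ^ 2 :=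
          Nat.mul_le_mul_left _ h2
      _ ≤ _ := h1
      _ ≤ _ := Nat.mul_le_mul_right _ hKZ
  · omega

end Pool.Agent.Helper37.PiE
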