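import Pool.Agent.Helper37.PiE.AuxPol

/-! # Arithmetic size of the values of the auxiliary polynomial -/

open MvPolynomial
open scoped Classical

namespace Pool.Agent.Helper37.PiE

section
variable {κ β : Type*} [Fintype κ] [Fintype β] {n : ℕ}

/-- the algebraic numbers involved -/
noncomputable def gen (v : Fin n → Option κ → ℂ) (jw : Finset (Fin n)) (η : β → Option κ → ℂ) :
    ({j // j ∈ jw} × Option κ) ⊕ (β × Option κ) → ℂ :=
  Sum.elim (fun p => v p.1 p.2) (fun p => ex (η p.1) p.2)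

theorem sz_v (v : Fin n → Option κ → ℂ) (jw : Finset (Fin n)) (η : β → Option κ → ℂ)
    {j : Fin n} (hj : j ∈ jw) (o : Option κ) : Sz (gen v jw η) (v j o) 1 1 :=
  Sz.gen (gen v jw η) (Sum.inl (⟨j, hj⟩, o))

theorem sz_e (v : Fin n → Option κ → ℂ) (jw : Finset (Fin n)) (η : β → Option κ → ℂ)
    (b : β) (o : Option κ) : Sz (gen v jw η) (ex (η b) o) 1 1 :=
  Sz.gen (gen v jw η) (Sum.inr (b, o))

theorem sz_base (v : Fin n → Option κ → ℂ) (jw : Finset (Fin n)) (η : β → Option κ → ℂ)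
    {m : β → ℕ} {N : ℕ} (hm : ∀ b, m b ≤ N) {D₀ D p : ℕ} {q : κ → ℕ} (hp : p ≤ D₀)
    (hq : ∀ i, q i ≤ D) :
    Sz (gen v jw η) (ev (∑ b, m b • η b) (mo p q))
      (D₀ + Fintype.card κ * D * (Fintype.card β * N)) ((Fintype.card β * N + 1 : ℝ) ^ D₀) := by
  have h1 : ev (∑ b, m b • η b) (mo p q) =
      (∑ b, (m b : ℂ) * η b none) ^ p * ∏ i, ∏ b, Complex.exp (η b (some i)) ^ (q i * m b) := by
    rw [ev_mo, fr, Complex.exp_sum]
    congr 1
    · congr 1
      simp [Finset.sum_apply]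
    · refine Finset.prod_congr rfl fun i _ => ?_
      rw [Finset.sum_apply, Finset.mul_sum, Complex.exp_sum]
      refine Finset.prod_congr rfl fun b _ => ?_
      rw [← Complex.exp_nat_mul]
      congr 1
      simp only [Pi.smul_apply, nsmul_eq_mul]
      push_cast
      ring
  rw [h1]
  have h2 : Sz (gen v jw η) (∑ b, (m b : ℂ) * η b none) 1 (∑ b, (m b : ℝ) * 1) := by
    refine Sz.sum _ fun b _ => ?_
    have := (Sz.nat (gen v jw η) (m b)).mul (sz_e v jw η b none)
    simpa [ex] using this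
  have h3 : (∑ b, (m b : ℝ) * 1) ≤ Fintype.card β * N := by
    simp only [mul_one]
    refine (Finset.sum_le_card_nsmul _ _ (N : ℝ) fun b _ => by exact_mod_cast hm b).trans ?_
    rw [Finset.card_univ, nsmul_eq_mul]
  have h4 : Sz (gen v jw η) ((∑ b, (m b : ℂ) * η b none) ^ p) D₀
      ((Fintype.card β * N + 1 : ℝ) ^ D₀) := by
    refine (h2.pow p).mono (by omega) ?_
    refine (pow_le_pow_left₀ h2.nonneg (h3.trans (by linarith)) p).trans
      (pow_le_pow_right₀ ?_ hp)
    have : (0 : ℝ) ≤ Fintype.card β * N := by positivity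
    linarith
  have h5 : Sz (gen v jw η) (∏ i, ∏ b, Complex.exp (η b (some i)) ^ (q i * m b))
      (∑ i, ∑ b, (q i * m b) * 1) (∏ _i : κ, ∏ b, (1 : ℝ) ^ (q _i * m b)) := by
    refine Sz.prod _ fun i _ => Sz.prod _ fun b _ => ?_
    exact (sz_e v jw η b (some i)).pow _
  have h6 : (∑ i, ∑ b, (q i * m b) * 1) ≤ Fintype.card κ * D * (Fintype.card β * N) := by
    calc (∑ i, ∑ b, (q i * m b) * 1) ≤ ∑ _i : κ, ∑ _b : β, D * N := by
          refine Finset.sum_le_sum fun i _ => Finset.sum_le_sum fun b _ => ?_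
          rw [mul_one]
          exact Nat.mul_le_mul (hq i) (hm b)
      _ = Fintype.card κ * D * (Fintype.card β * N) := by
          simp only [Finset.sum_const, Finset.card_univ, smul_eq_mul]
          ring
  have h7 := h4.mul h5
  refine h7.mono (by omega) (le_of_eq ?_)
  simp

theorem sz_word (v : Fin n → Option κ → ℂ) (jw : Finset (Fin n)) (η : β → Option κ → ℂ)
    {m : β → ℕ} {N : ℕ} (hm : ∀ b, m b ≤ N) {D₀ D : ℕ} (l : List (Fin n))
    (hl : ∀ j ∈ l, j ∈ jw) : ∀ (p : ℕ) (q : κ → ℕ), p ≤ D₀ → (∀ i, q i ≤ D) →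
    Sz (gen v jw η) (ev (∑ b, m b • η b) (W v l (mo p q)))
      (l.length + (D₀ + Fintype.card κ * D * (Fintype.card β * N)))
      ((D₀ + Fintype.card κ * D : ℝ) ^ l.length * (Fintype.card β * N + 1 : ℝ) ^ D₀) := by
  induction l with
  | nil =>
    intro p q hp hq
    have := sz_base v jw η hm hp hq
    simpa [W_nil] using this
  | cons j l ih =>
    intro p q hp hq
    have hj : j ∈ jw := hl j List.mem_cons_self
    have hl' : ∀ j ∈ l, j ∈ jw := fun i hi => hl i (List.mem_cons_of_mem _ hi)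
    rw [W_cons, dv_mo, map_add, map_smul, map_smul, map_add, map_smul, map_smul]
    have h1 : Sz (gen v jw η) ((p : ℂ) * v j none) 1 D₀ := by
      refine ((Sz.nat _ p).mul (sz_v v jw η hj none)).mono (by omega) ?_
      rw [mul_one]
      exact_mod_cast hp
    have h2 : Sz (gen v jw η) (fr q (v j)) 1 (Fintype.card κ * D) := by
      have h3 : Sz (gen v jw η) (fr q (v j)) 1 (∑ i, (q i : ℝ) * 1) := by
        rw [fr]
        refine Sz.sum _ fun i _ => ?_
        have := (Sz.nat _ (q i)).mul (sz_v v jw η hj (some i))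
        rwa [zero_add] at this
      refine h3.mono le_rfl ?_
      simp only [mul_one]
      refine (Finset.sum_le_card_nsmul _ _ (D : ℝ) fun i _ => by exact_mod_cast hq i).trans ?_
      rw [Finset.card_univ, nsmul_eq_mul]
    have h4 := (h1.mul (ih hl' (p - 1) q (by omega) hq)).add (h2.mul (ih hl' p q hp hq))
    rw [max_self] at h4
    simp only [smul_eq_mul]
    refine h4.mono ?_ (le_of_eq ?_)
    · rw [List.length_cons]; omega
    · rw [List.length_cons, pow_succ]; ring

theorem sz_po (v : Fin n → Option κ → ℂ) (jw : Finset (Fin n)) (η : β → Option κ → ℂ)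
    {m : β → ℕ} {N : ℕ} (hm : ∀ b, m b ≤ N) {D₀ D X : ℕ} (x : Ix κ D₀ D → ℤ)
    (hx : ∀ i, |x i| ≤ X) (l : List (Fin n)) (hl : ∀ j ∈ l, j ∈ jw) :
    Sz (gen v jw η) (ev (∑ b, m b • η b) (W v l (po x)))
      (l.length + (D₀ + Fintype.card κ * D * (Fintype.card β * N)))
      (Fintype.card (Ix κ D₀ D) * (X * ((D₀ + Fintype.card κ * D : ℝ) ^ l.length *
        (Fintype.card β * N + 1 : ℝ) ^ D₀))) := by
  rw [po, map_sum, map_sum]
  have : ∀ i ∈ Finset.univ, Sz (gen v jw η) (ev (∑ b, m b • η b)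
      (W v l ((x i : ℂ) • mo (i.1 : ℕ) (fun k => (i.2 k : ℕ)))))
      (l.length + (D₀ + Fintype.card κ * D * (Fintype.card β * N)))
      ((X * ((D₀ + Fintype.card κ * D : ℝ) ^ l.length *
        (Fintype.card β * N + 1 : ℝ) ^ D₀))) := fun i _ => by
    rw [map_smul, map_smul, smul_eq_mul]
    have h1 := (Sz.int (gen v jw η) (x i)).mul (sz_word v jw η hm l hl (i.1 : ℕ)
      (fun k => (i.2 k : ℕ)) (D₀ := D₀) (D := D) (by have := i.1.2; omega)
      (fun k => by have := (i.2 k).2; omega))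
    rw [zero_add] at h1
    refine h1.mono le_rfl (mul_le_mul_of_nonneg_right ?_ (by positivity))
    have := hx i
    rw [← Int.cast_abs]
    exact_mod_cast this
  have h2 := Sz.sum Finset.univ this
  rwa [Finset.sum_const, Finset.card_univ, nsmul_eq_mul] at h2

end

end Pool.Agent.Helper37.PiE
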