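import Pool.Agent.Helper37.PiE.Taylor

/-! # The auxiliary polynomial -/

open MvPolynomial
open scoped Classical

namespace Pool.Agent.Helper37.PiE

/-- canonical word with prescribed multiplicities -/
def canon {n : ℕ} (μ : Fin n → ℕ) : List (Fin n) :=
  (List.finRange n).flatMap fun j => List.replicate (μ j) j

theorem canon_count {n : ℕ} (μ : Fin n → ℕ) (i : Fin n) : (canon μ).count i = μ i := by
  rw [canon, List.count_flatMap]
  have : ∀ l : List (Fin n), l.Nodup → (List.map (List.count i ∘ fun j => List.replicate (μ j) j) l).sum =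
      if i ∈ l then μ i else 0 := by
    intro l hl
    induction l with
    | nil => simp
    | cons j l ih =>
      rw [List.map_cons, List.sum_cons, ih hl.of_cons]
      simp only [Function.comp_apply, List.count_replicate, List.mem_cons]
      rcases eq_or_ne i j with h | h
      · subst h
        have : i ∉ l := (List.nodup_cons.1 hl).1
        simp [this]
      · have h' : j ≠ i := fun e => h e.symm
        simp [h, h']
  rw [this _ (List.nodup_finRange n)]
  simp

theorem perm_canon {n : ℕ} (l : List (Fin n)) : l.Perm (canon fun j => l.count j) :=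
  List.perm_iff_count.2 fun i => by rw [canon_count]

theorem length_canon {n : ℕ} (μ : Fin n → ℕ) : (canon μ).length = ∑ j, μ j := by
  rw [canon, List.length_flatMap]
  simp [List.sum_ofFn, ← List.ofFn_eq_map]

section
variable {κ : Type*} [Fintype κ]

/-- the index set of monomials -/
abbrev Ix (κ : Type*) (D₀ D : ℕ) : Type _ := Fin (D₀ + 1) × (κ → Fin (D + 1))

/-- the polynomial with coefficients `x` -/
noncomputable def po {D₀ D : ℕ} (x : Ix κ D₀ D → ℤ) : MvPolynomial (Option κ) ℂ :=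
  ∑ i, (x i : ℂ) • mo (i.1 : ℕ) (fun k => (i.2 k : ℕ))

theorem aux {n : ℕ} (v : Fin n → Option κ → ℂ) {V : ℝ} (hV : ∀ j o, ‖v j o‖ ≤ V)
    (D₀ D K' X : ℕ) {G : ℝ} (hG1 : 1 ≤ G) (hG : V * (D₀ + Fintype.card κ * D) ≤ G)
    {ε : ℝ} (hε : 0 < ε)
    (h : (⌊2 * ((Fintype.card (Ix κ D₀ D) * G ^ (n * K')) * X) / ε⌋₊ + 1) ^ (2 * K' ^ n) <
      (X + 1) ^ Fintype.card (Ix κ D₀ D)) :
    ∃ x : Ix κ D₀ D → ℤ, x ≠ 0 ∧ (∀ i, |x i| ≤ X) ∧
      ∀ l : List (Fin n), l.length < K' → ‖e0 κ (W v l (po x))‖ ≤ 2 * ε := by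
  have hcard : Fintype.card (Fin n → Fin K') = K' ^ n := by simp
  have h0 : ∀ μ : Fin n → Fin K', ∑ i : Ix κ D₀ D, ‖e0 κ (W v (canon fun j => (μ j : ℕ))
      (mo (i.1 : ℕ) (fun k => (i.2 k : ℕ))))‖ ≤ Fintype.card (Ix κ D₀ D) * G ^ (n * K') := by
    intro μ
    have h1 : ∀ i : Ix κ D₀ D, ‖e0 κ (W v (canon fun j => (μ j : ℕ))
        (mo (i.1 : ℕ) (fun k => (i.2 k : ℕ))))‖ ≤ G ^ (n * K') := fun i => by
      have h2 := norm_phi_W_le v hV (e0 κ) (D₀ := D₀) (D := D) (τ := 1) (fun p q _ _ => by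
        rw [e0_mo]
        rcases p with _ | p <;> simp) (canon fun j => (μ j : ℕ)) (i.1 : ℕ) (fun k => (i.2 k : ℕ))
        (by have := i.1.2; omega) (fun k => by have := (i.2 k).2; omega)
      rw [mul_one] at h2
      refine h2.trans ?_
      by_cases hn : (canon fun j => (μ j : ℕ)).length = 0
      · rw [hn, pow_zero]
        exact one_le_pow₀ hG1
      · have hV0 : 0 ≤ V := by
          have : canon (fun j => (μ j : ℕ)) ≠ [] := fun e => hn (by rw [e]; rfl)
          obtain ⟨j, hj⟩ := List.exists_mem_of_ne_nil _ this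
          exact (norm_nonneg _).trans (hV j none)
        refine (pow_le_pow_left₀ (by positivity) hG _).trans (pow_le_pow_right₀ hG1 ?_)
        rw [length_canon]
        refine (Finset.sum_le_card_nsmul Finset.univ _ K' fun j _ => (μ j).2.le).trans ?_
        simp
    refine (Finset.sum_le_card_nsmul _ _ _ fun i _ => h1 i).trans ?_
    rw [Finset.card_univ, nsmul_eq_mul]
  obtain ⟨x, hx0, hxX, hx⟩ := box
    (fun (μ : Fin n → Fin K') (i : Ix κ D₀ D) =>
      e0 κ (W v (canon fun j => (μ j : ℕ)) (mo (i.1 : ℕ) (fun k => (i.2 k : ℕ))))) X hε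
    h0 (by rw [hcard]; exact h)
  refine ⟨x, hx0, hxX, fun l hl => ?_⟩
  have hc : ∀ j, l.count j < K' := fun j => List.count_le_length.trans_lt hl
  have h1 := hx fun j => ⟨l.count j, hc j⟩
  rw [W_perm v (perm_canon l), po, map_sum, map_sum]
  refine le_trans (le_of_eq ?_) h1
  congr 1
  refine Finset.sum_congr rfl fun i _ => ?_
  rw [map_smul, map_smul, smul_eq_mul, mul_comm]

theorem mo_eq (p : ℕ) (q : κ → ℕ) :
    (mo p q : MvPolynomial (Option κ) ℂ) =
      monomial (Finsupp.equivFunOnFinite.symm fun o : Option κ => o.elim p q) 1 := by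
  rw [MvPolynomial.monomial_eq, mo]
  rw [Finsupp.prod_fintype _ _ (by simp), Fintype.prod_option]
  simp

theorem po_coeff {D₀ D : ℕ} (x : Ix κ D₀ D → ℤ) (i : Ix κ D₀ D) :
    (po x).coeff (Finsupp.equivFunOnFinite.symm fun o : Option κ =>
      o.elim (i.1 : ℕ) (fun k => (i.2 k : ℕ))) = x i := by
  rw [po, MvPolynomial.coeff_sum, Finset.sum_eq_single i]
  · rw [MvPolynomial.coeff_smul, mo_eq, MvPolynomial.coeff_monomial, if_pos rfl]
    simp
  · intro j _ hj
    rw [MvPolynomial.coeff_smul, mo_eq, MvPolynomial.coeff_monomial, if_neg]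
    · simp
    · intro e
      apply hj
      have e' := Finsupp.equivFunOnFinite.symm.injective e
      refine Prod.ext (Fin.ext ?_) (funext fun k => Fin.ext ?_)
      · exact congrFun e' none
      · exact congrFun e' (some k)
  · intro h
    exact absurd (Finset.mem_univ i) h

theorem po_ne_zero {D₀ D : ℕ} {x : Ix κ D₀ D → ℤ} (hx : x ≠ 0) : po x ≠ 0 := by
  obtain ⟨i, hi⟩ := Function.ne_iff.1 hx
  intro h
  apply hi
  have := po_coeff x i
  rw [h, MvPolynomial.coeff_zero] at this
  exact_mod_cast this.symm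

theorem po_degree {D₀ D : ℕ} (x : Ix κ D₀ D → ℤ) :
    (po x).degreeOf none ≤ D₀ ∧ ∀ k, (po x).degreeOf (some k) ≤ D := by
  have key : ∀ o (B : ℕ), (∀ i : Ix κ D₀ D, (o.elim (i.1 : ℕ) (fun k => (i.2 k : ℕ))) ≤ B) →
      (po x).degreeOf o ≤ B := by
    intro o B hB
    rw [MvPolynomial.degreeOf_le_iff]
    intro m hm
    rw [po] at hm
    have := MvPolynomial.support_sum hm
    obtain ⟨i, -, hi⟩ := Finset.mem_biUnion.1 this
    have h2 := MvPolynomial.support_smul hi
    rw [mo_eq] at h2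
    have h3 := MvPolynomial.support_monomial_subset h2
    rw [Finset.mem_singleton] at h3
    rw [h3]
    exact hB i
  exact ⟨key none D₀ fun i => by have := i.1.2; simp only [Option.elim]; omega,
    fun k => key (some k) D fun i => by have := (i.2 k).2; simp only [Option.elim]; omega⟩

end

end Pool.Agent.Helper37.PiE
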