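import Mathlib

/-! # The box principle for complex linear forms -/

namespace Pool.Agent.Helper37.PiE

/-- box principle: small values of complex linear forms at integer points -/
theorem box {ι κ : Type*} [Fintype ι] [Fintype κ] (a : κ → ι → ℂ) (X : ℕ) {A ε : ℝ}
    (hε : 0 < ε) (hA : ∀ k, ∑ i, ‖a k i‖ ≤ A)
    (h : (⌊2 * (A * X) / ε⌋₊ + 1) ^ (2 * Fintype.card κ) < (X + 1) ^ Fintype.card ι) :
    ∃ x : ι → ℤ, x ≠ 0 ∧ (∀ i, |x i| ≤ X) ∧ ∀ k, ‖∑ i, a k i * x i‖ ≤ 2 * ε := by
  classical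
  by_cases hκ : Nonempty κ
  swap
  · -- no forms
    rw [not_nonempty_iff] at hκ
    have hι : Nonempty ι := by
      by_contra hι
      rw [not_nonempty_iff] at hι
      simp at h
    have hX : 1 ≤ X := by
      rcases Nat.eq_zero_or_pos X with h0 | h0
      · subst h0; simp at h
      · exact h0
    refine ⟨fun _ => 1, fun e => ?_, fun i => ?_, fun k => hκ.elim k⟩
    · obtain ⟨i⟩ := hι
      have := congrFun e i
      simp at this
    · simpa using hX
  obtain ⟨k₀⟩ := hκ
  have hA0 : 0 ≤ A := (Finset.sum_nonneg fun _ _ => norm_nonneg _).trans (hA k₀)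
  set B : ℝ := A * X with hB
  have hB0 : 0 ≤ B := by positivity
  set Q : ℕ := ⌊2 * B / ε⌋₊ + 1 with hQ
  -- the values of the forms
  let L : (ι → Fin (X + 1)) → κ → ℂ := fun x k => ∑ i, a k i * ((x i : ℕ) : ℂ)
  have hL : ∀ x k, ‖L x k‖ ≤ B := fun x k => by
    refine (norm_sum_le _ _).trans ?_
    calc ∑ i, ‖a k i * ((x i : ℕ) : ℂ)‖ ≤ ∑ i, ‖a k i‖ * X := by
          refine Finset.sum_le_sum fun i _ => ?_
          rw [norm_mul]
          refine mul_le_mul_of_nonneg_left ?_ (norm_nonneg _)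
          rw [Complex.norm_natCast]
          exact_mod_cast Nat.lt_succ_iff.1 (x i).2
      _ ≤ B := by
          rw [← Finset.sum_mul]
          exact mul_le_mul_of_nonneg_right (hA k) (Nat.cast_nonneg _)
  have hcell : ∀ t : ℝ, |t| ≤ B → ⌊(t + B) / ε⌋₊ < Q := fun t ht => by
    rw [hQ, Nat.lt_succ_iff]
    refine Nat.floor_le_floor ?_
    exact div_le_div_of_nonneg_right (by linarith [(abs_le.1 ht).2]) hε.le
  have hre : ∀ x k, |(L x k).re| ≤ B := fun x k => (Complex.abs_re_le_norm _).trans (hL x k)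
  have him : ∀ x k, |(L x k).im| ≤ B := fun x k => (Complex.abs_im_le_norm _).trans (hL x k)
  let f : (ι → Fin (X + 1)) → (κ → Fin Q × Fin Q) := fun x k =>
    (⟨⌊((L x k).re + B) / ε⌋₊, hcell _ (hre x k)⟩, ⟨⌊((L x k).im + B) / ε⌋₊, hcell _ (him x k)⟩)
  have hcard : Fintype.card (κ → Fin Q × Fin Q) < Fintype.card (ι → Fin (X + 1)) := by
    simp only [Fintype.card_fun, Fintype.card_prod, Fintype.card_fin]
    rw [← pow_two, ← pow_mul]
    exact h
  obtain ⟨x, y, hxy, hf⟩ := Fintype.exists_ne_map_eq_of_card_lt f hcard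
  refine ⟨fun i => ((x i : ℕ) : ℤ) - ((y i : ℕ) : ℤ), fun e => hxy ?_, fun i => ?_, fun k => ?_⟩
  · funext i
    have := congrFun e i
    simp only [Pi.zero_apply, sub_eq_zero, Nat.cast_inj] at this
    exact Fin.ext this
  · have h1 := Nat.lt_succ_iff.1 (x i).2
    have h2 := Nat.lt_succ_iff.1 (y i).2
    show |((x i : ℕ) : ℤ) - ((y i : ℕ) : ℤ)| ≤ X
    rw [abs_le]
    constructor <;> omega
  · have e : ∑ i, a k i * (((((x i : ℕ) : ℤ) - ((y i : ℕ) : ℤ) : ℤ)) : ℂ) = L x k - L y k := by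
      simp only [L]
      rw [← Finset.sum_sub_distrib]
      refine Finset.sum_congr rfl fun i _ => ?_
      push_cast
      ring
    rw [e]
    have hclose : ∀ s t : ℝ, |s| ≤ B → |t| ≤ B → ⌊(s + B) / ε⌋₊ = ⌊(t + B) / ε⌋₊ →
        |s - t| ≤ ε := fun s t hs ht hst => by
      have p1 : 0 ≤ (s + B) / ε := div_nonneg (by linarith [(abs_le.1 hs).1]) hε.le
      have p2 : 0 ≤ (t + B) / ε := div_nonneg (by linarith [(abs_le.1 ht).1]) hε.le
      have q1 := Nat.floor_le p1
      have q2 := Nat.floor_le p2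
      have r1 := Nat.lt_floor_add_one ((s + B) / ε)
      have r2 := Nat.lt_floor_add_one ((t + B) / ε)
      rw [hst] at q1 r1
      have e1 : |(s + B) / ε - (t + B) / ε| ≤ 1 := by
        rw [abs_le]; constructor <;> linarith
      have e2 : (s + B) / ε - (t + B) / ε = (s - t) / ε := by ring
      rw [e2, abs_div, abs_of_pos hε, div_le_one hε] at e1
      exact e1
    have hk := congrFun hf k
    simp only [f, Prod.mk.injEq, Fin.mk.injEq] at hk
    have g1 := hclose _ _ (hre x k) (hre y k) hk.1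
    have g2 := hclose _ _ (him x k) (him y k) hk.2
    have := Complex.norm_le_abs_re_add_abs_im (L x k - L y k)
    rw [Complex.sub_re, Complex.sub_im] at this
    linarith

end Pool.Agent.Helper37.PiE
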