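import Pool.Agent.Helper37.PiE.Alg

/-! # The extrapolation step -/

open MvPolynomial
open scoped Classical

namespace Pool.Agent.Helper37.PiE

section
variable {κ β : Type*} [Fintype κ] [Fintype β] {n : ℕ}

/-- the counting condition for the box principle -/
theorem box_cond (n E U T : ℕ) (hU : 1 ≤ U) (hT : T ≤ U) {G : ℝ} (hG1 : 1 ≤ G) {I : ℕ}
    (hI1 : 1 ≤ I) (hI : (I : ℝ) ≤ G)
    (i5 : 4 * (((E + 1) * U : ℕ) : ℝ) ^ n * (3 + E + (1 + n * (E + 1)) * Real.log G) < I) :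
    (⌊2 * ((I * G ^ (n * (E * U + T))) * ((2 ^ U : ℕ) : ℝ)) / Real.exp (-(E * U : ℝ))⌋₊ + 1) ^
      (2 * (E * U + T) ^ n) < (2 ^ U + 1) ^ I := by
  have hl := Real.log_nonneg hG1
  have hUr : (1 : ℝ) ≤ U := by exact_mod_cast hU
  have hE0 : (0 : ℝ) ≤ E := by positivity
  have hn0 : (0 : ℝ) ≤ n := by positivity
  set Y : ℝ := 2 + U + E * U + (1 + n * (E * U + T)) * Real.log G with hY
  set B : ℝ := 2 * ((I * G ^ (n * (E * U + T))) * ((2 ^ U : ℕ) : ℝ)) / Real.exp (-(E * U : ℝ))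
    with hB
  have h2 : (2 : ℝ) ≤ Real.exp 1 := by
    have := Real.add_one_le_exp (1 : ℝ); linarith
  have hIr : (1 : ℝ) ≤ I := by exact_mod_cast hI1
  have hBeq : B = 2 * ((I * G ^ (n * (E * U + T))) * 2 ^ U) * Real.exp (E * U) := by
    rw [hB, Real.exp_neg, div_inv_eq_mul]
    push_cast
    ring
  have hG1' : (1 : ℝ) ≤ G ^ (n * (E * U + T)) := one_le_pow₀ hG1
  have h2U : (1 : ℝ) ≤ 2 ^ U := one_le_pow₀ (by norm_num)
  have hexp1 : (1 : ℝ) ≤ Real.exp (E * U) := Real.one_le_exp (by positivity)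
  have hB1 : 1 ≤ B := by
    rw [hBeq]
    have a1 : (1 : ℝ) ≤ (I * G ^ (n * (E * U + T))) * 2 ^ U :=
      one_le_mul_of_one_le_of_one_le (one_le_mul_of_one_le_of_one_le hIr hG1') h2U
    nlinarith
  have hfl : ((⌊B⌋₊ + 1 : ℕ) : ℝ) ≤ 2 * B := by
    push_cast
    have := Nat.floor_le (show 0 ≤ B by linarith)
    linarith
  have hGexp : G = Real.exp (Real.log G) := (Real.exp_log (by linarith)).symm
  have hBY : 2 * B ≤ Real.exp Y := by
    have e1 : Real.exp Y = (Real.exp 1 * Real.exp 1) * ((Real.exp (Real.log G) *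
        Real.exp (Real.log G) ^ (n * (E * U + T))) * Real.exp 1 ^ U) * Real.exp (E * U) := by
      rw [← Real.exp_nat_mul, ← Real.exp_nat_mul, ← Real.exp_add, ← Real.exp_add, ← Real.exp_add,
        ← Real.exp_add, ← Real.exp_add, hY]
      congr 1
      push_cast
      ring
    rw [e1, ← hGexp, hBeq]
    have e2 : 2 * (2 * ((I * G ^ (n * (E * U + T))) * 2 ^ U) * Real.exp (E * U)) =
      (2 * 2) * ((I * G ^ (n * (E * U + T))) * 2 ^ U) * Real.exp (E * U) := by ring
    rw [e2]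
    gcongr
  have hY0 : 0 ≤ Y := by positivity
  have hK : ((E * U + T : ℕ) : ℝ) ≤ (((E + 1) * U : ℕ) : ℝ) := by
    have : E * U + T ≤ (E + 1) * U := by nlinarith
    exact_mod_cast this
  have hYle : Y ≤ U * (3 + E + (1 + n * (E + 1)) * Real.log G) := by
    have hTr : (T : ℝ) ≤ U := by exact_mod_cast hT
    have a1 : (1 + n * (E * U + T)) * Real.log G ≤ (U + n * (E * U + U)) * Real.log G := by
      refine mul_le_mul_of_nonneg_right ?_ hl
      have := mul_le_mul_of_nonneg_left hTr hn0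
      linarith
    rw [hY]
    nlinarith
  have hfin : 2 * ((E * U + T : ℕ) : ℝ) ^ n * Y < Real.log 2 * U * I := by
    have hlog2 : 1 / 2 < Real.log 2 := by
      have := Real.log_two_gt_d9; linarith
    have a1 : 2 * ((E * U + T : ℕ) : ℝ) ^ n * Y ≤ 2 * (((E + 1) * U : ℕ) : ℝ) ^ n *
        (U * (3 + E + (1 + n * (E + 1)) * Real.log G)) := by
      gcongr
    have hUp : (0 : ℝ) < U := by linarith
    calc 2 * ((E * U + T : ℕ) : ℝ) ^ n * Y ≤ _ := a1
      _ = 1 / 2 * U * (4 * (((E + 1) * U : ℕ) : ℝ) ^ n *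
            (3 + E + (1 + n * (E + 1)) * Real.log G)) := by ring
      _ < 1 / 2 * U * I := by
          exact mul_lt_mul_of_pos_left i5 (by positivity)
      _ ≤ Real.log 2 * U * I := by gcongr
  have hcast : (((⌊B⌋₊ + 1) ^ (2 * (E * U + T) ^ n) : ℕ) : ℝ) < (((2 ^ U + 1) ^ I : ℕ) : ℝ) := by
    calc (((⌊B⌋₊ + 1) ^ (2 * (E * U + T) ^ n) : ℕ) : ℝ) =
          ((⌊B⌋₊ + 1 : ℕ) : ℝ) ^ (2 * (E * U + T) ^ n) := by push_cast; ring
      _ ≤ (Real.exp Y) ^ (2 * (E * U + T) ^ n) :=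
          pow_le_pow_left₀ (Nat.cast_nonneg _) (hfl.trans hBY) _
      _ = Real.exp (2 * ((E * U + T : ℕ) : ℝ) ^ n * Y) := by
          rw [← Real.exp_nat_mul]; push_cast; ring_nf
      _ < Real.exp (Real.log 2 * U * I) := Real.exp_lt_exp.2 hfin
      _ = ((2 : ℝ) ^ U) ^ I := by
          rw [mul_assoc, ← Nat.cast_mul, Real.exp_mul, Real.exp_log (by norm_num),
            Real.rpow_natCast, pow_mul]
      _ ≤ (((2 ^ U + 1) ^ I : ℕ) : ℝ) := by
          push_cast
          exact pow_le_pow_left₀ (by positivity) (by linarith) _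
  exact_mod_cast hcast

theorem core (v : Fin n → Option κ → ℂ) (jw : Finset (Fin n)) (η : β → Option κ → ℂ)
    (c : β → Fin n → ℂ) (hc : ∀ b, η b = ∑ j, c b j • v j)
    {V : ℝ} (hV : ∀ j o, ‖v j o‖ ≤ V) (hV1 : 1 ≤ V)
    {C : ℝ} (hC : ∀ (x : ℂ) (D : ℕ) (H : ℝ), Sz (gen v jw η) x D H → x ≠ 0 →
      Real.exp (-(C * (D + Real.log H))) ≤ ‖x‖)
    (hC1 : 1 ≤ C)
    {C₁ : ℝ} (hC₁ : ∑ b, ∑ j, ‖c b j‖ ≤ C₁) (E D₀ D N T U : ℕ) {R G : ℝ} (hR1 : 1 ≤ R)
    (hR : ∀ o, ∑ b, N * ‖η b o‖ ≤ R) (hE : 3 * C + 5 ≤ E) (hU : 1 ≤ U)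
    (g1 : (Fintype.card (Ix κ D₀ D) : ℝ) ≤ G) (g2 : V * (D₀ + Fintype.card κ * D) ≤ G)
    (g3 : (Fintype.card β * N + 1 : ℝ) ≤ G) (g4 : R ≤ G)
    (i1 : T + (D₀ + Fintype.card κ * D * (Fintype.card β * N)) ≤ U)
    (i2 : (1 + T + D₀) * Real.log G ≤ U) (i3 : C₁ * N + 1 ≤ U)
    (i4 : 3 * (Fintype.card κ * D * R) + D₀ ≤ U)
    (i5 : 4 * (((E + 1) * U : ℕ) : ℝ) ^ n * (3 + E + (1 + n * (E + 1)) * Real.log G) <
      Fintype.card (Ix κ D₀ D)) :
    ∃ P : MvPolynomial (Option κ) ℂ, P ≠ 0 ∧ P.degreeOf none ≤ D₀ ∧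
      (∀ i, P.degreeOf (some i) ≤ D) ∧
      ∀ m : β → ℕ, (∀ b, m b ≤ N) → ∀ l : List (Fin n), (∀ j ∈ l, j ∈ jw) →
        l.length ≤ T → ev (∑ b, m b • η b) (W v l P) = 0 := by
  have hG1 : 1 ≤ G := hR1.trans g4
  have hl := Real.log_nonneg hG1
  have hT : T ≤ U := by omega
  have hUr : (1 : ℝ) ≤ U := by exact_mod_cast hU
  have hI1 : 1 ≤ Fintype.card (Ix κ D₀ D) := Fintype.card_pos
  have hE0 : (0 : ℝ) < Real.exp (-(E * U : ℝ)) := Real.exp_pos _
  have hbox := box_cond n E U T hU hT hG1 hI1 g1 i5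
  obtain ⟨x, hx0, hxX, hx⟩ := aux v hV D₀ D (E * U + T) (2 ^ U) hG1 g2 hE0 hbox
  refine ⟨po x, po_ne_zero hx0, (po_degree x).1, (po_degree x).2, fun m hm l hl' hlT => ?_⟩
  by_contra hne
  have hGexp : G = Real.exp (Real.log G) := (Real.exp_log (by linarith)).symm
  have h2 : (2 : ℝ) ≤ Real.exp 1 := by
    have := Real.add_one_le_exp (1 : ℝ); linarith
  have h2U : (2 : ℝ) ^ U ≤ Real.exp U := by
    have : Real.exp (U : ℝ) = Real.exp 1 ^ U := by rw [← Real.exp_nat_mul, mul_one]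
    rw [this]
    exact pow_le_pow_left₀ (by norm_num) h2 _
  -- lower bound
  have hGT : ∀ k : ℕ, G ^ k = Real.exp (k * Real.log G) := fun k => by
    rw [Real.exp_nat_mul, ← hGexp]
  have hbase : (D₀ + Fintype.card κ * D : ℝ) ≤ G := by
    refine le_trans ?_ g2
    have : (0 : ℝ) ≤ D₀ + Fintype.card κ * D := by positivity
    nlinarith
  have hsz := (sz_po v jw η hm x hxX l hl').mono (D' := U)
    (H' := Real.exp (2 * U)) (by omega) (by
      calc (Fintype.card (Ix κ D₀ D) * (((2 ^ U : ℕ) : ℝ) * ((D₀ + Fintype.card κ * D : ℝ) ^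
            l.length * (Fintype.card β * N + 1 : ℝ) ^ D₀)))
          ≤ G * (Real.exp U * (G ^ T * G ^ D₀)) := by
            have a1 : (D₀ + Fintype.card κ * D : ℝ) ^ l.length ≤ G ^ T :=
              (pow_le_pow_left₀ (by positivity) hbase _).trans (pow_le_pow_right₀ hG1 hlT)
            have a2 : (Fintype.card β * N + 1 : ℝ) ^ D₀ ≤ G ^ D₀ :=
              pow_le_pow_left₀ (by positivity) g3 _
            push_cast
            gcongr
        _ = Real.exp (U + (1 + T + D₀) * Real.log G) := by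
            rw [hGT, hGT]
            nth_rewrite 1 [hGexp]
            rw [← Real.exp_add, ← Real.exp_add, ← Real.exp_add]
            congr 1
            ring
        _ ≤ Real.exp (2 * U) := Real.exp_le_exp.2 (by linarith))
  have hlow := hC _ _ _ hsz hne
  rw [Real.log_exp] at hlow
  -- upper bound
  have hw : ∑ b, m b • η b = ∑ j, (∑ b, (m b : ℂ) * c b j) • v j := by
    have : ∀ b, m b • η b = ∑ j, ((m b : ℂ) * c b j) • v j := fun b => by
      rw [hc b, Finset.smul_sum]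
      refine Finset.sum_congr rfl fun j _ => ?_
      rw [mul_smul, Nat.cast_smul_eq_nsmul]
    simp only [this]
    rw [Finset.sum_comm]
    refine Finset.sum_congr rfl fun j _ => ?_
    rw [Finset.sum_smul]
  have hRo : ∀ o, ‖(∑ j, (∑ b, (m b : ℂ) * c b j) • v j) o‖ ≤ R := fun o => by
    rw [← hw, Finset.sum_apply]
    refine (norm_sum_le _ _).trans (le_trans (Finset.sum_le_sum fun b _ => ?_) (hR o))
    rw [Pi.smul_apply, nsmul_eq_mul, norm_mul, Complex.norm_natCast]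
    exact mul_le_mul_of_nonneg_right (by exact_mod_cast hm b) (norm_nonneg _)
  have hup := small_value v hV (fun i : Ix κ D₀ D => (i.1 : ℕ)) (fun i k => (i.2 k : ℕ))
    (D₀ := D₀) (D := D) (fun i => by have := i.1.2; omega) (fun i k => by have := (i.2 k).2; omega)
    (fun i => (x i : ℂ)) (X := (2 : ℝ) ^ U) (fun i => by
      have := hxX i
      rw [Complex.norm_intCast, ← Int.cast_abs]
      exact_mod_cast this)
    (K := E * U) (K' := E * U + T) (by
      have : 0 < E := by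
        have : (0 : ℝ) < E := by linarith
        exact_mod_cast this
      positivity) (ε := 2 * Real.exp (-(E * U : ℝ)))
    (fun l hl => hx l hl) (fun j => ∑ b, (m b : ℂ) * c b j) hR1 hRo l (by omega)
  rw [← hw] at hup
  have ha : ∑ j, ‖∑ b, (m b : ℂ) * c b j‖ ≤ C₁ * N := by
    calc ∑ j, ‖∑ b, (m b : ℂ) * c b j‖ ≤ ∑ j, ∑ b, ‖c b j‖ * N := by
          refine Finset.sum_le_sum fun j _ => (norm_sum_le _ _).trans
            (Finset.sum_le_sum fun b _ => ?_)
          rw [norm_mul, Complex.norm_natCast, mul_comm]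
          exact mul_le_mul_of_nonneg_left (by exact_mod_cast hm b) (norm_nonneg _)
      _ = (∑ b, ∑ j, ‖c b j‖) * N := by
          rw [Finset.sum_comm, Finset.sum_mul]
          exact Finset.sum_congr rfl fun b _ => by rw [Finset.sum_mul]
      _ ≤ C₁ * N := mul_le_mul_of_nonneg_right hC₁ (Nat.cast_nonneg _)
  have hhead : Real.exp (∑ j, ‖∑ b, (m b : ℂ) * c b j‖) * (2 * Real.exp (-(E * U : ℝ))) ≤
      Real.exp (U - E * U) := by
    calc _ ≤ Real.exp (C₁ * N) * (Real.exp 1 * Real.exp (-(E * U : ℝ))) := by gcongr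
      _ = Real.exp (C₁ * N + 1 - E * U) := by
          rw [← Real.exp_add, ← Real.exp_add]; ring_nf
      _ ≤ _ := Real.exp_le_exp.2 (by linarith)
  have htail : (Fintype.card (Ix κ D₀ D) : ℝ) * (2 : ℝ) ^ U *
        ((V * (D₀ + Fintype.card κ * D)) ^ l.length *
          (R ^ D₀ * Real.exp (3 * (Fintype.card κ * D * R) - ((E * U : ℕ) - D₀)))) ≤
      Real.exp (3 * U - E * U) := by
    calc _ ≤ G * Real.exp U * (G ^ T * (G ^ D₀ * Real.exp (U - E * U))) := by
          have a1 : (V * (D₀ + Fintype.card κ * D : ℝ)) ^ l.length ≤ G ^ T :=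
            (pow_le_pow_left₀ (by positivity) g2 _).trans (pow_le_pow_right₀ hG1 hlT)
          have a2 : R ^ D₀ ≤ G ^ D₀ := pow_le_pow_left₀ (by positivity) g4 _
          have a3 : 3 * (Fintype.card κ * D * R) - (((E * U : ℕ) : ℝ) - D₀) ≤ U - E * U := by
            push_cast
            linarith
          gcongr
      _ = Real.exp (2 * U - E * U + (1 + T + D₀) * Real.log G) := by
            rw [hGT, hGT]
            nth_rewrite 1 [hGexp]
            rw [← Real.exp_add, ← Real.exp_add, ← Real.exp_add, ← Real.exp_add]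
            congr 1
            ring
      _ ≤ _ := Real.exp_le_exp.2 (by linarith)
  have htot : Real.exp (U - E * U) + Real.exp (3 * U - E * U) ≤ Real.exp (4 * U - E * U) := by
    have b1 : Real.exp (U - E * U) ≤ Real.exp (3 * U - E * U) := Real.exp_le_exp.2 (by linarith)
    have b2 : Real.exp (4 * U - E * U) = Real.exp (3 * U - E * U) * Real.exp U := by
      rw [← Real.exp_add]; ring_nf
    have b3 : 2 ≤ Real.exp (U : ℝ) := h2.trans (Real.exp_le_exp.2 hUr)
    have b4 := Real.exp_pos (3 * U - E * U : ℝ)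
    rw [b2]
    nlinarith
  have hfin : Real.exp (-(C * ((U : ℝ) + 2 * U))) ≤ Real.exp (4 * U - E * U) :=
    hlow.trans (hup.trans (le_trans (add_le_add hhead htail) htot))
  rw [Real.exp_le_exp] at hfin
  nlinarith

end

end Pool.Agent.Helper37.PiE
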