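import Pool.Agent.Helper37.PiE.Core

/-! # The transcendence engine on `G_a × G_m^κ` -/

open MvPolynomial Filter
open scoped Classical

namespace Pool.Agent.Helper37.PiE

theorem ev1 (c : ℝ) : ∀ᶠ M : ℕ in atTop, c * (1 + Real.log M) ≤ M := by
  have h1 : (fun x : ℝ => c * (1 + Real.log x)) =o[atTop] (fun x : ℝ => x) := by
    refine Asymptotics.IsLittleO.const_mul_left ?_ c
    refine Asymptotics.IsLittleO.add ?_ Real.isLittleO_log_id_atTop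
    exact Asymptotics.isLittleO_const_id_atTop (1 : ℝ)
  have h2 := h1.bound (show (0 : ℝ) < 1 by norm_num)
  have h3 := tendsto_natCast_atTop_atTop (R := ℝ) |>.eventually h2
  filter_upwards [h3, eventually_ge_atTop 1] with M hM hM1
  rw [one_mul, Real.norm_of_nonneg (show (0 : ℝ) ≤ M from Nat.cast_nonneg _)] at hM
  exact (le_abs_self _).trans hM

theorem ev2 (c : ℝ) {a u : ℕ} (h : a < u) :
    ∀ᶠ M : ℕ in atTop, c * (1 + Real.log M) * (M : ℝ) ^ a ≤ (M : ℝ) ^ u := by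
  filter_upwards [ev1 c, eventually_ge_atTop 1] with M hM hM1
  have hM1' : (1 : ℝ) ≤ M := by exact_mod_cast hM1
  calc c * (1 + Real.log M) * (M : ℝ) ^ a ≤ M * (M : ℝ) ^ a :=
        mul_le_mul_of_nonneg_right hM (by positivity)
    _ = (M : ℝ) ^ (a + 1) := by ring
    _ ≤ (M : ℝ) ^ u := pow_le_pow_right₀ hM1' h

theorem ev3 {c : ℝ} (hc : 0 ≤ c) {a u : ℕ} (h : a < u) :
    ∀ᶠ M : ℕ in atTop, c * (M : ℝ) ^ a ≤ (M : ℝ) ^ u := by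
  filter_upwards [ev2 c h, eventually_ge_atTop 1] with M hM hM1
  have hM1' : (1 : ℝ) ≤ M := by exact_mod_cast hM1
  refine le_trans ?_ hM
  have := Real.log_nonneg hM1'
  have h2 : (0 : ℝ) ≤ (M : ℝ) ^ a := by positivity
  have h3 := mul_nonneg (mul_nonneg hc this) h2
  nlinarith

theorem engine {κ β : Type} [Fintype κ] [Fintype β] (n : ℕ) (v : Fin n → Option κ → ℂ)
    (jw : Finset (Fin n)) (η : β → Option κ → ℂ)
    (hη : ∀ b, η b ∈ Submodule.span ℂ (Set.range v))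
    (hw : ∀ j ∈ jw, ∀ o, IsAlgebraic ℚ (v j o)) (he : ∀ b o, IsAlgebraic ℚ (ex (η b) o))
    {u a₀ a₁ s t : ℕ} (h1 : a₀ < u) (h2 : a₁ + s < u) (h3 : t < u)
    (h4 : n * u < a₀ + Fintype.card κ * a₁) :
    ∀ᶠ M : ℕ in atTop, ∃ P : MvPolynomial (Option κ) ℂ, P ≠ 0 ∧
      P.degreeOf none ≤ M ^ a₀ ∧ (∀ i, P.degreeOf (some i) ≤ M ^ a₁) ∧
      ∀ m : β → ℕ, (∀ b, m b < M ^ s) → ∀ l : List (Fin n), (∀ j ∈ l, j ∈ jw) →
        l.length < M ^ t →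
        eval (ex (∑ b, m b • η b)) (l.foldr (fun j R => dv (v j) R) P) = 0 := by
  have hc : ∀ b, ∃ c : Fin n → ℂ, η b = ∑ j, c j • v j := fun b => by
    obtain ⟨c, hc⟩ := (Submodule.mem_span_range_iff_exists_fun ℂ).1 (hη b)
    exact ⟨c, hc.symm⟩
  choose c hc using hc
  have halg : ∀ i, IsAlgebraic ℚ (gen v jw η i) := by
    rintro (⟨⟨j, hj⟩, o⟩ | ⟨b, o⟩)
    · exact hw j hj o
    · exact he b o
  obtain ⟨C, hC1, hC⟩ := liouville_sz (gen v jw η) halg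
  obtain ⟨V, hV1, hV⟩ : ∃ V : ℝ, 1 ≤ V ∧ ∀ j o, ‖v j o‖ ≤ V := by
    refine ⟨1 + ∑ j, ∑ o, ‖v j o‖, ?_, fun j o => ?_⟩
    · have : 0 ≤ ∑ j, ∑ o, ‖v j o‖ :=
        Finset.sum_nonneg fun _ _ => Finset.sum_nonneg fun _ _ => norm_nonneg _
      linarith
    · have e1 : ‖v j o‖ ≤ ∑ o, ‖v j o‖ :=
        Finset.single_le_sum (f := fun o => ‖v j o‖) (fun _ _ => norm_nonneg _)
          (Finset.mem_univ o)
      have e2 : ∑ o, ‖v j o‖ ≤ ∑ j, ∑ o, ‖v j o‖ :=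
        Finset.single_le_sum (f := fun j => ∑ o, ‖v j o‖)
          (fun _ _ => Finset.sum_nonneg fun _ _ => norm_nonneg _) (Finset.mem_univ j)
      linarith
  obtain ⟨C₁, hC₁0, hC₁⟩ : ∃ C₁ : ℝ, 0 ≤ C₁ ∧ ∑ b, ∑ j, ‖c b j‖ ≤ C₁ :=
    ⟨_, Finset.sum_nonneg fun _ _ => Finset.sum_nonneg fun _ _ => norm_nonneg _, le_rfl⟩
  obtain ⟨C₂, hC₂1, hC₂⟩ : ∃ C₂ : ℝ, 1 ≤ C₂ ∧ ∀ o, ∑ b, ‖η b o‖ ≤ C₂ := by
    refine ⟨1 + ∑ o, ∑ b, ‖η b o‖, ?_, fun o => ?_⟩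
    · have : 0 ≤ ∑ o, ∑ b, ‖η b o‖ :=
        Finset.sum_nonneg fun _ _ => Finset.sum_nonneg fun _ _ => norm_nonneg _
      linarith
    · have e2 : ∑ b, ‖η b o‖ ≤ ∑ o, ∑ b, ‖η b o‖ :=
        Finset.single_le_sum (f := fun o => ∑ b, ‖η b o‖)
          (fun _ _ => Finset.sum_nonneg fun _ _ => norm_nonneg _) (Finset.mem_univ o)
      linarith
  obtain ⟨E, hE⟩ := exists_nat_ge (3 * C + 5)
  set k := Fintype.card κ with hk
  set k' := Fintype.card β with hk'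
  obtain ⟨L, hL⟩ : ∃ L : ℕ, L = (a₀ + 1) + (a₁ + 1) * k + (a₁ + 2) + (s + 1) := ⟨_, rfl⟩
  have hs : s < u := by omega
  obtain ⟨M₀, hM₀⟩ := exists_nat_ge (2 + V + k + k' + C₂)
  filter_upwards [eventually_ge_atTop M₀, ev3 (show (0 : ℝ) ≤ 3 by norm_num) h3,
    ev3 (show (0 : ℝ) ≤ 3 by norm_num) h1,
    ev3 (show (0 : ℝ) ≤ 3 * (k * k') by positivity) h2,
    ev2 (3 * L) (show 0 < u by omega), ev2 (3 * L) h3, ev2 (3 * L) h1,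
    ev3 (show (0 : ℝ) ≤ C₁ + 1 by linarith) hs,
    ev3 (show (0 : ℝ) ≤ 2 * (3 * (k * C₂)) by positivity) h2,
    ev1 (2 * (4 * (E + 1) ^ n * (3 + E + (1 + n * (E + 1)) * L)))] with
    M hM e1 e2 e3 e4 e5 e6 e7 e8 e9
  have hMr : 2 + V + k + k' + C₂ ≤ (M : ℝ) := hM₀.trans (by exact_mod_cast hM)
  have hk0 : (0 : ℝ) ≤ k := by positivity
  have hk'0 : (0 : ℝ) ≤ k' := by positivity
  have hM2 : (2 : ℝ) ≤ M := by linarith
  have hM1 : (1 : ℝ) ≤ M := by linarith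
  have hM1n : 1 ≤ M := by exact_mod_cast hM1
  have hM0 : (0 : ℝ) < M := by linarith
  have hlog := Real.log_nonneg hM1
  have hU1 : 1 ≤ M ^ u := Nat.one_le_pow _ _ hM1n
  have hpw : ∀ a b : ℕ, a ≤ b → (M : ℝ) ^ a ≤ (M : ℝ) ^ b := fun a b h => pow_le_pow_right₀ hM1 h
  have hone : ∀ a : ℕ, (1 : ℝ) ≤ (M : ℝ) ^ a := fun a => one_le_pow₀ hM1
  have hsucc : ∀ a : ℕ, (M : ℝ) ^ a + 1 ≤ (M : ℝ) ^ (a + 1) := fun a => by
    have := hone a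
    rw [pow_succ]
    nlinarith
  have hlogG : Real.log ((M : ℝ) ^ L) = L * Real.log M := by rw [Real.log_pow]
  have hcardIx : (Fintype.card (Ix κ (M ^ a₀) (M ^ a₁)) : ℝ) =
      ((M : ℝ) ^ a₀ + 1) * ((M : ℝ) ^ a₁ + 1) ^ k := by
    simp [hk]
  have hg1 : (Fintype.card (Ix κ (M ^ a₀) (M ^ a₁)) : ℝ) ≤ (M : ℝ) ^ L := by
    rw [hcardIx]
    calc ((M : ℝ) ^ a₀ + 1) * ((M : ℝ) ^ a₁ + 1) ^ k
        ≤ (M : ℝ) ^ (a₀ + 1) * ((M : ℝ) ^ (a₁ + 1)) ^ k := by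
          gcongr
          · exact hsucc _
          · exact hsucc _
      _ = (M : ℝ) ^ ((a₀ + 1) + (a₁ + 1) * k) := by rw [← pow_mul, ← pow_add]
      _ ≤ (M : ℝ) ^ L := hpw _ _ (by omega)
  have hg2 : V * (((M ^ a₀ : ℕ) : ℝ) + k * ((M ^ a₁ : ℕ) : ℝ)) ≤ (M : ℝ) ^ L := by
    push_cast
    calc V * ((M : ℝ) ^ a₀ + k * (M : ℝ) ^ a₁)
        ≤ M * ((M : ℝ) ^ (a₀ + a₁) + k * (M : ℝ) ^ (a₀ + a₁)) := by
          have := hpw a₀ (a₀ + a₁) (by omega)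
          have := hpw a₁ (a₀ + a₁) (by omega)
          gcongr
          linarith
      _ = M * ((1 + k) * (M : ℝ) ^ (a₀ + a₁)) := by ring
      _ ≤ M * (M * (M : ℝ) ^ (a₀ + a₁)) := by
          gcongr
          linarith
      _ = (M : ℝ) ^ (a₀ + a₁ + 2) := by ring
      _ ≤ (M : ℝ) ^ L := hpw _ _ (by omega)
  have hg3 : (k' * ((M ^ s : ℕ) : ℝ) + 1) ≤ (M : ℝ) ^ L := by
    push_cast
    calc k' * (M : ℝ) ^ s + 1 ≤ k' * (M : ℝ) ^ s + (M : ℝ) ^ s := by linarith [hone s]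
      _ = (k' + 1) * (M : ℝ) ^ s := by ring
      _ ≤ M * (M : ℝ) ^ s := by gcongr; linarith
      _ = (M : ℝ) ^ (s + 1) := by ring
      _ ≤ (M : ℝ) ^ L := hpw _ _ (by omega)
  have hg4 : C₂ * (M : ℝ) ^ s ≤ (M : ℝ) ^ L := by
    calc C₂ * (M : ℝ) ^ s ≤ M * (M : ℝ) ^ s := by gcongr; linarith
      _ = (M : ℝ) ^ (s + 1) := by ring
      _ ≤ (M : ℝ) ^ L := hpw _ _ (by omega)
  have hR1 : 1 ≤ C₂ * (M : ℝ) ^ s := one_le_mul_of_one_le_of_one_le hC₂1 (hone s)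
  have hR : ∀ o, ∑ b, ((M ^ s : ℕ) : ℝ) * ‖η b o‖ ≤ C₂ * (M : ℝ) ^ s := fun o => by
    rw [← Finset.mul_sum, mul_comm]
    push_cast
    exact mul_le_mul_of_nonneg_right (hC₂ o) (by positivity)
  have hi1 : M ^ t + (M ^ a₀ + k * M ^ a₁ * (k' * M ^ s)) ≤ M ^ u := by
    have : (M : ℝ) ^ t + ((M : ℝ) ^ a₀ + k * (M : ℝ) ^ a₁ * (k' * (M : ℝ) ^ s)) ≤ (M : ℝ) ^ u := by
      have e : 3 * (k * k' : ℝ) * (M : ℝ) ^ (a₁ + s) =
          3 * (k * (M : ℝ) ^ a₁ * (k' * (M : ℝ) ^ s)) := by ring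
      rw [e] at e3
      linarith
    exact_mod_cast this
  have hi2 : (1 + ((M ^ t : ℕ) : ℝ) + ((M ^ a₀ : ℕ) : ℝ)) * Real.log ((M : ℝ) ^ L) ≤
      ((M ^ u : ℕ) : ℝ) := by
    rw [hlogG]
    push_cast
    have key : ∀ a, 3 * (L : ℝ) * (1 + Real.log M) * (M : ℝ) ^ a ≤ (M : ℝ) ^ u →
        3 * ((M : ℝ) ^ a * (L * Real.log M)) ≤ (M : ℝ) ^ u := fun a h => by
      refine le_trans ?_ h
      have : 0 ≤ 3 * (L : ℝ) * (M : ℝ) ^ a := by positivity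
      nlinarith
    have f1 := key _ e4
    have f2 := key _ e5
    have f3 := key _ e6
    rw [pow_zero] at f1
    linarith
  have hi3 : C₁ * ((M ^ s : ℕ) : ℝ) + 1 ≤ ((M ^ u : ℕ) : ℝ) := by
    push_cast
    have := hone s
    linarith
  have hi4 : 3 * (k * ((M ^ a₁ : ℕ) : ℝ) * (C₂ * (M : ℝ) ^ s)) + ((M ^ a₀ : ℕ) : ℝ) ≤
      ((M ^ u : ℕ) : ℝ) := by
    push_cast
    have e : 2 * (3 * (k * C₂)) * (M : ℝ) ^ (a₁ + s) =
          2 * (3 * (k * (M : ℝ) ^ a₁ * (C₂ * (M : ℝ) ^ s))) := by ring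
    rw [e] at e8
    have : (0 : ℝ) ≤ (M : ℝ) ^ u := by positivity
    linarith
  have hi5 : 4 * (((E + 1) * M ^ u : ℕ) : ℝ) ^ n *
      (3 + E + (1 + n * (E + 1)) * Real.log ((M : ℝ) ^ L)) <
      Fintype.card (Ix κ (M ^ a₀) (M ^ a₁)) := by
    rw [hlogG, hcardIx]
    push_cast
    have f1 : 3 + (E : ℝ) + (1 + n * (E + 1)) * (L * Real.log M) ≤
        (3 + E + (1 + n * (E + 1)) * L) * (1 + Real.log M) := by
      have g1 : (0 : ℝ) ≤ (3 + E) * Real.log M := by positivity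
      have g2 : (0 : ℝ) ≤ (1 + n * (E + 1)) * L := by positivity
      nlinarith
    have hMnu : (0 : ℝ) < (M : ℝ) ^ (n * u) := by positivity
    calc 4 * (((E : ℝ) + 1) * (M : ℝ) ^ u) ^ n * (3 + E + (1 + n * (E + 1)) * (L * Real.log M))
        ≤ 4 * (((E : ℝ) + 1) * (M : ℝ) ^ u) ^ n *
            ((3 + E + (1 + n * (E + 1)) * L) * (1 + Real.log M)) := by gcongr
      _ = (M : ℝ) ^ (n * u) * ((4 * (E + 1) ^ n * (3 + E + (1 + n * (E + 1)) * L)) *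
            (1 + Real.log M)) := by
          rw [mul_pow, ← pow_mul, mul_comm u n]
          ring
      _ < (M : ℝ) ^ (n * u) * M := by
          refine mul_lt_mul_of_pos_left ?_ hMnu
          linarith
      _ = (M : ℝ) ^ (n * u + 1) := by ring
      _ ≤ (M : ℝ) ^ (a₀ + k * a₁) := hpw _ _ h4
      _ = (M : ℝ) ^ a₀ * ((M : ℝ) ^ a₁) ^ k := by rw [← pow_mul, ← pow_add, mul_comm k]
      _ ≤ ((M : ℝ) ^ a₀ + 1) * ((M : ℝ) ^ a₁ + 1) ^ k := by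
          gcongr
          · linarith
          · linarith
  obtain ⟨P, hP0, hP1, hP2, hP3⟩ := core v jw η c hc hV hV1 hC hC1 hC₁ E (M ^ a₀) (M ^ a₁)
    (M ^ s) (M ^ t) (M ^ u) hR1 hR hE hU1 hg1 hg2 hg3 hg4 hi1 hi2 hi3 hi4 hi5
  refine ⟨P, hP0, hP1, hP2, fun m hm l hl hlt => ?_⟩
  have := hP3 m (fun b => (hm b).le) l hl hlt.le
  rw [← foldr_eq_W] at this
  rw [← this, ev]
  simp

end Pool.Agent.Helper37.PiE
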