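import Pool.Agent.Helper37.PiE.Liou
import Pool.Agent.Helper37.PiE.Box

/-! # Invariant derivations on `G_a × G_m^κ` and Taylor expansions along one parameter subgroups -/

open MvPolynomial

namespace Pool.Agent.Helper37.PiE

/-- invariant derivation along `v` on the coordinate ring of `G_a × G_m^κ` -/
noncomputable def dv {κ : Type*} (v : Option κ → ℂ) :
    Derivation ℂ (MvPolynomial (Option κ) ℂ) (MvPolynomial (Option κ) ℂ) :=
  mkDerivation ℂ fun o => match o with
    | none => C (v none)
    | some i => C (v (some i)) * X (some i)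

/-- the exponential map of `G_a × G_m^κ` -/
noncomputable def ex {κ : Type*} (v : Option κ → ℂ) : Option κ → ℂ
  | none => v none
  | some i => Complex.exp (v (some i))

section basic
variable {κ : Type*}

theorem dv_X_none (v : Option κ → ℂ) : dv v (X none) = C (v none) := by
  simp [dv]

theorem dv_X_some (v : Option κ → ℂ) (i : κ) :
    dv v (X (some i)) = C (v (some i)) * X (some i) := by
  simp [dv]

theorem dv_comm (v w : Option κ → ℂ) (P : MvPolynomial (Option κ) ℂ) :
    dv v (dv w P) = dv w (dv v P) := by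
  have h : ⁅dv v, dv w⁆ = 0 := by
    apply MvPolynomial.derivation_ext
    intro o
    rw [Derivation.commutator_apply]
    rcases o with _ | i
    · rw [dv_X_none, dv_X_none, derivation_C, derivation_C]
      simp
    · rw [dv_X_some, dv_X_some, Derivation.leibniz, Derivation.leibniz, derivation_C,
        derivation_C, dv_X_some, dv_X_some]
      simp only [smul_eq_mul, Derivation.coe_zero, Pi.zero_apply]
      ring
  have h2 := congrArg (fun D => D P) h
  simp only [Derivation.commutator_apply, Derivation.coe_zero, Pi.zero_apply] at h2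
  exact sub_eq_zero.1 h2

theorem dv_sum {n : ℕ} (c : Fin n → ℂ) (v : Fin n → Option κ → ℂ)
    (P : MvPolynomial (Option κ) ℂ) : dv (∑ j, c j • v j) P = ∑ j, c j • dv (v j) P := by
  have h : dv (∑ j, c j • v j) = ∑ j, c j • dv (v j) := by
    apply MvPolynomial.derivation_ext
    intro o
    have e : ∀ D : Fin n → Derivation ℂ (MvPolynomial (Option κ) ℂ) (MvPolynomial (Option κ) ℂ),
        ∀ Q, (∑ j, D j) Q = ∑ j, D j Q := fun D Q => by
      rw [← Derivation.coeFnAddMonoidHom_apply, map_sum, Finset.sum_apply]
      rfl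
    rw [e]
    rcases o with _ | i
    · simp only [dv_X_none, Derivation.smul_apply, Finset.sum_apply, Pi.smul_apply, smul_eq_mul,
        map_sum, map_mul, MvPolynomial.smul_eq_C_mul]
    · simp only [dv_X_some, Derivation.smul_apply, Finset.sum_apply, Pi.smul_apply, smul_eq_mul,
        map_sum, map_mul, MvPolynomial.smul_eq_C_mul, Finset.sum_mul, mul_assoc]
  rw [h]
  rw [← Derivation.coeFnAddMonoidHom_apply, map_sum, Finset.sum_apply]
  rfl

/-- evaluation at the neutral element -/
noncomputable def e0 (κ : Type*) : MvPolynomial (Option κ) ℂ →ₗ[ℂ] ℂ :=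
  (MvPolynomial.aeval (ex (0 : Option κ → ℂ))).toLinearMap

/-- evaluation at `exp v` -/
noncomputable def ev (v : Option κ → ℂ) : MvPolynomial (Option κ) ℂ →ₗ[ℂ] ℂ :=
  (MvPolynomial.aeval (ex v)).toLinearMap

/-- the operator attached to a word -/
noncomputable def W {n : ℕ} (v : Fin n → Option κ → ℂ) :
    List (Fin n) → MvPolynomial (Option κ) ℂ →ₗ[ℂ] MvPolynomial (Option κ) ℂ
  | [] => LinearMap.id
  | j :: l => W v l ∘ₗ ((dv (v j) : Derivation ℂ _ _) :
      MvPolynomial (Option κ) ℂ →ₗ[ℂ] MvPolynomial (Option κ) ℂ)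

theorem W_nil {n : ℕ} (v : Fin n → Option κ → ℂ) (P : MvPolynomial (Option κ) ℂ) :
    W v [] P = P := rfl

theorem W_cons {n : ℕ} (v : Fin n → Option κ → ℂ) (j : Fin n) (l : List (Fin n))
    (P : MvPolynomial (Option κ) ℂ) : W v (j :: l) P = W v l (dv (v j) P) := rfl

theorem W_dv {n : ℕ} (v : Fin n → Option κ → ℂ) (w : Option κ → ℂ) (l : List (Fin n))
    (P : MvPolynomial (Option κ) ℂ) : W v l (dv w P) = dv w (W v l P) := by
  induction l generalizing P with
  | nil => rfl
  | cons j l ih => rw [W_cons, W_cons, dv_comm, ih]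

theorem W_append {n : ℕ} (v : Fin n → Option κ → ℂ) (l l' : List (Fin n))
    (P : MvPolynomial (Option κ) ℂ) : W v (l ++ l') P = W v l' (W v l P) := by
  induction l generalizing P with
  | nil => rfl
  | cons j l ih => rw [List.cons_append, W_cons, W_cons, ih]

theorem foldr_eq_W {n : ℕ} (v : Fin n → Option κ → ℂ) (l : List (Fin n))
    (P : MvPolynomial (Option κ) ℂ) : l.foldr (fun j R => dv (v j) R) P = W v l P := by
  induction l generalizing P with
  | nil => rfl
  | cons j l ih => rw [List.foldr_cons, ih, W_cons, W_dv]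

theorem W_perm {n : ℕ} (v : Fin n → Option κ → ℂ) {l l' : List (Fin n)} (h : l.Perm l')
    (P : MvPolynomial (Option κ) ℂ) : W v l P = W v l' P := by
  induction h generalizing P with
  | nil => rfl
  | cons j _ ih => rw [W_cons, W_cons, ih]
  | swap j k l => rw [W_cons, W_cons, W_cons, W_cons, dv_comm]
  | trans _ _ ih1 ih2 => rw [ih1, ih2]

end basic

section mono
variable {κ : Type*} [Fintype κ]

/-- monomials -/
noncomputable def mo (p : ℕ) (q : κ → ℕ) : MvPolynomial (Option κ) ℂ :=
  X none ^ p * ∏ i, X (some i) ^ q i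

/-- the frequency of a monomial along `v` -/
noncomputable def fr (q : κ → ℕ) (v : Option κ → ℂ) : ℂ := ∑ i, (q i : ℂ) * v (some i)

theorem dv_prod (q : κ → ℕ) (v : Option κ → ℂ) :
    dv v (∏ i, (X (some i) : MvPolynomial (Option κ) ℂ) ^ q i) =
      fr q v • ∏ i, (X (some i) : MvPolynomial (Option κ) ℂ) ^ q i := by
  classical
  have key : ∀ s : Finset κ, dv v (∏ i ∈ s, (X (some i) : MvPolynomial (Option κ) ℂ) ^ q i) =
      (∑ i ∈ s, (q i : ℂ) * v (some i)) •
        ∏ i ∈ s, (X (some i) : MvPolynomial (Option κ) ℂ) ^ q i := by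
    intro s
    induction s using Finset.induction_on with
    | empty => simp
    | insert i s hi ih =>
      rw [Finset.prod_insert hi, Finset.sum_insert hi, Derivation.leibniz, ih,
        Derivation.leibniz_pow, dv_X_some]
      rcases Nat.eq_zero_or_pos (q i) with h0 | h0
      · simp [h0]
      · obtain ⟨r, hr⟩ := Nat.exists_eq_add_of_le' h0
        rw [hr]
        simp only [smul_eq_mul, MvPolynomial.smul_eq_C_mul, Nat.add_sub_cancel, nsmul_eq_mul,
          map_add, map_mul, map_natCast]
        push_cast
        ring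
  exact key Finset.univ

theorem dv_mo (p : ℕ) (q : κ → ℕ) (v : Option κ → ℂ) :
    dv v (mo p q) = ((p : ℂ) * v none) • mo (p - 1) q + fr q v • mo p q := by
  rw [mo, mo, Derivation.leibniz, dv_prod, Derivation.leibniz_pow, dv_X_none]
  simp only [smul_eq_mul, MvPolynomial.smul_eq_C_mul, nsmul_eq_mul, map_mul, map_natCast]
  ring

theorem ev_mo (p : ℕ) (q : κ → ℕ) (v : Option κ → ℂ) :
    ev v (mo p q) = v none ^ p * Complex.exp (fr q v) := by
  have : ev v (mo p q) = v none ^ p * ∏ i, Complex.exp (v (some i)) ^ q i := by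
    simp [ev, mo, ex]
  rw [this, fr, Complex.exp_sum]
  congr 1
  refine Finset.prod_congr rfl fun i _ => ?_
  rw [← Complex.exp_nat_mul]

theorem e0_mo (p : ℕ) (q : κ → ℕ) : e0 κ (mo p q) = 0 ^ p := by
  have := ev_mo p q (0 : Option κ → ℂ)
  have h : fr q (0 : Option κ → ℂ) = 0 := by simp [fr]
  rw [h] at this
  simpa [ev, e0] using this

/-- Taylor coefficients of a monomial along a one parameter subgroup -/
theorem e0_iter (p k : ℕ) (q : κ → ℕ) (v : Option κ → ℂ) :
    e0 κ ((dv v)^[k] (mo p q)) = (k.descFactorial p : ℂ) * v none ^ p * fr q v ^ (k - p) := by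
  have hlin : ∀ (k : ℕ) (a b : ℂ) (P Q : MvPolynomial (Option κ) ℂ),
      (dv v)^[k] (a • P + b • Q) = a • (dv v)^[k] P + b • (dv v)^[k] Q := by
    intro k a b
    induction k with
    | zero => intro P Q; rfl
    | succ k ih =>
      intro P Q
      rw [Function.iterate_succ_apply, map_add, Derivation.map_smul, Derivation.map_smul, ih]
      rfl
  induction k generalizing p with
  | zero =>
    rw [Function.iterate_zero_apply, e0_mo]
    rcases p with _ | p <;> simp
  | succ k ih =>
    rw [Function.iterate_succ_apply, dv_mo, hlin, map_add, map_smul, map_smul, ih, ih]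
    rcases p with _ | p
    · simp [pow_succ]
      ring
    · simp only [Nat.add_sub_cancel, smul_eq_mul]
      rcases lt_trichotomy k p with h | h | h
      · rw [Nat.descFactorial_eq_zero_iff_lt.2 h, Nat.descFactorial_eq_zero_iff_lt.2 (by omega),
          Nat.descFactorial_eq_zero_iff_lt.2 (show k + 1 < p + 1 by omega)]
        simp
      · subst h
        rw [Nat.descFactorial_eq_zero_iff_lt.2 (show k < k + 1 by omega),
          Nat.succ_descFactorial_succ, Nat.sub_self, Nat.sub_self]
        push_cast
        ring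
      · obtain ⟨r, rfl⟩ := Nat.exists_eq_add_of_lt h
        rw [Nat.succ_descFactorial_succ (p + r + 1) p, Nat.descFactorial_succ (p + r + 1) p]
        have e1 : p + r + 1 - p = r + 1 := by omega
        have e2 : p + r + 1 - (p + 1) = r := by omega
        have e3 : p + r + 1 + 1 - (p + 1) = r + 1 := by omega
        rw [e1, e2, e3]
        push_cast
        ring

end mono

end Pool.Agent.Helper37.PiE
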