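import Mathlib

/-! # A Liouville inequality for integer polynomials at algebraic points -/

open MvPolynomial
open scoped Classical

namespace Pool.Agent.Helper37.PiE

/-- the sum of the absolute values of the coefficients -/
noncomputable def len {ι : Type*} (P : MvPolynomial ι ℤ) : ℝ := ∑ m ∈ P.support, |((P.coeff m : ℤ) : ℝ)|

theorem len_nonneg {ι : Type*} (P : MvPolynomial ι ℤ) : 0 ≤ len P :=
  Finset.sum_nonneg fun _ _ => abs_nonneg _

theorem one_le_len {ι : Type*} {P : MvPolynomial ι ℤ} (hP : P ≠ 0) : 1 ≤ len P := by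
  obtain ⟨m, hm⟩ := MvPolynomial.ne_zero_iff.1 hP
  have h1 : (1 : ℝ) ≤ |((P.coeff m : ℤ) : ℝ)| := by
    rw [← Int.cast_abs]
    exact_mod_cast Int.one_le_abs hm
  exact h1.trans (Finset.single_le_sum (f := fun m => |((P.coeff m : ℤ) : ℝ)|)
    (fun _ _ => abs_nonneg _) (MvPolynomial.mem_support_iff.2 hm))

theorem norm_eval_le {ι : Type*} [Fintype ι] {L : Type*} [NormedField L] [Algebra ℤ L]
    [NormedAlgebra ℝ L] (a : ι → L) {A : ℝ} (hA : 1 ≤ A) (ha : ∀ i, ‖a i‖ ≤ A)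
    (P : MvPolynomial ι ℤ) {D : ℕ} (hD : P.totalDegree ≤ D) :
    ‖aeval a P‖ ≤ len P * A ^ D := by
  rw [aeval_def, eval₂_eq', len, Finset.sum_mul]
  refine (norm_sum_le _ _).trans (Finset.sum_le_sum fun m hm => ?_)
  rw [norm_mul]
  refine mul_le_mul ?_ ?_ (norm_nonneg _) (abs_nonneg _)
  · have : (algebraMap ℤ L) (P.coeff m) = ((P.coeff m : ℤ) : L) := by simp
    rw [this]
    have h2 : ((P.coeff m : ℤ) : L) = algebraMap ℝ L ((P.coeff m : ℤ) : ℝ) := by simp
    rw [h2, norm_algebraMap']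
    exact le_rfl
  · rw [norm_prod]
    have h3 : ∑ i, m i ≤ D := by
      have := le_totalDegree hm
      rw [Finsupp.sum_fintype _ _ (by simp)] at this
      exact this.trans hD
    calc ∏ i, ‖a i ^ m i‖ ≤ ∏ i, A ^ m i := by
          refine Finset.prod_le_prod (fun _ _ => norm_nonneg _) fun i _ => ?_
          rw [norm_pow]
          exact pow_le_pow_left₀ (norm_nonneg _) (ha i) _
      _ = A ^ ∑ i, m i := by rw [Finset.prod_pow_eq_pow_sum]
      _ ≤ A ^ D := pow_le_pow_right₀ hA h3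

/-- clearing denominators in a polynomial value -/
theorem isIntegral_mul {ι : Type*} [Fintype ι] {K : Type*} [Field K] (a : ι → K) (δ : ℤ)
    (hδ : ∀ i, IsIntegral ℤ ((δ : K) * a i)) (P : MvPolynomial ι ℤ) {D : ℕ}
    (hD : P.totalDegree ≤ D) : IsIntegral ℤ ((δ : K) ^ D * aeval a P) := by
  rw [aeval_def, eval₂_eq', Finset.mul_sum]
  refine IsIntegral.sum _ fun m hm => ?_
  have h3 : ∑ i, m i ≤ D := by
    have := le_totalDegree hm
    rw [Finsupp.sum_fintype _ _ (by simp)] at this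
    exact this.trans hD
  obtain ⟨k, hk⟩ := Nat.exists_eq_add_of_le h3
  have h4 : (δ : K) ^ D * ((algebraMap ℤ K) (P.coeff m) * ∏ i, a i ^ m i) =
      ((δ : ℤ) : K) ^ k * ((P.coeff m : ℤ) : K) * ∏ i, ((δ : K) * a i) ^ m i := by
    have : ∏ i, ((δ : K) * a i) ^ m i = (δ : K) ^ (∑ i, m i) * ∏ i, a i ^ m i := by
      rw [← Finset.prod_pow_eq_pow_sum, ← Finset.prod_mul_distrib]
      exact Finset.prod_congr rfl fun i _ => mul_pow _ _ _
    rw [this, hk, pow_add]
    simp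
    ring
  rw [h4]
  refine ((IsIntegral.pow ?_ _).mul ?_).mul (IsIntegral.prod _ fun i _ => (hδ i).pow _)
  · exact isIntegral_algebraMap (R := ℤ) (A := K) (x := δ)
  · exact isIntegral_algebraMap (R := ℤ) (A := K) (x := P.coeff m)

/-- Liouville's inequality -/
theorem liouville {ι : Type*} [Fintype ι] (α : ι → ℂ) (hα : ∀ i, IsAlgebraic ℚ (α i)) :
    ∃ C : ℝ, 1 ≤ C ∧ ∀ (P : MvPolynomial ι ℤ) (D : ℕ), P.totalDegree ≤ D → aeval α P ≠ 0 →
      Real.exp (-(C * (D + Real.log (len P)))) ≤ ‖aeval α P‖ := by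
  -- the number field
  set K := IntermediateField.adjoin ℚ (Set.range α) with hK
  have hfd : FiniteDimensional ℚ K := by
    have : Finite (Set.range α) := Set.finite_range α |>.to_subtype
    exact IntermediateField.finiteDimensional_adjoin
      (by rintro _ ⟨i, rfl⟩; exact (hα i).isIntegral)
  let a : ι → K := fun i => ⟨α i, IntermediateField.subset_adjoin _ _ ⟨i, rfl⟩⟩
  have hσ : ∀ (σ : K →ₐ[ℚ] ℂ) (P : MvPolynomial ι ℤ),
      σ (aeval a P) = aeval (fun i => σ (a i)) P := fun σ P => by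
    rw [aeval_def, aeval_def, ← AlgHom.coe_toRingHom, hom_eval₂]
    congr 1
    exact RingHom.ext_int _ _
  have hval : ∀ P : MvPolynomial ι ℤ, K.val (aeval a P) = aeval α P := fun P => hσ K.val P
  -- denominators
  have h1 : ∀ i, ∃ y : ℤ, y ≠ 0 ∧ IsIntegral ℤ ((y : K) * a i) := fun i => by
    have h2 : IsAlgebraic ℚ (a i) := Algebra.IsAlgebraic.isAlgebraic _
    have h3 : IsAlgebraic ℤ (a i) := (IsFractionRing.isAlgebraic_iff ℤ ℚ K).2 h2
    obtain ⟨y, hy, hy2⟩ := h3.exists_integral_multiple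
    refine ⟨y, hy, ?_⟩
    rwa [zsmul_eq_mul] at hy2
  choose y hy0 hy using h1
  set δ : ℤ := ∏ i, y i with hδdef
  have hδ0 : δ ≠ 0 := Finset.prod_ne_zero_iff.2 fun i _ => hy0 i
  have hδ : ∀ i, IsIntegral ℤ ((δ : K) * a i) := fun i => by
    have e : (δ : K) * a i = ((∏ j ∈ Finset.univ.erase i, y j : ℤ) : K) * ((y i : K) * a i) := by
      rw [hδdef, ← Finset.mul_prod_erase _ _ (Finset.mem_univ i)]
      push_cast
      ring
    rw [e]
    exact (isIntegral_algebraMap (R := ℤ) (A := K)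
      (x := ∏ j ∈ Finset.univ.erase i, y j)).mul (hy i)
  -- sizes
  set A : ℝ := 1 + ∑ σ : K →ₐ[ℚ] ℂ, ∑ i, ‖σ (a i)‖ with hA
  have hA1 : 1 ≤ A := by
    have : 0 ≤ ∑ σ : K →ₐ[ℚ] ℂ, ∑ i, ‖σ (a i)‖ :=
      Finset.sum_nonneg fun _ _ => Finset.sum_nonneg fun _ _ => norm_nonneg _
    linarith
  have hAi : ∀ (σ : K →ₐ[ℚ] ℂ) i, ‖σ (a i)‖ ≤ A := fun σ i => by
    have e1 : ‖σ (a i)‖ ≤ ∑ i, ‖σ (a i)‖ :=
      Finset.single_le_sum (f := fun i => ‖σ (a i)‖) (fun _ _ => norm_nonneg _)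
        (Finset.mem_univ i)
    have e2 : ∑ i, ‖σ (a i)‖ ≤ ∑ σ : K →ₐ[ℚ] ℂ, ∑ i, ‖σ (a i)‖ :=
      Finset.single_le_sum (f := fun σ : K →ₐ[ℚ] ℂ => ∑ i, ‖σ (a i)‖)
        (fun _ _ => Finset.sum_nonneg fun _ _ => norm_nonneg _) (Finset.mem_univ σ)
    linarith
  set d : ℕ := Fintype.card (K →ₐ[ℚ] ℂ) with hd
  have hδ1 : (1 : ℝ) ≤ |(δ : ℝ)| := by
    rw [← Int.cast_abs]
    exact_mod_cast Int.one_le_abs hδ0
  refine ⟨(d + 1) * (1 + Real.log |(δ : ℝ)| + Real.log A), ?_, fun P D hD hP => ?_⟩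
  · have := Real.log_nonneg hδ1
    have := Real.log_nonneg hA1
    have : (0 : ℝ) ≤ d := by positivity
    nlinarith
  have hPne : P ≠ 0 := fun h => hP (by rw [h, map_zero])
  have hlen := one_le_len hPne
  set x : K := (δ : K) ^ D * aeval a P with hx
  have hxint : IsIntegral ℤ x := isIntegral_mul a δ hδ P hD
  have hx0 : x ≠ 0 := by
    refine mul_ne_zero (pow_ne_zero _ (by exact_mod_cast hδ0)) fun h => hP ?_
    rw [← hval, h, map_zero]
  set B : ℝ := |(δ : ℝ)| ^ D * (len P * A ^ D) with hB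
  have hB1 : 1 ≤ B := by
    have := one_le_pow₀ (n := D) hδ1
    have h5 := one_le_pow₀ (n := D) hA1
    exact one_le_mul_of_one_le_of_one_le this (one_le_mul_of_one_le_of_one_le hlen h5)
  have hσx : ∀ σ : K →ₐ[ℚ] ℂ, ‖σ x‖ = |(δ : ℝ)| ^ D * ‖aeval (fun i => σ (a i)) P‖ := fun σ => by
    rw [hx, map_mul, map_pow, hσ, norm_mul, norm_pow]
    congr 2
    simp
  have hσB : ∀ σ : K →ₐ[ℚ] ℂ, ‖σ x‖ ≤ B := fun σ => by
    rw [hσx]
    exact mul_le_mul_of_nonneg_left (norm_eval_le _ hA1 (hAi σ) P hD) (by positivity)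
  -- the norm
  have hn : ∃ n : ℤ, (n : ℚ) = Algebra.norm ℚ x := by
    have := Algebra.isIntegral_norm ℚ hxint
    obtain ⟨n, hn⟩ := IsIntegrallyClosed.isIntegral_iff.1 this
    exact ⟨n, by simpa using hn⟩
  obtain ⟨n, hn⟩ := hn
  have hn0 : n ≠ 0 := by
    rintro rfl
    have : Algebra.norm ℚ x ≠ 0 := Algebra.norm_ne_zero_iff.2 hx0
    exact this (by rw [← hn]; simp)
  have h1n : (1 : ℝ) ≤ ∏ σ : K →ₐ[ℚ] ℂ, ‖σ x‖ := by
    rw [← norm_prod, ← Algebra.norm_eq_prod_embeddings ℚ ℂ x, ← hn]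
    have : ‖(algebraMap ℚ ℂ) (n : ℚ)‖ = |(n : ℝ)| := by simp
    rw [this, ← Int.cast_abs]
    exact_mod_cast Int.one_le_abs hn0
  have h2n : ∏ σ : K →ₐ[ℚ] ℂ, ‖σ x‖ ≤ ‖K.val x‖ * B ^ d := by
    rw [← Finset.mul_prod_erase Finset.univ (fun σ : K →ₐ[ℚ] ℂ => ‖σ x‖)
      (Finset.mem_univ K.val)]
    refine mul_le_mul_of_nonneg_left ?_ (norm_nonneg _)
    calc ∏ σ ∈ Finset.univ.erase K.val, ‖σ x‖ ≤ ∏ σ ∈ Finset.univ.erase K.val, B :=
          Finset.prod_le_prod (fun _ _ => norm_nonneg _) fun σ _ => hσB σ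
      _ = B ^ (Finset.univ.erase K.val).card := by rw [Finset.prod_const]
      _ ≤ B ^ d := pow_le_pow_right₀ hB1 (Finset.card_le_univ _)
  have h3n : ‖K.val x‖ = |(δ : ℝ)| ^ D * ‖aeval α P‖ := hσx K.val
  rw [h3n] at h2n
  have hpos : 0 < ‖aeval α P‖ := norm_pos_iff.2 hP
  rw [← Real.le_log_iff_exp_le hpos]
  have h4 : 0 ≤ Real.log (|(δ : ℝ)| ^ D * ‖aeval α P‖ * B ^ d) :=
    Real.log_nonneg (h1n.trans h2n)
  have hδp : (0 : ℝ) < |(δ : ℝ)| := by linarith
  have hAp : 0 < A := by linarith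
  have hlp : 0 < len P := by linarith
  rw [Real.log_mul (by positivity) (by positivity), Real.log_mul (by positivity) (by positivity),
    Real.log_pow, Real.log_pow, hB, Real.log_mul (by positivity) (by positivity),
    Real.log_mul (by positivity) (by positivity), Real.log_pow, Real.log_pow] at h4
  have l1 := Real.log_nonneg hδ1
  have l2 := Real.log_nonneg hA1
  have l3 := Real.log_nonneg hlen
  have l4 : (0 : ℝ) ≤ d := by positivity
  have l5 : (0 : ℝ) ≤ D := by positivity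
  nlinarith [mul_nonneg l4 l5, mul_nonneg l4 l3, mul_nonneg l5 l1, mul_nonneg l5 l2,
    mul_nonneg l3 l1, mul_nonneg l3 l2, mul_nonneg (mul_nonneg l4 l3) l1,
    mul_nonneg (mul_nonneg l4 l3) l2, mul_nonneg (mul_nonneg l4 l5) l1,
    mul_nonneg (mul_nonneg l4 l5) l2]

/-! ## Numbers represented by integer polynomials of bounded degree and length -/

theorem len_eq_sum {ι : Type*} (P : MvPolynomial ι ℤ) {s : Finset (ι →₀ ℕ)}
    (hs : P.support ⊆ s) : len P = ∑ m ∈ s, |((P.coeff m : ℤ) : ℝ)| :=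
  Finset.sum_subset hs fun m _ hm => by rw [MvPolynomial.notMem_support_iff.1 hm]; simp

theorem len_zero {ι : Type*} : len (0 : MvPolynomial ι ℤ) = 0 := by simp [len]

theorem len_add_le {ι : Type*} (P Q : MvPolynomial ι ℤ) : len (P + Q) ≤ len P + len Q := by
  rw [len_eq_sum (P + Q) (s := P.support ∪ Q.support) MvPolynomial.support_add,
    len_eq_sum P (s := P.support ∪ Q.support) Finset.subset_union_left,
    len_eq_sum Q (s := P.support ∪ Q.support) Finset.subset_union_right,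
    ← Finset.sum_add_distrib]
  refine Finset.sum_le_sum fun m _ => ?_
  rw [MvPolynomial.coeff_add, Int.cast_add]
  exact abs_add_le _ _

theorem len_sum_le {ι κ : Type*} (s : Finset κ) (P : κ → MvPolynomial ι ℤ) :
    len (∑ k ∈ s, P k) ≤ ∑ k ∈ s, len (P k) := by
  induction s using Finset.induction_on with
  | empty => simp [len_zero]
  | insert k s hk ih =>
    rw [Finset.sum_insert hk, Finset.sum_insert hk]
    exact (len_add_le _ _).trans (by linarith)

theorem len_monomial {ι : Type*} (m : ι →₀ ℕ) (c : ℤ) : len (monomial m c) = |(c : ℝ)| := by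
  rw [len_eq_sum (monomial m c) (s := {m}) MvPolynomial.support_monomial_subset]
  simp

theorem len_mul_le {ι : Type*} (P Q : MvPolynomial ι ℤ) : len (P * Q) ≤ len P * len Q := by
  have h : P * Q = ∑ m ∈ P.support, ∑ m' ∈ Q.support,
      monomial (m + m') (P.coeff m * Q.coeff m') := by
    conv_lhs => rw [MvPolynomial.as_sum P, MvPolynomial.as_sum Q, Finset.sum_mul_sum]
    simp only [MvPolynomial.monomial_mul]
  rw [h]
  refine (len_sum_le _ _).trans ?_
  rw [len, len, Finset.sum_mul_sum]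
  refine Finset.sum_le_sum fun m _ => (len_sum_le _ _).trans (Finset.sum_le_sum fun m' _ => ?_)
  rw [len_monomial, Int.cast_mul, abs_mul]

/-- `x` is the value at `α` of an integer polynomial of total degree `≤ D` and length `≤ H` -/
def Sz {ι : Type*} (α : ι → ℂ) (x : ℂ) (D : ℕ) (H : ℝ) : Prop :=
  ∃ P : MvPolynomial ι ℤ, P.totalDegree ≤ D ∧ len P ≤ H ∧ aeval α P = x

variable {ι : Type*} {α : ι → ℂ} {x y : ℂ} {D D' : ℕ} {H H' : ℝ}

theorem Sz.mono (h : Sz α x D H) (hD : D ≤ D') (hH : H ≤ H') : Sz α x D' H' := by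
  obtain ⟨P, h1, h2, h3⟩ := h
  exact ⟨P, h1.trans hD, h2.trans hH, h3⟩

theorem Sz.add (h : Sz α x D H) (h' : Sz α y D' H') : Sz α (x + y) (max D D') (H + H') := by
  obtain ⟨P, h1, h2, h3⟩ := h
  obtain ⟨Q, k1, k2, k3⟩ := h'
  refine ⟨P + Q, ?_, (len_add_le _ _).trans (by linarith), by rw [map_add, h3, k3]⟩
  exact (MvPolynomial.totalDegree_add _ _).trans (max_le_max h1 k1)

theorem Sz.mul (h : Sz α x D H) (h' : Sz α y D' H') : Sz α (x * y) (D + D') (H * H') := by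
  obtain ⟨P, h1, h2, h3⟩ := h
  obtain ⟨Q, k1, k2, k3⟩ := h'
  refine ⟨P * Q, ?_, (len_mul_le _ _).trans ?_, by rw [map_mul, h3, k3]⟩
  · exact (MvPolynomial.totalDegree_mul _ _).trans (Nat.add_le_add h1 k1)
  · exact mul_le_mul h2 k2 (len_nonneg _) ((len_nonneg _).trans h2)

theorem Sz.int (α : ι → ℂ) (n : ℤ) : Sz α n 0 |(n : ℝ)| := by
  refine ⟨C n, (MvPolynomial.totalDegree_C n).le, ?_, by simp⟩
  have := len_monomial (0 : ι →₀ ℕ) n
  exact this.le

theorem Sz.nat (α : ι → ℂ) (n : ℕ) : Sz α n 0 n := by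
  have := Sz.int α n
  simpa using this

theorem Sz.gen (α : ι → ℂ) (i : ι) : Sz α (α i) 1 1 := by
  refine ⟨X i, by simp, ?_, by simp⟩
  have := len_monomial (Finsupp.single i 1) 1
  rw [show (X i : MvPolynomial ι ℤ) = monomial (Finsupp.single i 1) 1 from rfl, this]
  simp

theorem Sz.one (α : ι → ℂ) : Sz α 1 0 1 := by simpa using Sz.nat α 1

theorem Sz.zero (α : ι → ℂ) : Sz α 0 0 0 := by simpa using Sz.nat α 0

theorem Sz.nonneg (h : Sz α x D H) : 0 ≤ H := by
  obtain ⟨P, _, h2, _⟩ := h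
  exact (len_nonneg _).trans h2

theorem Sz.pow (h : Sz α x D H) (k : ℕ) : Sz α (x ^ k) (k * D) (H ^ k) := by
  induction k with
  | zero => simpa using Sz.one α
  | succ k ih =>
    rw [pow_succ, pow_succ, Nat.succ_mul]
    exact ih.mul h

theorem Sz.prod {κ : Type*} (s : Finset κ) {f : κ → ℂ} {d : κ → ℕ} {h : κ → ℝ}
    (hf : ∀ k ∈ s, Sz α (f k) (d k) (h k)) :
    Sz α (∏ k ∈ s, f k) (∑ k ∈ s, d k) (∏ k ∈ s, h k) := by
  induction s using Finset.induction_on with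
  | empty => simpa using Sz.one α
  | insert k s hk ih =>
    rw [Finset.prod_insert hk, Finset.sum_insert hk, Finset.prod_insert hk]
    exact (hf k (Finset.mem_insert_self _ _)).mul
      (ih fun j hj => hf j (Finset.mem_insert_of_mem hj))

theorem Sz.sum {κ : Type*} (s : Finset κ) {f : κ → ℂ} {h : κ → ℝ} {D : ℕ}
    (hf : ∀ k ∈ s, Sz α (f k) D (h k)) : Sz α (∑ k ∈ s, f k) D (∑ k ∈ s, h k) := by
  induction s using Finset.induction_on with
  | empty => simpa using (Sz.zero α).mono (Nat.zero_le D) le_rfl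
  | insert k s hk ih =>
    rw [Finset.sum_insert hk, Finset.sum_insert hk]
    have := (hf k (Finset.mem_insert_self _ _)).add
      (ih fun j hj => hf j (Finset.mem_insert_of_mem hj))
    rwa [max_self] at this

/-- Liouville's inequality for represented numbers -/
theorem liouville_sz [Fintype ι] (α : ι → ℂ) (hα : ∀ i, IsAlgebraic ℚ (α i)) :
    ∃ C : ℝ, 1 ≤ C ∧ ∀ (x : ℂ) (D : ℕ) (H : ℝ), Sz α x D H → x ≠ 0 →
      Real.exp (-(C * (D + Real.log H))) ≤ ‖x‖ := by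
  obtain ⟨C, hC, h⟩ := liouville α hα
  refine ⟨C, hC, fun x D H hx hx0 => ?_⟩
  obtain ⟨P, h1, h2, h3⟩ := hx
  have h4 := h P D h1 (by rwa [h3])
  rw [h3] at h4
  refine le_trans (Real.exp_le_exp.2 ?_) h4
  have hP : P ≠ 0 := fun e => hx0 (by rw [← h3, e, map_zero])
  have h5 := one_le_len hP
  have h6 := Real.log_le_log (by linarith) h2
  nlinarith

end Pool.Agent.Helper37.PiE
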