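import Pool.Agent.Helper37.PiE.Jet

/-! # Smallness of values from smallness of jets at the neutral element -/

open MvPolynomial

namespace Pool.Agent.Helper37.PiE

theorem exp_tail (z : ℂ) (J : ℕ) :
    ‖Complex.exp z - ∑ j ∈ Finset.range J, z ^ j / (j.factorial : ℂ)‖ ≤
      Real.exp (3 * ‖z‖ - J) := by
  set r : ℝ := ‖z‖ with hr
  have hr0 : 0 ≤ r := norm_nonneg z
  have h1 : HasSum (fun j : ℕ => z ^ j / (j.factorial : ℂ)) (Complex.exp z) := by
    have := NormedSpace.expSeries_div_hasSum_exp (𝔸 := ℂ) z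
    rwa [← Complex.exp_eq_exp_ℂ] at this
  have h2 := (hasSum_nat_add_iff' J).2 h1
  rw [← h2.tsum_eq]
  have hs : Summable fun j : ℕ => r ^ (j + J) / ((j + J).factorial : ℝ) :=
    (summable_nat_add_iff (f := fun j : ℕ => r ^ j / (j.factorial : ℝ)) J).2
      (Real.summable_pow_div_factorial r)
  have e : ∀ j : ℕ, ‖z ^ (j + J) / ((j + J).factorial : ℂ)‖ = r ^ (j + J) / ((j + J).factorial : ℝ) :=
    fun j => by rw [norm_div, norm_pow, Complex.norm_natCast]
  have h3 : ‖∑' j : ℕ, z ^ (j + J) / ((j + J).factorial : ℂ)‖ ≤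
      ∑' j : ℕ, r ^ (j + J) / ((j + J).factorial : ℝ) := by
    refine (norm_tsum_le_tsum_norm ?_).trans (le_of_eq ?_)
    · simpa only [e] using hs
    · simp only [e]
  refine h3.trans ?_
  -- compare with the exponential series at `3 r`
  have hs3 : Summable fun j : ℕ => (3 * r) ^ (j + J) / ((j + J).factorial : ℝ) :=
    (summable_nat_add_iff (f := fun j : ℕ => (3 * r) ^ j / (j.factorial : ℝ)) J).2
      (Real.summable_pow_div_factorial (3 * r))
  have h4 : ∑' j : ℕ, r ^ (j + J) / ((j + J).factorial : ℝ) ≤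
      Real.exp (-J) * ∑' j : ℕ, (3 * r) ^ (j + J) / ((j + J).factorial : ℝ) := by
    rw [← tsum_mul_left]
    refine hs.tsum_le_tsum (fun j => ?_) (hs3.mul_left _)
    rw [mul_div_assoc', mul_pow, mul_comm ((3 : ℝ) ^ (j + J)), ← mul_assoc]
    refine div_le_div_of_nonneg_right ?_ (by positivity)
    have h5 : 1 ≤ Real.exp (-J) * 3 ^ (j + J) := by
      have h6 : Real.exp J ≤ 3 ^ (j + J) := by
        have h7 : Real.exp J = (Real.exp 1) ^ J := by rw [← Real.exp_nat_mul, mul_one]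
        rw [h7]
        calc (Real.exp 1) ^ J ≤ 3 ^ J :=
              pow_le_pow_left₀ (Real.exp_pos _).le (by linarith [Real.exp_one_lt_three]) _
          _ ≤ 3 ^ (j + J) := pow_le_pow_right₀ (by norm_num) (by omega)
      rw [Real.exp_neg, inv_mul_eq_div, le_div_iff₀ (Real.exp_pos _), one_mul]
      exact h6
    nlinarith [pow_nonneg hr0 (j + J)]
  refine h4.trans ?_
  have h8 : ∑' j : ℕ, (3 * r) ^ (j + J) / ((j + J).factorial : ℝ) ≤ Real.exp (3 * r) := by
    have h9 : HasSum (fun j : ℕ => (3 * r) ^ j / (j.factorial : ℝ)) (Real.exp (3 * r)) := by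
      have := NormedSpace.expSeries_div_hasSum_exp (𝔸 := ℝ) (3 * r)
      rwa [← Real.exp_eq_exp_ℝ] at this
    have h10 := (hasSum_nat_add_iff' J).2 h9
    rw [h10.tsum_eq]
    have : 0 ≤ ∑ i ∈ Finset.range J, (3 * r) ^ i / (i.factorial : ℝ) :=
      Finset.sum_nonneg fun _ _ => by positivity
    linarith
  calc Real.exp (-J) * ∑' j : ℕ, (3 * r) ^ (j + J) / ((j + J).factorial : ℝ)
      ≤ Real.exp (-J) * Real.exp (3 * r) := mul_le_mul_of_nonneg_left h8 (Real.exp_pos _).le
    _ = Real.exp (3 * r - J) := by rw [← Real.exp_add]; ring_nf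

section
variable {κ : Type*}

theorem iter_lin (w : Option κ → ℂ) (k : ℕ) (a b : ℂ) (P Q : MvPolynomial (Option κ) ℂ) :
    (dv w)^[k] (a • P + b • Q) = a • (dv w)^[k] P + b • (dv w)^[k] Q := by
  induction k generalizing P Q with
  | zero => rfl
  | succ k ih =>
    rw [Function.iterate_succ_apply, map_add, Derivation.map_smul, Derivation.map_smul, ih]
    rfl

/-- iterated derivation as a linear map -/
noncomputable def it (w : Option κ → ℂ) (k : ℕ) :
    MvPolynomial (Option κ) ℂ →ₗ[ℂ] MvPolynomial (Option κ) ℂ where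
  toFun P := (dv w)^[k] P
  map_add' P Q := by simpa using iter_lin w k 1 1 P Q
  map_smul' a P := by simpa using iter_lin w k a 0 P 0

theorem it_apply (w : Option κ → ℂ) (k : ℕ) (P : MvPolynomial (Option κ) ℂ) :
    it w k P = (dv w)^[k] P := rfl

theorem it_succ (w : Option κ → ℂ) (k : ℕ) (P : MvPolynomial (Option κ) ℂ) :
    it w (k + 1) P = it w k (dv w P) := rfl

/-- iterated derivatives along a combination of the `v j` -/
theorem iter_small {n : ℕ} (v : Fin n → Option κ → ℂ) (c : Fin n → ℂ) {ε : ℝ} (k : ℕ)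
    (Q : MvPolynomial (Option κ) ℂ)
    (h : ∀ l : List (Fin n), l.length = k → ‖e0 κ (W v l Q)‖ ≤ ε) :
    ‖e0 κ (it (∑ j, c j • v j) k Q)‖ ≤ (∑ j, ‖c j‖) ^ k * ε := by
  induction k generalizing Q with
  | zero =>
    have := h [] rfl
    simpa [it_apply, W_nil] using this
  | succ k ih =>
    rw [it_succ, dv_sum, map_sum, map_sum, pow_succ, mul_comm _ (∑ j, ‖c j‖), mul_assoc,
      Finset.sum_mul]
    refine (norm_sum_le _ _).trans (Finset.sum_le_sum fun j _ => ?_)
    rw [map_smul, map_smul, norm_smul]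
    refine mul_le_mul_of_nonneg_left (ih _ fun l hl => ?_) (norm_nonneg _)
    exact h (j :: l) (by simp [hl])

end

section
variable {κ : Type*} [Fintype κ]

/-- the error of the Taylor polynomial -/
noncomputable def tl (w : Option κ → ℂ) (K : ℕ) : MvPolynomial (Option κ) ℂ →ₗ[ℂ] ℂ :=
  ev w - ∑ k ∈ Finset.range K, ((k.factorial : ℂ)⁻¹) • (e0 κ ∘ₗ it w k)

theorem tl_apply (w : Option κ → ℂ) (K : ℕ) (P : MvPolynomial (Option κ) ℂ) :
    tl w K P = ev w P - ∑ k ∈ Finset.range K, ((k.factorial : ℂ)⁻¹) * e0 κ (it w k P) := by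
  simp [tl, LinearMap.sum_apply]

theorem tl_mo (w : Option κ → ℂ) (K p : ℕ) (q : κ → ℕ) :
    tl w K (mo p q) = w none ^ p * (Complex.exp (fr q w) -
      ∑ j ∈ Finset.range (K - p), fr q w ^ j / (j.factorial : ℂ)) := by
  rw [tl_apply, ev_mo, mul_sub, Finset.mul_sum]
  congr 1
  simp only [it_apply, e0_iter]
  have h0 : ∀ k, ¬ p ≤ k → ((k.factorial : ℂ)⁻¹) *
      ((k.descFactorial p : ℂ) * w none ^ p * fr q w ^ (k - p)) = 0 := fun k hk => by
    rw [Nat.descFactorial_eq_zero_iff_lt.2 (not_le.1 hk)]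
    simp
  rw [← Finset.sum_filter_of_ne (p := fun k => p ≤ k)
    (fun k _ hk => by by_contra h; exact hk (h0 k h))]
  have hset : (Finset.range K).filter (fun k => p ≤ k) =
      (Finset.range (K - p)).map (addRightEmbedding p) := by
    ext k
    simp only [Finset.mem_filter, Finset.mem_range, Finset.mem_map, addRightEmbedding_apply]
    constructor
    · rintro ⟨h1, h2⟩
      exact ⟨k - p, by omega, by omega⟩
    · rintro ⟨j, hj, rfl⟩
      omega
  rw [hset, Finset.sum_map]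
  refine Finset.sum_congr rfl fun j _ => ?_
  simp only [addRightEmbedding_apply, Nat.add_sub_cancel]
  have hf : (((j + p).factorial : ℕ) : ℂ) = (j.factorial : ℂ) * ((j + p).descFactorial p : ℂ) := by
    have := Nat.factorial_mul_descFactorial (show p ≤ j + p by omega)
    rw [Nat.add_sub_cancel] at this
    rw [← this]
    push_cast
    ring
  have hd : ((j + p).descFactorial p : ℂ) ≠ 0 := by
    have : (j + p).descFactorial p ≠ 0 := by
      rw [Ne, Nat.descFactorial_eq_zero_iff_lt]; omega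
    exact_mod_cast this
  have hj : (j.factorial : ℂ) ≠ 0 := by exact_mod_cast j.factorial_ne_zero
  rw [hf]
  field_simp

theorem norm_fr_le {w : Option κ → ℂ} {R : ℝ} (hR : ∀ o, ‖w o‖ ≤ R) {q : κ → ℕ} {D : ℕ}
    (hq : ∀ i, q i ≤ D) : ‖fr q w‖ ≤ Fintype.card κ * D * R := by
  by_cases hκ : Nonempty κ
  swap
  · rw [not_nonempty_iff] at hκ
    simp [fr]
  have hR0 : 0 ≤ R := (norm_nonneg _).trans (hR none)
  calc ‖fr q w‖ ≤ ∑ i : κ, ‖(q i : ℂ) * w (some i)‖ := norm_sum_le _ _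
    _ ≤ ∑ _i : κ, (D : ℝ) * R := by
        refine Finset.sum_le_sum fun i _ => ?_
        rw [norm_mul, Complex.norm_natCast]
        exact mul_le_mul (by exact_mod_cast hq i) (hR _) (norm_nonneg _) (Nat.cast_nonneg _)
    _ = Fintype.card κ * D * R := by
        rw [Finset.sum_const, Finset.card_univ, nsmul_eq_mul]
        ring

theorem norm_tl_mo_le {w : Option κ → ℂ} {R : ℝ} (hR1 : 1 ≤ R) (hR : ∀ o, ‖w o‖ ≤ R) (K : ℕ)
    {p D₀ D : ℕ} (hp : p ≤ D₀) {q : κ → ℕ} (hq : ∀ i, q i ≤ D) :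
    ‖tl w K (mo p q)‖ ≤ R ^ D₀ * Real.exp (3 * (Fintype.card κ * D * R) - (K - D₀)) := by
  rw [tl_mo, norm_mul, norm_pow]
  refine mul_le_mul ?_ ?_ (norm_nonneg _) (by positivity)
  · exact (pow_le_pow_left₀ (norm_nonneg _) (hR _) _).trans (pow_le_pow_right₀ hR1 hp)
  · refine (exp_tail _ _).trans (Real.exp_le_exp.2 ?_)
    have h1 := norm_fr_le hR hq
    have h2 : ((K : ℝ) - D₀) ≤ ((K - p : ℕ) : ℝ) := by
      have h3 : (K : ℝ) ≤ ((K - p : ℕ) : ℝ) + p := by
        have : K ≤ K - p + p := by omega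
        exact_mod_cast this
      have h4 : (p : ℝ) ≤ D₀ := by exact_mod_cast hp
      linarith
    linarith

/-- bound for a functional on derivatives of monomials -/
theorem norm_phi_W_le {n : ℕ} (v : Fin n → Option κ → ℂ) {V : ℝ} (hV : ∀ j o, ‖v j o‖ ≤ V)
    (Φ : MvPolynomial (Option κ) ℂ →ₗ[ℂ] ℂ) {D₀ D : ℕ} {τ : ℝ}
    (hΦ : ∀ p q, p ≤ D₀ → (∀ i, q i ≤ D) → ‖Φ (mo p q)‖ ≤ τ) (l : List (Fin n)) :
    ∀ (p : ℕ) (q : κ → ℕ), p ≤ D₀ → (∀ i, q i ≤ D) →
      ‖Φ (W v l (mo p q))‖ ≤ (V * (D₀ + Fintype.card κ * D)) ^ l.length * τ := by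
  induction l with
  | nil =>
    intro p q hp hq
    simpa [W_nil] using hΦ p q hp hq
  | cons j l ih =>
    intro p q hp hq
    have hV0 : 0 ≤ V := (norm_nonneg _).trans (hV j none)
    have hτ : 0 ≤ τ := (norm_nonneg _).trans (hΦ p q hp hq)
    rw [W_cons, dv_mo, map_add, map_smul, map_smul, map_add, map_smul, map_smul]
    refine (norm_add_le _ _).trans ?_
    rw [norm_smul, norm_smul, List.length_cons, pow_succ]
    have h1 := ih (p - 1) q (by omega) hq
    have h2 := ih p q hp hq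
    have h3 : ‖(p : ℂ) * v j none‖ ≤ D₀ * V := by
      rw [norm_mul, Complex.norm_natCast]
      exact mul_le_mul (by exact_mod_cast hp) (hV _ _) (norm_nonneg _) (Nat.cast_nonneg _)
    have h4 := norm_fr_le (hV j) hq
    have h5 : 0 ≤ (V * (D₀ + Fintype.card κ * D)) ^ l.length * τ := by positivity
    calc ‖(p : ℂ) * v j none‖ * ‖Φ (W v l (mo (p - 1) q))‖ + ‖fr q (v j)‖ * ‖Φ (W v l (mo p q))‖
        ≤ (D₀ * V) * ((V * (D₀ + Fintype.card κ * D)) ^ l.length * τ) +
          (Fintype.card κ * D * V) * ((V * (D₀ + Fintype.card κ * D)) ^ l.length * τ) := by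
          refine add_le_add (mul_le_mul h3 h1 (norm_nonneg _) (by positivity))
            (mul_le_mul h4 h2 (norm_nonneg _) (by positivity))
      _ = (V * (D₀ + Fintype.card κ * D)) ^ l.length * (V * (D₀ + Fintype.card κ * D)) * τ := by
          ring

/-- **Small jets at the neutral element give small values at `exp w`.** -/
theorem small_value {n : ℕ} (v : Fin n → Option κ → ℂ) {V : ℝ} (hV : ∀ j o, ‖v j o‖ ≤ V)
    {D₀ D : ℕ} {ι : Type*} [Fintype ι] (pp : ι → ℕ) (qq : ι → κ → ℕ) (hp : ∀ x, pp x ≤ D₀)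
    (hq : ∀ x i, qq x i ≤ D) (c : ι → ℂ) {X : ℝ} (hc : ∀ x, ‖c x‖ ≤ X) {K K' : ℕ} (hK : 0 < K') {ε : ℝ}
    (hε : ∀ l : List (Fin n), l.length < K' → ‖e0 κ (W v l (∑ x, c x • mo (pp x) (qq x)))‖ ≤ ε)
    (a : Fin n → ℂ) {R : ℝ} (hR1 : 1 ≤ R) (hR : ∀ o, ‖(∑ j, a j • v j) o‖ ≤ R)
    (s : List (Fin n)) (hs : K + s.length ≤ K') :
    ‖ev (∑ j, a j • v j) (W v s (∑ x, c x • mo (pp x) (qq x)))‖ ≤
      Real.exp (∑ j, ‖a j‖) * ε + Fintype.card ι * X *
        ((V * (D₀ + Fintype.card κ * D)) ^ s.length *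
          (R ^ D₀ * Real.exp (3 * (Fintype.card κ * D * R) - (K - D₀)))) := by
  set w := ∑ j, a j • v j with hw
  set P := ∑ x, c x • mo (pp x) (qq x) with hP
  have h1 : ev w (W v s P) = tl w K (W v s P) +
      ∑ k ∈ Finset.range K, ((k.factorial : ℂ)⁻¹) * e0 κ (it w k (W v s P)) := by
    rw [tl_apply]; ring
  rw [h1, add_comm]
  refine (norm_add_le _ _).trans (add_le_add ?_ ?_)
  · refine (norm_sum_le _ _).trans ?_
    · have hε0 : 0 ≤ ε := (norm_nonneg _).trans (hε [] (by simpa using hK))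
      calc ∑ k ∈ Finset.range K, ‖((k.factorial : ℂ)⁻¹) * e0 κ (it w k (W v s P))‖
          ≤ ∑ k ∈ Finset.range K, (∑ j, ‖a j‖) ^ k / (k.factorial : ℝ) * ε := by
            refine Finset.sum_le_sum fun k hk => ?_
            rw [norm_mul, norm_inv, Complex.norm_natCast, div_mul_eq_mul_div, inv_mul_eq_div]
            refine div_le_div_of_nonneg_right ?_ (by positivity)
            refine iter_small v a k _ fun l hl => ?_
            rw [← W_append]
            exact hε _ (by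
              have := Finset.mem_range.1 hk
              rw [List.length_append]; omega)
        _ = (∑ k ∈ Finset.range K, (∑ j, ‖a j‖) ^ k / (k.factorial : ℝ)) * ε := by
            rw [Finset.sum_mul]
        _ ≤ Real.exp (∑ j, ‖a j‖) * ε :=
            mul_le_mul_of_nonneg_right (Real.sum_le_exp_of_nonneg
              (Finset.sum_nonneg fun _ _ => norm_nonneg _) _) hε0
  · rw [hP, map_sum, map_sum]
    refine (norm_sum_le _ _).trans ?_
    set τ := R ^ D₀ * Real.exp (3 * (Fintype.card κ * D * R) - (K - D₀)) with hτ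
    have : ∀ x ∈ Finset.univ, ‖tl w K (W v s (c x • mo (pp x) (qq x)))‖ ≤
        X * ((V * (D₀ + Fintype.card κ * D)) ^ s.length * τ) := fun x _ => by
      rw [map_smul, map_smul, norm_smul]
      refine mul_le_mul (hc x) ?_ (norm_nonneg _) ((norm_nonneg _).trans (hc x))
      exact norm_phi_W_le v hV _ (fun p q hp hq => norm_tl_mo_le hR1 hR K hp hq) s _ _ (hp x) (hq x)
    refine (Finset.sum_le_card_nsmul _ _ _ this).trans (le_of_eq ?_)
    rw [Finset.card_univ, nsmul_eq_mul, mul_assoc]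

end

end Pool.Agent.Helper37.PiE
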