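import Pool.Agent.Helper17.Trs.Defs

/-! # Separable relations; counting lemmas -/

open MvPolynomial Trs
open scoped Classical

namespace Pool.Agent.Helper37.PiE

theorem pderiv_degreeOf {n : ℕ} (j : Fin n) (U : Rg n) :
    (pderiv j U).degreeOf j ≤ U.degreeOf j - 1 := by
  rw [MvPolynomial.degreeOf_le_iff]
  intro m hm
  rw [MvPolynomial.mem_support_iff, MvPolynomial.coeff_pderiv] at hm
  have h1 : m + Finsupp.single j 1 ∈ U.support := by
    rw [MvPolynomial.mem_support_iff]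
    exact left_ne_zero_of_mul hm
  have h2 := MvPolynomial.monomial_le_degreeOf j h1
  rw [Finsupp.add_apply, Finsupp.single_eq_same] at h2
  omega

theorem degreeOf_eq_zero_of_pderiv {n : ℕ} (j : Fin n) (U : Rg n) (h : pderiv j U = 0) :
    U.degreeOf j = 0 := by
  have : U.degreeOf j ≤ 0 := by
    rw [MvPolynomial.degreeOf_le_iff]
    intro m hm
    by_contra hne
    have h1 : m - Finsupp.single j 1 + Finsupp.single j 1 = m := by
      refine tsub_add_cancel_of_le ?_
      rw [Finsupp.single_le_iff]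
      omega
    have h2 : coeff (m - Finsupp.single j 1) (pderiv j U) = 0 := by rw [h, coeff_zero]
    rw [MvPolynomial.coeff_pderiv, h1] at h2
    have h3 : (((m - Finsupp.single j 1 : Fin n →₀ ℕ) j : ℂ) + 1) ≠ 0 :=
      Nat.cast_add_one_ne_zero _
    have h4 : coeff m U = 0 := (mul_eq_zero.1 h2).resolve_right h3
    exact (MvPolynomial.mem_support_iff.1 hm) h4
  omega

theorem vars_pderiv_subset {n : ℕ} (j : Fin n) (U : Rg n) : (pderiv j U).vars ⊆ U.vars := by
  intro i hi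
  rw [MvPolynomial.mem_vars_iff_mem_support] at hi ⊢
  obtain ⟨m, hm, him⟩ := hi
  rw [MvPolynomial.mem_support_iff, MvPolynomial.coeff_pderiv] at hm
  refine ⟨m + Finsupp.single j 1, ?_, ?_⟩
  · rw [MvPolynomial.mem_support_iff]
    exact left_ne_zero_of_mul hm
  · rw [Finsupp.mem_support_iff] at him ⊢
    rw [Finsupp.add_apply]
    omega

theorem degreeOf_eq_zero_iff_vars {n : ℕ} (j : Fin n) (U : Rg n) :
    U.degreeOf j = 0 ↔ j ∉ U.vars := by
  rw [MvPolynomial.mem_vars_iff_mem_support, ← Nat.le_zero, MvPolynomial.degreeOf_le_iff]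
  push Not
  simp only [Finsupp.mem_support_iff, not_not, Nat.le_zero]

theorem exists_sep {n : ℕ} (p : Ideal (Rg n)) {I : Finset (Fin n)}
    (hInd : Ind p I) {j : Fin n}
    (hAlg : ∃ U : Rg n, U ≠ 0 ∧ U.vars ⊆ insert j I ∧ U ∈ p) :
    ∃ u ∈ p, (∀ l, l ∉ I → l ≠ j → pderiv l u ∈ p) ∧ pderiv j u ∉ p := by
  have hex : ∃ N, ∃ U : Rg n, U ≠ 0 ∧ U.vars ⊆ insert j I ∧ U ∈ p ∧ U.degreeOf j = N := by
    obtain ⟨U, h1, h2, h3⟩ := hAlg
    exact ⟨_, U, h1, h2, h3, rfl⟩
  obtain ⟨U, hU0, hUv, hUp, hUN⟩ := Nat.find_spec hex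
  have hmin := fun m (hm : m < Nat.find hex) => Nat.find_min hex hm
  have hdeg : U.degreeOf j ≠ 0 := by
    intro h
    rw [degreeOf_eq_zero_iff_vars] at h
    apply hU0
    refine hInd U (fun i hi => ?_) hUp
    rcases Finset.mem_insert.1 (hUv hi) with rfl | h'
    · exact absurd hi h
    · exact h'
  refine ⟨U, hUp, fun l hl hlj => ?_, fun hc => ?_⟩
  · have : pderiv l U = 0 := by
      refine MvPolynomial.pderiv_eq_zero_of_notMem_vars fun h => ?_
      rcases Finset.mem_insert.1 (hUv h) with h' | h'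
      · exact hlj h'
      · exact hl h'
    rw [this]
    exact zero_mem _
  · have h1 := pderiv_degreeOf j U
    refine hmin ((pderiv j U).degreeOf j) (by omega) ⟨pderiv j U, fun h => ?_, ?_, hc, rfl⟩
    · exact hdeg (degreeOf_eq_zero_of_pderiv j U h)
    · exact (vars_pderiv_subset j U).trans hUv

/-- the limit argument -/
theorem limit_bound {J : Type*} [Fintype J] (d : J → ℕ) (a b c0 : ℕ)
    (h : ∀ M : ℕ, a * (M + 1) ^ Fintype.card J ≤ b * ∏ j, ((c0 + M) * d j + 1)) :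
    a ≤ b * ∏ j, d j := by
  have h1 : ∀ M : ℕ, (a : ℝ) ≤ b * ∏ j : J, ((((c0 : ℝ) + M) * d j + 1) / (M + 1)) := fun M => by
    have h2 : ((a * (M + 1) ^ Fintype.card J : ℕ) : ℝ) ≤
        ((b * ∏ j, ((c0 + M) * d j + 1) : ℕ) : ℝ) := by exact_mod_cast h M
    push_cast at h2
    have h3 : (0 : ℝ) < ((M : ℝ) + 1) ^ Fintype.card J := by positivity
    rw [Finset.prod_div_distrib, Finset.prod_const, Finset.card_univ, mul_div_assoc',
      le_div_iff₀ h3]
    exact h2
  have h4 : Filter.Tendsto (fun M : ℕ => (b : ℝ) * ∏ j : J, ((((c0 : ℝ) + M) * d j + 1) / (M + 1)))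
      Filter.atTop (nhds (b * ∏ j : J, (d j : ℝ))) := by
    refine Filter.Tendsto.const_mul _ (tendsto_finsetProd _ fun j _ => ?_)
    have e : ∀ M : ℕ, ((((c0 : ℝ) + M) * d j + 1) / (M + 1)) =
        d j + ((c0 : ℝ) * d j + 1 - d j) * (1 / ((M : ℝ) + 1)) := fun M => by
      have : ((M : ℝ) + 1) ≠ 0 := by positivity
      field_simp
      ring
    simp only [e]
    have h5 := (tendsto_one_div_add_atTop_nhds_zero_nat (𝕜 := ℝ)).const_mul
      ((c0 : ℝ) * d j + 1 - d j)
    rw [mul_zero] at h5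
    simpa using h5.const_add (d j : ℝ)
  have h6 := ge_of_tendsto' h4 h1
  exact_mod_cast h6

end Pool.Agent.Helper37.PiE
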