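import Pool.Agent.Helper37.PiE.ZLower
import Pool.Agent.Helper37.PiE.ZSep

/-! # Exponents of small weight -/

open scoped Classical

set_option linter.unusedSectionVars false

namespace Pool.Agent.Helper37.PiE

section
variable {r s : ℕ}

/-- the index set of exponents -/
abbrev Xi (r s T M : ℕ) : Type :=
  (Fin r → Fin T) ×
    {β : Option (Fin r ⊕ Fin s) →₀ ℕ //
      β ∈ Finset.finsuppAntidiag (Finset.univ : Finset (Option (Fin r ⊕ Fin s))) M}

theorem card_Xi (r s T M : ℕ) :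
    Fintype.card (Xi r s T M) = T ^ r * (M + (r + s)).choose (r + s) := by
  rw [Fintype.card_prod, Fintype.card_fun, Fintype.card_fin, Fintype.card_fin, Fintype.card_coe,
    Finset.card_finsuppAntidiag_nat_eq_choose]
  congr 1
  rw [Finset.card_univ, Fintype.card_option, Fintype.card_sum, Fintype.card_fin, Fintype.card_fin]
  have : r + s + 1 + M - 1 = M + (r + s) := by omega
  rw [this, ← Nat.choose_symm (show M ≤ M + (r + s) by omega)]
  congr 1
  omega

theorem card_Xi_le (r s T M : ℕ) :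
    T ^ r * (M + 1) ^ (r + s) ≤ (r + s).factorial * Fintype.card (Xi r s T M) := by
  rw [card_Xi]
  have h := Nat.pow_sub_le_descFactorial (M + (r + s)) (r + s)
  rw [Nat.descFactorial_eq_factorial_mul_choose] at h
  have e : M + (r + s) + 1 - (r + s) = M + 1 := by omega
  rw [e] at h
  calc T ^ r * (M + 1) ^ (r + s) ≤ T ^ r * ((r + s).factorial * (M + (r + s)).choose (r + s)) :=
        Nat.mul_le_mul_left _ h
    _ = _ := by ring

/-- the exponents -/
noncomputable def xi {T M : ℕ} (x : Xi r s T M) : Fin r ⊕ Fin s →₀ ℕ :=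
  Finsupp.equivFunOnFinite.symm (Sum.elim
    (fun i => T * (x.2 : Option (Fin r ⊕ Fin s) →₀ ℕ) (some (Sum.inl i)) + (x.1 i : ℕ))
    (fun k => (x.2 : Option (Fin r ⊕ Fin s) →₀ ℕ) (some (Sum.inr k))))

theorem xi_inl {T M : ℕ} (x : Xi r s T M) (i : Fin r) : xi x (Sum.inl i) =
    T * (x.2 : Option (Fin r ⊕ Fin s) →₀ ℕ) (some (Sum.inl i)) + (x.1 i : ℕ) := rfl

theorem xi_inr {T M : ℕ} (x : Xi r s T M) (k : Fin s) : xi x (Sum.inr k) =
    (x.2 : Option (Fin r ⊕ Fin s) →₀ ℕ) (some (Sum.inr k)) := rfl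

/-- the weights -/
def wt (r s T : ℕ) : Fin r ⊕ Fin s → ℕ := Sum.elim (fun _ => 1) (fun _ => T)

theorem sum_of_mem {M : ℕ} {β : Option (Fin r ⊕ Fin s) →₀ ℕ}
    (h : β ∈ Finset.finsuppAntidiag (Finset.univ : Finset (Option (Fin r ⊕ Fin s))) M) :
    β none + (∑ i, β (some (Sum.inl i)) + ∑ k, β (some (Sum.inr k))) = M := by
  have h1 := (Finset.mem_finsuppAntidiag.1 h).1
  rw [← h1, Fintype.sum_option, Fintype.sum_sum_type]

theorem xi_injective {T M : ℕ} : Function.Injective (xi (r := r) (s := s) (T := T) (M := M)) := by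
  intro x y h
  have hT : ∀ i : Fin r, 0 < T := fun i => lt_of_le_of_lt (Nat.zero_le _) (x.1 i).2
  have h1 : ∀ i, (x.2 : Option (Fin r ⊕ Fin s) →₀ ℕ) (some (Sum.inl i)) =
      (y.2 : Option (Fin r ⊕ Fin s) →₀ ℕ) (some (Sum.inl i)) ∧ x.1 i = y.1 i := fun i => by
    have := congrArg (fun f => f (Sum.inl i)) h
    simp only [xi_inl] at this
    have hx := (x.1 i).2
    have hy := (y.1 i).2
    have e1 := congrArg (fun m => m / T) this
    beta_reduce at e1
    rw [Nat.mul_add_div (hT i), Nat.mul_add_div (hT i), Nat.div_eq_of_lt hx, Nat.div_eq_of_lt hy,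
      add_zero, add_zero] at e1
    refine ⟨e1, Fin.ext ?_⟩
    rw [e1] at this
    omega
  have h2 : ∀ k, (x.2 : Option (Fin r ⊕ Fin s) →₀ ℕ) (some (Sum.inr k)) =
      (y.2 : Option (Fin r ⊕ Fin s) →₀ ℕ) (some (Sum.inr k)) := fun k => by
    have := congrArg (fun f => f (Sum.inr k)) h
    simpa only [xi_inr] using this
  refine Prod.ext (funext fun i => (h1 i).2) (Subtype.ext (Finsupp.ext fun o => ?_))
  have e1 := sum_of_mem x.2.2
  have e2 := sum_of_mem y.2.2
  have e3 : ∑ i, (x.2 : Option (Fin r ⊕ Fin s) →₀ ℕ) (some (Sum.inl i)) =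
      ∑ i, (y.2 : Option (Fin r ⊕ Fin s) →₀ ℕ) (some (Sum.inl i)) :=
    Finset.sum_congr rfl fun i _ => (h1 i).1
  have e4 : ∑ k, (x.2 : Option (Fin r ⊕ Fin s) →₀ ℕ) (some (Sum.inr k)) =
      ∑ k, (y.2 : Option (Fin r ⊕ Fin s) →₀ ℕ) (some (Sum.inr k)) :=
    Finset.sum_congr rfl fun k _ => h2 k
  rcases o with _ | i | k
  · omega
  · exact (h1 i).1
  · exact h2 k

theorem xi_weight {T M : ℕ} (hT : 1 ≤ T) (x : Xi r s T M) :
    Finsupp.weight (wt r s T) (xi x) < (M + r + 1) * T := by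
  have h1 : Finsupp.weight (wt r s T) (xi x) = ∑ i, xi x (Sum.inl i) * 1 +
      ∑ k, xi x (Sum.inr k) * T := by
    rw [Finsupp.weight_apply, Finsupp.sum_fintype _ _ (by simp), Fintype.sum_sum_type]
    rfl
  have e1 := sum_of_mem x.2.2
  have h2 : ∑ i, xi x (Sum.inl i) * 1 ≤
      T * ∑ i, (x.2 : Option (Fin r ⊕ Fin s) →₀ ℕ) (some (Sum.inl i)) + r * T := by
    have : ∀ i ∈ Finset.univ, xi x (Sum.inl i) * 1 ≤
        T * (x.2 : Option (Fin r ⊕ Fin s) →₀ ℕ) (some (Sum.inl i)) + T := fun i _ => by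
      rw [mul_one, xi_inl]
      have := (x.1 i).2
      omega
    refine (Finset.sum_le_sum this).trans ?_
    rw [Finset.sum_add_distrib, ← Finset.mul_sum]
    simp
  have h3 : ∑ k, xi x (Sum.inr k) * T =
      (∑ k, (x.2 : Option (Fin r ⊕ Fin s) →₀ ℕ) (some (Sum.inr k))) * T := by
    rw [Finset.sum_mul]
    rfl
  rw [h1, h3]
  nlinarith

end

section
variable {A F K : Type*} [CommRing A] [Field F] [Algebra F A] {ν : Type*} [Fintype ν]
  {ι : Type*} [Fintype ι] {L : ι → Type*} [∀ s, Field (L s)]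

theorem lower_family {w : ν → ℕ} {T k : ℕ} (Ψ : ∀ s : ι, A →+* MvPowerSeries ν (L s))
    {I : Ideal A}
    (hI : ∀ s, ∀ f ∈ I, (T : ℕ∞) ≤ (Ψ s f).weightedOrder w)
    (u : ι → ν → A) (lam : ∀ s, ν → L s) (hlam : ∀ s j, lam s j ≠ 0)
    (hu : ∀ s j, Lead (Ψ s (u s j)) (Finsupp.single j 1) (lam s j))
    (ε : ι → A) (hε : ∀ s, IsUnit (Ψ s (ε s)))
    (hε' : ∀ s s', s' ≠ s → ((k * T : ℕ) : ℕ∞) ≤ (Ψ s' (ε s)).weightedOrder w)
    {X : Type*} [Fintype X] (a : X → ν →₀ ℕ) (ha : Function.Injective a)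
    (haw : ∀ x, Finsupp.weight w (a x) < k * T) (c : ι × X → F)
    (hc : ∑ y, c y • (ε y.1 * ∏ j, u y.1 j ^ a y.2 j) ∈ I ^ k) : ∀ y, c y = 0 := by
  by_cases hX : Nonempty X
  swap
  · intro y
    exact absurd ⟨y.2⟩ hX
  have h := lower Ψ hI u lam hlam hu ε hε hε' (Finset.univ.image a) (by
    intro α hα
    obtain ⟨x, -, rfl⟩ := Finset.mem_image.1 hα
    exact haw x) (fun s α => c (s, Function.invFun a α)) (by
    convert hc using 1
    rw [Fintype.sum_prod_type]
    refine Finset.sum_congr rfl fun s _ => ?_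
    rw [Finset.sum_image ha.injOn]
    refine Finset.sum_congr rfl fun x _ => ?_
    rw [Function.leftInverse_invFun ha x])
  intro y
  have := h y.1 (a y.2) (Finset.mem_image_of_mem a (Finset.mem_univ _))
  rwa [Function.leftInverse_invFun ha y.2] at this

end

end Pool.Agent.Helper37.PiE
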