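import Pool.Agent.Helper37.PiE.ZPsi

/-! # Frames of derivations at a prime ideal -/

open MvPolynomial Trs
open scoped Classical

set_option linter.unusedSectionVars false

namespace Pool.Agent.Helper37.PiE

section
variable {n r s : ℕ} (tor : Fin n → Bool) (p : Ideal (Rg n)) {K : Type*} [Field K]

/-- from a linearly independent family of functionals to dual elements -/
theorem dual_elements {X : Type*} [Fintype X] (e : Rg n →+* K) (hker : ∀ f, e f = 0 ↔ f ∈ p)
    (hfrac : ∀ a : K, ∃ g h, e h ≠ 0 ∧ a = e g / e h) (v : X → p → K)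
    (hv0 : ∀ x (f : Rg n) (u : p), v x (f • u) = e f * v x u)
    (hv1 : ∀ x (u u' : p), v x (u + u') = v x u + v x u')
    (hv : LinearIndependent K v) (z : X → K) :
    ∃ h : Rg n, h ∉ p ∧ ∃ u : p, ∀ x, v x u = e h * z x := by
  let col : p → (X → K) := fun u x => v x u
  have htop : Submodule.span K (Set.range col) = ⊤ := by
    by_contra hne
    obtain ⟨f, hf0, hf⟩ := Submodule.exists_dual_map_eq_bot_of_lt_top (lt_top_iff_ne_top.2 hne)
      inferInstance
    apply hf0
    have h1 : ∀ z : X → K, f z = ∑ x, f (Pi.single x 1) * z x := fun z => by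
      have : z = ∑ x, z x • (Pi.single x 1 : X → K) := by
        funext y
        rw [Finset.sum_apply, Finset.sum_eq_single y]
        · simp
        · intro b _ hb
          simp [Pi.single_eq_of_ne hb.symm]
        · intro h; exact absurd (Finset.mem_univ y) h
      conv_lhs => rw [this]
      rw [map_sum]
      exact Finset.sum_congr rfl fun x _ => by rw [map_smul, smul_eq_mul, mul_comm]
    have h2 : ∀ u : p, f (col u) = 0 := fun u => by
      have : f (col u) ∈ (Submodule.span K (Set.range col)).map f :=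
        ⟨col u, Submodule.subset_span ⟨u, rfl⟩, rfl⟩
      rw [hf] at this
      exact this
    have h3 : ∑ x, f (Pi.single x 1) • v x = 0 := by
      funext u
      rw [Finset.sum_apply]
      have := h2 u
      rw [h1] at this
      simpa [col] using this
    have h4 := Fintype.linearIndependent_iff.1 hv _ h3
    refine LinearMap.ext fun z => ?_
    rw [h1 z]
    simp [h4]
  have hz : z ∈ Submodule.span K (Set.range col) := by rw [htop]; trivial
  refine Submodule.span_induction (p := fun z _ => ∃ h : Rg n, h ∉ p ∧ ∃ u : p,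
    ∀ x, v x u = e h * z x) ?_ ?_ ?_ ?_ hz
  · rintro _ ⟨u, rfl⟩
    refine ⟨1, fun h => ?_, u, fun x => by rw [map_one, one_mul]⟩
    have := (hker 1).2 h
    rw [map_one] at this
    exact one_ne_zero this
  · refine ⟨1, fun h => ?_, 0, fun x => ?_⟩
    · have := (hker 1).2 h
      rw [map_one] at this
      exact one_ne_zero this
    · have := hv0 x 0 0
      rw [smul_zero, map_zero, zero_mul] at this
      rw [this]
      simp
  · rintro z z' _ _ ⟨h, hh, u, hu⟩ ⟨h', hh', u', hu'⟩
    refine ⟨h * h', fun hc => ?_, h' • u + h • u', fun x => ?_⟩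
    · have := (hker _).2 hc
      rw [map_mul, mul_eq_zero] at this
      rcases this with h0 | h0
      · exact hh ((hker _).1 h0)
      · exact hh' ((hker _).1 h0)
    · rw [hv1, hv0, hv0, hu, hu', map_mul, Pi.add_apply]
      ring
  · rintro a z _ ⟨h, hh, u, hu⟩
    obtain ⟨g, g', hg', rfl⟩ := hfrac a
    refine ⟨g' * h, fun hc => ?_, g • u, fun x => ?_⟩
    · have := (hker _).2 hc
      rw [map_mul, mul_eq_zero] at this
      rcases this with h0 | h0
      · exact hg' h0
      · exact hh ((hker _).1 h0)
    · rw [hv0, hu, map_mul, Pi.smul_apply, smul_eq_mul]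
      field_simp

theorem dr_zero (f : Rg n) : dr tor 0 f = 0 := by
  have h : dr tor (0 : Fin n → ℂ) = 0 := by
    apply MvPolynomial.derivation_ext
    intro i
    rw [dr_X]
    simp
  rw [h]
  rfl

/-- the frame lemma -/
theorem exists_frame (e : Rg n →+* K) (hker : ∀ f, e f = 0 ↔ f ∈ p)
    (hfrac : ∀ a : K, ∃ g h, e h ≠ 0 ∧ a = e g / e h)
    (J : Finset (Fin n)) (hJ : J.card = r + s)
    (hsep : ∀ j ∈ J, ∃ u ∈ p, (∀ l ∈ J, l ≠ j → pderiv l u ∈ p) ∧ pderiv j u ∉ p)
    (W : Fin r → Fin n → ℂ)
    (hW : LinearIndependent K fun i : Fin r => fun u : p => e (dr tor (W i) (u : Rg n))) :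
    ∃ (D E : Fin r ⊕ Fin s → Fin n → ℂ), (∀ i, D (Sum.inl i) = W i ∧ E (Sum.inl i) = 0) ∧
      ∀ y, ∃ u ∈ p, ∃ h, h ∉ p ∧ ∀ x,
        e (dr tor (D x) u) + e (∑ l, C (E x l) * pderiv l u) = if x = y then e h else 0 := by
  have hmul : ∀ (d : Derivation ℂ (Rg n) (Rg n)) (f : Rg n) (u : p),
      e (d (f * (u : Rg n))) = e f * e (d (u : Rg n)) := fun d f u => by
    rw [Derivation.leibniz, map_add, smul_eq_mul, smul_eq_mul, map_mul, map_mul,
      (hker u).2 u.2, zero_mul, add_zero]
  let v : Fin r ⊕ Fin n → p → K :=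
    Sum.elim (fun i u => e (dr tor (W i) (u : Rg n))) (fun l u => e (pderiv l (u : Rg n)))
  have hs : LinearIndepOn K v (Set.range Sum.inl) := by
    rw [linearIndepOn_range_iff Sum.inl_injective]
    exact hW
  have hJind : LinearIndependent K fun j : J => v (Sum.inr (j : Fin n)) := by
    rw [Fintype.linearIndependent_iff]
    intro g hg j
    obtain ⟨u, hu, h1, h2⟩ := hsep j j.2
    have h3 := congrFun hg ⟨u, hu⟩
    rw [Finset.sum_apply, Finset.sum_eq_single j] at h3
    · simp only [v, Pi.smul_apply, Sum.elim_inr, smul_eq_mul, Pi.zero_apply, mul_eq_zero] at h3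
      rcases h3 with h3 | h3
      · exact h3
      · exact absurd ((hker _).1 h3) h2
    · intro l _ hl
      have := h1 l l.2 (fun h => hl (Subtype.ext h))
      simp only [v, Pi.smul_apply, Sum.elim_inr, smul_eq_mul]
      rw [(hker _).2 this, mul_zero]
    · intro h
      exact absurd (Finset.mem_univ j) h
  obtain ⟨b, hbt, hsb, hspan, hb⟩ := exists_linearIndepOn_extension (v := v) (K := K) hs
    (t := Set.range Sum.inl ∪ Sum.inr '' (J : Set (Fin n))) Set.subset_union_left
  have hcard : r + s ≤ b.toFinset.card := by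
    have h1 : LinearIndependent K (fun j : J => (⟨v (Sum.inr (j : Fin n)),
        hspan ⟨_, Or.inr ⟨j, j.2, rfl⟩, rfl⟩⟩ : Submodule.span K (v '' b))) :=
      LinearIndependent.of_comp (Submodule.subtype _) (by simpa [Function.comp_def] using hJind)
    have hfin : Module.Finite K (Submodule.span K (v '' b)) :=
      Module.Finite.span_of_finite K (Set.toFinite _)
    have h2 := h1.fintype_card_le_finrank
    have h3 : Module.finrank K (Submodule.span K (v '' b)) ≤ b.toFinset.card := by
      have h4 : v '' b = ((b.toFinset.image v : Finset (p → K)) : Set (p → K)) := by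
        rw [Finset.coe_image, Set.coe_toFinset]
      rw [h4]
      exact (finrank_span_finset_le_card _).trans Finset.card_image_le
    rw [Fintype.card_coe, hJ] at h2
    exact h2.trans h3
  obtain ⟨b', hb1, hb2, hb3⟩ := Finset.exists_subsuperset_card_eq
    (s := (Finset.univ : Finset (Fin r)).map Function.Embedding.inl) (t := b.toFinset) (n := r + s)
    (fun x hx => by
      obtain ⟨i, -, rfl⟩ := Finset.mem_map.1 hx
      exact Set.mem_toFinset.2 (hsb ⟨i, rfl⟩)) (by simp) hcard
  have hleft : b'.toLeft = Finset.univ := by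
    ext i
    simp only [Finset.mem_toLeft, Finset.mem_univ, iff_true]
    exact hb1 (Finset.mem_map.2 ⟨i, Finset.mem_univ _, rfl⟩)
  have hright : b'.toRight.card = s := by
    have := b'.card_toLeft_add_card_toRight
    rw [hleft, Finset.card_univ, Fintype.card_fin, hb3] at this
    omega
  let g : Fin s ↪o Fin n := b'.toRight.orderEmbOfFin hright
  have hg : ∀ k, Sum.inr (g k) ∈ b' := fun k => by
    have := Finset.orderEmbOfFin_mem b'.toRight hright k
    exact Finset.mem_toRight.1 this
  let φ : Fin r ⊕ Fin s → Fin r ⊕ Fin n := Sum.map id g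
  have hφ : Function.Injective φ := Sum.map_injective.2 ⟨Function.injective_id, g.injective⟩
  have hφb : ∀ x, φ x ∈ b := fun x => by
    rcases x with i | k
    · exact hsb ⟨i, rfl⟩
    · exact Set.mem_toFinset.1 (hb2 (hg k))
  have hv' : LinearIndependent K (fun x => v (φ x)) := by
    have h1 : LinearIndepOn K v (Set.range φ) := hb.mono (by rintro _ ⟨x, rfl⟩; exact hφb x)
    rw [linearIndepOn_range_iff hφ] at h1
    exact h1
  refine ⟨Sum.elim W 0, Sum.elim 0 (fun k => Pi.single (g k) 1), fun i => ⟨rfl, rfl⟩, fun y => ?_⟩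
  have hval : ∀ (x : Fin r ⊕ Fin s) (u : p),
      e (dr tor ((Sum.elim W 0 : Fin r ⊕ Fin s → Fin n → ℂ) x) u) +
        e (∑ l, C ((Sum.elim 0 (fun k => Pi.single (g k) 1) : Fin r ⊕ Fin s → Fin n → ℂ) x l) *
          pderiv l (u : Rg n)) = v (φ x) u := by
    intro x u
    rcases x with i | k
    · simp [v, φ]
    · simp only [Sum.elim_inr, Pi.zero_apply, φ, v, Sum.map_inr]
      rw [dr_zero, map_zero, zero_add]
      congr 1
      rw [Finset.sum_eq_single (g k)]
      · simp
      · intro l _ hl
        simp [Pi.single_eq_of_ne hl]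
      · intro h
        exact absurd (Finset.mem_univ _) h
  obtain ⟨h, hh, u, hu⟩ := dual_elements p e hker hfrac (fun x => v (φ x)) (fun x f u => by
      rcases x with i | k
      · exact hmul _ f u
      · exact hmul _ f u) (fun x u u' => by
      rcases x with i | k
      · simp [v, φ]
      · simp [v, φ]) hv' (fun x => if x = y then 1 else 0)
  refine ⟨u, u.2, h, hh, fun x => ?_⟩
  rw [hval, hu]
  split_ifs <;> simp

end

end Pool.Agent.Helper37.PiE
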