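import Mathlib

/-! # Upper bound: the quotient by powers of an ideal with isolated zeros -/

open scoped Classical

namespace Pool.Agent.Helper37.PiE

section
variable {A F : Type*} [CommRing A] [Field F] [Algebra F A]

theorem upper_step (L : ℕ → Submodule F A) (hL : ∀ i j a b, a ∈ L i → b ∈ L j → a * b ∈ L (i + j))
    (hmono : ∀ i j, i ≤ j → L i ≤ L j) {I : Ideal A} {G0 : Set A} (hI : I = Ideal.span G0)
    (hG : ∀ g ∈ G0, g ∈ L 1) {c0 : ℕ} (h0 : ∀ a, ∃ e ∈ L c0, a - e ∈ I) (k : ℕ) :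
    ∀ a, ∃ e ∈ L (c0 + k), a - e ∈ I ^ (k + 1) := by
  induction k with
  | zero => simpa using h0
  | succ k ih =>
    have key : ∀ q ∈ Ideal.span G0, ∀ a, ∃ e ∈ L (c0 + (k + 1)), a * q - e ∈ I ^ (k + 2) := by
      intro q hq
      refine Submodule.span_induction (p := fun q _ => ∀ a, ∃ e ∈ L (c0 + (k + 1)),
        a * q - e ∈ I ^ (k + 2)) ?_ ?_ ?_ ?_ hq
      · intro g hg a
        obtain ⟨e, he, hae⟩ := ih a
        refine ⟨e * g, by simpa [add_assoc] using hL _ _ _ _ he (hG g hg), ?_⟩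
        have h1 : a * g - e * g = (a - e) * g := by ring
        rw [h1, pow_succ]
        refine Ideal.mul_mem_mul hae ?_
        rw [hI]
        exact Ideal.subset_span hg
      · intro a
        exact ⟨0, zero_mem _, by simp⟩
      · intro x y _ _ hx hy a
        obtain ⟨e, he, h1⟩ := hx a
        obtain ⟨e', he', h2⟩ := hy a
        refine ⟨e + e', add_mem he he', ?_⟩
        have h3 : a * (x + y) - (e + e') = (a * x - e) + (a * y - e') := by ring
        rw [h3]
        exact add_mem h1 h2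
      · intro b x _ hx a
        obtain ⟨e, he, h1⟩ := hx (a * b)
        exact ⟨e, he, by rw [smul_eq_mul, ← mul_assoc]; exact h1⟩
    intro a
    obtain ⟨e, he, hae⟩ := h0 a
    rw [hI] at hae
    obtain ⟨e', he', h1⟩ := key _ hae 1
    refine ⟨e + e', add_mem (hmono _ _ (by omega) he) he', ?_⟩
    have h2 : a - (e + e') = 1 * (a - e) - e' := by ring
    rw [h2]
    exact h1

theorem upper_card (L : Submodule F A) {Y : Type*} [Fintype Y] (y : Y → A)
    (hLy : L = Submodule.span F (Set.range y)) {I : Ideal A} (h0 : ∀ a, ∃ e ∈ L, a - e ∈ I)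
    {X : Type*} [Fintype X] (v : X → A)
    (hv : ∀ c : X → F, ∑ x, c x • v x ∈ I → ∀ x, c x = 0) :
    Fintype.card X ≤ Fintype.card Y := by
  choose e he hve using fun x => h0 (v x)
  have hind : LinearIndependent F e := by
    rw [Fintype.linearIndependent_iff]
    intro c hc
    apply hv c
    have h1 : ∑ x, c x • v x = ∑ x, c x • (v x - e x) := by
      have : ∑ x, c x • (v x - e x) = ∑ x, c x • v x - ∑ x, c x • e x := by
        rw [← Finset.sum_sub_distrib]
        exact Finset.sum_congr rfl fun x _ => smul_sub _ _ _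
      rw [this, hc, sub_zero]
    rw [h1]
    refine Ideal.sum_mem _ fun x _ => ?_
    rw [Algebra.smul_def]
    exact Ideal.mul_mem_left _ _ (hve x)
  have hind2 : LinearIndependent F (fun x => (⟨e x, he x⟩ : L)) :=
    LinearIndependent.of_comp L.subtype (by simpa [Function.comp_def] using hind)
  have hfin : Module.Finite F L := by
    rw [hLy]
    exact Module.Finite.span_of_finite F (Set.finite_range y)
  refine (hind2.fintype_card_le_finrank).trans ?_
  rw [hLy]
  exact finrank_range_le_card y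

end

section
variable {A F : Type*} [CommRing A] [Field F] [Algebra F A] {J : Type*} [Fintype J]

/-- polynomials in the `x j` of degrees `≤ k d j` -/
def Lk (F : Type*) [Field F] [Algebra F A] (x : J → A) (d : J → ℕ) (k : ℕ) : Submodule F A :=
  Submodule.span F (Set.range fun n : (∀ j, Fin (k * d j + 1)) => ∏ j, x j ^ (n j : ℕ))

theorem mem_Lk {x : J → A} {d : J → ℕ} {k : ℕ} (n : J → ℕ) (hn : ∀ j, n j ≤ k * d j) :
    ∏ j, x j ^ n j ∈ Lk F x d k :=
  Submodule.subset_span ⟨fun j => ⟨n j, Nat.lt_succ_of_le (hn j)⟩, rfl⟩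

theorem Lk_mul (x : J → A) (d : J → ℕ) : ∀ i j a b, a ∈ Lk F x d i → b ∈ Lk F x d j →
    a * b ∈ Lk F x d (i + j) := by
  intro i j a b ha hb
  have h1 : Lk F x d i * Lk F x d j ≤ Lk F x d (i + j) := by
    rw [Lk, Lk, Submodule.span_mul_span, Submodule.span_le]
    rintro _ ⟨_, ⟨n, rfl⟩, _, ⟨m, rfl⟩, rfl⟩
    simp only
    rw [← Finset.prod_mul_distrib]
    simp only [← pow_add]
    refine mem_Lk _ fun l => ?_
    have h2 := (n l).2
    have h3 := (m l).2
    rw [add_mul]
    omega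
  exact h1 (Submodule.mul_mem_mul ha hb)

theorem Lk_mono (x : J → A) (d : J → ℕ) : ∀ i j, i ≤ j → Lk F x d i ≤ Lk F x d j := by
  intro i j hij
  rw [Lk, Submodule.span_le]
  rintro _ ⟨n, rfl⟩
  exact mem_Lk _ fun l => (Nat.lt_succ_iff.1 (n l).2).trans (Nat.mul_le_mul_right _ hij)

theorem adjoin_le_Lk (x : J → A) {d : J → ℕ} (hd : ∀ j, 1 ≤ d j) :
    ∀ a ∈ Algebra.adjoin F (Set.range x), ∃ k, a ∈ Lk F x d k := by
  intro a ha
  induction ha using Algebra.adjoin_induction with
  | mem y hy =>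
    obtain ⟨j, rfl⟩ := hy
    refine ⟨1, ?_⟩
    have := mem_Lk (F := F) (x := x) (d := d) (k := 1) (fun i => if i = j then 1 else 0)
      (fun i => by
        rcases eq_or_ne i j with h | h
        · subst h; simpa using hd i
        · simp [h])
    have e : ∏ i, x i ^ (if i = j then 1 else 0) = x j := by
      rw [Finset.prod_eq_single j]
      · simp
      · intro i _ hi; simp [hi]
      · intro h; exact absurd (Finset.mem_univ j) h
    rwa [e] at this
  | algebraMap r =>
    refine ⟨0, ?_⟩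
    have := mem_Lk (F := F) (x := x) (d := d) (k := 0) (fun _ => 0) (fun _ => by simp)
    simp only [pow_zero, Finset.prod_const_one] at this
    have h2 := Submodule.smul_mem _ r this
    rwa [Algebra.smul_def, mul_one] at h2
  | add a b _ _ ha hb =>
    obtain ⟨k, hk⟩ := ha
    obtain ⟨l, hl⟩ := hb
    exact ⟨max k l, add_mem (Lk_mono x d _ _ (le_max_left _ _) hk)
      (Lk_mono x d _ _ (le_max_right _ _) hl)⟩
  | mul a b _ _ ha hb =>
    obtain ⟨k, hk⟩ := ha
    obtain ⟨l, hl⟩ := hb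
    exact ⟨k + l, Lk_mul x d _ _ _ _ hk hl⟩

/-- finiteness of the quotient by an ideal with isolated zeros -/
theorem fin_dim [IsNoetherianRing A] (x : J → A) {d : J → ℕ} (hd : ∀ j, 1 ≤ d j) (I : Ideal A)
    {ι : Type*} [Fintype ι] (m : ι → Ideal A)
    (hm : ∀ q : Ideal A, q.IsPrime → I ≤ q → ∃ s, m s ≤ q)
    (hx : ∀ j s, ∃ U : Polynomial F, U ≠ 0 ∧ Polynomial.aeval (x j) U ∈ m s)
    (hgen : ∀ a : A, ∃ v ∈ Algebra.adjoin F (Set.range x), ∃ r ∈ Algebra.adjoin F (Set.range x),
      IsUnit v ∧ a * v = r) :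
    ∃ c0, ∀ a, ∃ e ∈ Lk F x d c0, a - e ∈ I := by
  -- integrality
  have hint : ∀ j, IsIntegral F (Ideal.Quotient.mk I (x j)) := fun j => by
    rw [← isAlgebraic_iff_isIntegral]
    choose U hU0 hU using hx j
    have h1 : Polynomial.aeval (x j) (∏ s, U s) ∈ I.radical := by
      rw [Ideal.radical_eq_sInf, Submodule.mem_sInf]
      rintro q ⟨hIq, hq⟩
      obtain ⟨s, hs⟩ := hm q hq hIq
      refine hs ?_
      rw [map_prod, ← Finset.mul_prod_erase _ _ (Finset.mem_univ s)]
      exact Ideal.mul_mem_right _ _ (hU s)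
    obtain ⟨e, he⟩ := h1
    refine ⟨(∏ s, U s) ^ e, pow_ne_zero _ (Finset.prod_ne_zero_iff.2 fun s _ => hU0 s), ?_⟩
    have h2 : Polynomial.aeval (Ideal.Quotient.mk I (x j)) ((∏ s, U s) ^ e) =
        Ideal.Quotient.mk I (Polynomial.aeval (x j) ((∏ s, U s) ^ e)) := by
      have := Polynomial.aeval_algHom_apply (Ideal.Quotient.mkₐ F I) (x j) ((∏ s, U s) ^ e)
      simpa using this
    rw [h2, map_pow, Ideal.Quotient.eq_zero_iff_mem]
    exact he
  set B0 : Subalgebra F (A ⧸ I) := Algebra.adjoin F (Set.range fun j => Ideal.Quotient.mk I (x j))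
    with hB0
  have hfg : B0.toSubmodule.FG :=
    fg_adjoin_of_finite (Set.finite_range _) (by rintro _ ⟨j, rfl⟩; exact hint j)
  have hfin : Module.Finite F B0 := Module.Finite.iff_fg.2 hfg
  have hmap : ∀ a ∈ Algebra.adjoin F (Set.range x), Ideal.Quotient.mk I a ∈ B0 := by
    intro a ha
    have h1 : B0 = (Algebra.adjoin F (Set.range x)).map (Ideal.Quotient.mkₐ F I) := by
      rw [AlgHom.map_adjoin, ← Set.range_comp]
      rfl
    rw [h1]
    exact ⟨a, ha, rfl⟩
  have htop : ∀ a : A, Ideal.Quotient.mk I a ∈ B0 := by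
    intro a
    obtain ⟨v, hv, r, hr, hvu, har⟩ := hgen a
    have hv' := hmap v hv
    have hr' := hmap r hr
    have hvu' : IsUnit (Ideal.Quotient.mk I v) := hvu.map _
    -- multiplication by `v` on `B0`
    let f : B0 →ₗ[F] B0 := LinearMap.mulLeft F (⟨_, hv'⟩ : B0)
    have hinj : Function.Injective f := by
      rw [← LinearMap.ker_eq_bot, LinearMap.ker_eq_bot']
      intro y hy
      have h1 : (Ideal.Quotient.mk I v) * (y : A ⧸ I) = 0 := congrArg Subtype.val hy
      have h2 : (y : A ⧸ I) = 0 := by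
        rwa [hvu'.mul_right_eq_zero] at h1
      exact Subtype.ext h2
    obtain ⟨w, hw⟩ := (LinearMap.injective_iff_surjective.1 hinj) 1
    have hw' : (Ideal.Quotient.mk I v) * (w : A ⧸ I) = 1 := congrArg Subtype.val hw
    have h3 : Ideal.Quotient.mk I a = Ideal.Quotient.mk I r * w := by
      rw [← har, map_mul, mul_assoc, hw', mul_one]
    rw [h3]
    exact mul_mem hr' w.2
  -- a finite spanning set
  obtain ⟨t, ht⟩ := hfg
  have hlift : ∀ b ∈ t, ∃ a ∈ Algebra.adjoin F (Set.range x), Ideal.Quotient.mk I a = b := by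
    intro b hb
    have h1 : b ∈ B0 := by
      have : b ∈ B0.toSubmodule := by rw [← ht]; exact Submodule.subset_span hb
      exact this
    have h2 : B0 = (Algebra.adjoin F (Set.range x)).map (Ideal.Quotient.mkₐ F I) := by
      rw [AlgHom.map_adjoin, ← Set.range_comp]
      rfl
    rw [h2] at h1
    obtain ⟨a, ha, h3⟩ := h1
    exact ⟨a, ha, h3⟩
  choose! g hg hg2 using hlift
  choose! K hK using fun a (ha : a ∈ Algebra.adjoin F (Set.range x)) =>
    adjoin_le_Lk (F := F) x hd a ha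
  refine ⟨t.sup fun b => K (g b), fun a => ?_⟩
  have h1 : Ideal.Quotient.mk I a ∈ Submodule.span F (t : Set (A ⧸ I)) := by
    rw [ht]; exact htop a
  have h2 : Submodule.span F (t : Set (A ⧸ I)) ≤
      (Lk F x d (t.sup fun b => K (g b))).map (Ideal.Quotient.mkₐ F I).toLinearMap := by
    rw [Submodule.span_le]
    intro b hb
    refine ⟨g b, ?_, hg2 b hb⟩
    exact Lk_mono x d _ _ (Finset.le_sup (f := fun b => K (g b)) hb) (hK _ (hg b hb))
  obtain ⟨e, he, hae⟩ := h2 h1
  refine ⟨e, he, ?_⟩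
  rw [← Ideal.Quotient.eq_zero_iff_mem, map_sub, sub_eq_zero]
  exact hae.symm

/-- **Upper bound** -/
theorem upper [IsNoetherianRing A] (x : J → A) {d : J → ℕ} (hd : ∀ j, 1 ≤ d j) {I : Ideal A}
    {G0 : Set A} (hI : I = Ideal.span G0) (hG : ∀ g ∈ G0, g ∈ Lk F x d 1)
    {ι : Type*} [Fintype ι] (m : ι → Ideal A)
    (hm : ∀ q : Ideal A, q.IsPrime → I ≤ q → ∃ s, m s ≤ q)
    (hx : ∀ j s, ∃ U : Polynomial F, U ≠ 0 ∧ Polynomial.aeval (x j) U ∈ m s)
    (hgen : ∀ a : A, ∃ v ∈ Algebra.adjoin F (Set.range x), ∃ r ∈ Algebra.adjoin F (Set.range x),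
      IsUnit v ∧ a * v = r) :
    ∃ c0, ∀ (k : ℕ) (X : Type) [Fintype X] (v : X → A),
      (∀ c : X → F, ∑ x, c x • v x ∈ I ^ (k + 1) → ∀ x, c x = 0) →
        Fintype.card X ≤ ∏ j, ((c0 + k) * d j + 1) := by
  obtain ⟨c0, h0⟩ := fin_dim (F := F) x hd I m hm hx hgen
  refine ⟨c0, fun k X _ v hv => ?_⟩
  have h1 := upper_step (Lk F x d) (Lk_mul x d) (Lk_mono x d) hI hG h0 k
  have h2 := upper_card (Lk F x d (c0 + k)) _ rfl h1 v hv
  simpa using h2

end

end Pool.Agent.Helper37.PiE
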