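import Pool.Agent.Helper37.PiE.ZLoc
import Pool.Agent.Helper37.PiE.ZUpper
import Pool.Agent.Helper37.PiE.ZCount
import Pool.Agent.Helper37.PiE.ZFrame

/-! # The local counting statement -/

open MvPolynomial Trs
open scoped Classical

namespace Pool.Agent.Helper37.PiE

theorem wo_of_constantCoeff {ν : Type*} [Fintype ν] {K : Type*} [Field K] {w : ν → ℕ}
    (hw : ∀ i, 1 ≤ w i) {φ : MvPowerSeries ν K} (h : MvPowerSeries.constantCoeff φ = 0) :
    ((1 : ℕ) : ℕ∞) ≤ φ.weightedOrder w := by
  refine MvPowerSeries.nat_le_weightedOrder w fun κ hκ => ?_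
  have hκ0 : κ = 0 := by
    by_contra hne
    obtain ⟨i, hi⟩ : ∃ i, κ i ≠ 0 := by
      by_contra h
      push Not at h
      exact hne (Finsupp.ext h)
    have h1 : Finsupp.weight w (Finsupp.single i 1) ≤ Finsupp.weight w κ := by
      have h2 : κ - Finsupp.single i 1 + Finsupp.single i 1 = κ := by
        refine tsub_add_cancel_of_le ?_
        rw [Finsupp.single_le_iff]
        omega
      rw [← h2, map_add]
      omega
    rw [Finsupp.weight_single] at h1
    have := hw i
    simp only [one_smul] at h1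
    omega
  rw [hκ0, MvPowerSeries.coeff_zero_eq_constantCoeff_apply, h]

theorem core_main {n r s T' : ℕ} (hT' : 1 ≤ T') (tor : Fin n → Bool) (I : Finset (Fin n))
    (hI : r + s + I.card = n) (d : Fin n → ℕ) (hd : ∀ i, 1 ≤ d i)
    {τ : Type} [Fintype τ] (q : τ → Ideal (Rg n)) (hinj : Function.Injective q)
    (hp : ∀ t, (q t).IsPrime) (hInd : ∀ t, Ind (q t) I)
    (hAlg : ∀ t, ∀ j, j ∉ I → ∃ U : Rg n, U ≠ 0 ∧ U.vars ⊆ insert j I ∧ U ∈ q t)
    (W : τ → Fin r → Fin n → ℂ)
    (hW : ∀ t, ∃ z : Fin r → Rg n, (∀ i, z i ∈ q t) ∧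
      Matrix.det (Matrix.of fun i j => dr tor (W t i) (z j)) ∉ q t)
    (G0 : Set (Rg n)) (hG : ∀ f ∈ G0, ∀ i, f.degreeOf i ≤ d i)
    (hmin : ∀ t, q t ∈ (Ideal.span G0).minimalPrimes)
    (hjet : ∀ t, ∀ f ∈ G0, ∀ l : List (Fin r), l.length < T' →
      l.foldl (fun Q i => dr tor (W t i) Q) f ∈ q t) :
    Fintype.card τ * T' ^ r ≤ (r + s).factorial * ∏ i ∈ Iᶜ, d i := by
  -- generic points
  have hgp := fun t => (haveI := hp t; gen_point (q t))
  choose K iK cK e hker hfrac using hgp
  -- semilocalization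
  obtain ⟨A, F, iA, iN, iF, iAF, ρ, hunit, hlift, hsurj, hconst, hprime, hmap, hpoly⟩ :=
    semiloc I q hp hInd
  -- frames
  have hJcard : (Iᶜ : Finset (Fin n)).card = r + s := by
    rw [Finset.card_compl, Fintype.card_fin]; omega
  have hframe := fun t => exists_frame (r := r) (s := s) tor (q t) (e t) (hker t) (hfrac t) Iᶜ
    hJcard (fun j hj => by
      have hj' : j ∉ I := Finset.mem_compl.1 hj
      obtain ⟨u, hu, h1, h2⟩ := exists_sep (q t) (hInd t) (hAlg t j hj')
      exact ⟨u, hu, fun l hl hlj => h1 l (Finset.mem_compl.1 hl) hlj, h2⟩) (W t) (by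
      obtain ⟨z, hz, hdet⟩ := hW t
      rw [Fintype.linearIndependent_iff]
      intro g hg
      have h1 : Matrix.vecMul g (Matrix.of fun i j => e t (dr tor (W t i) (z j))) = 0 := by
        funext j
        have := congrFun hg ⟨z j, hz j⟩
        simpa [Matrix.vecMul, dotProduct, Finset.sum_apply] using this
      have h2 : Matrix.det (Matrix.of fun i j => e t (dr tor (W t i) (z j))) ≠ 0 := by
        intro h0
        apply hdet
        rw [← hker t, RingHom.map_det]
        exact h0
      have h3 := Matrix.eq_zero_of_vecMul_eq_zero h2 h1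
      intro i
      exact congrFun h3 i)
  choose D E hDE hfr using hframe
  choose u hu h hh hval using hfr
  -- the Taylor homomorphisms
  have hΨunit : ∀ t (f : Rg n), (∀ t, f ∉ q t) → IsUnit (Psi tor (D t) (E t) (e t) f) := by
    intro t f hf
    rw [MvPowerSeries.isUnit_iff_constantCoeff, constantCoeff_Psi, isUnit_iff_ne_zero]
    exact fun h0 => hf t ((hker t f).1 h0)
  have hΨ := fun t => hlift (MvPowerSeries (Fin r ⊕ Fin s) (K t)) inferInstance
    (Psi tor (D t) (E t) (e t)) (hΨunit t)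
  choose Ψ hΨρ using hΨ
  set IA : Ideal A := Ideal.span (ρ '' G0) with hIA
  have hIAmap : IA = (Ideal.span G0).map ρ := by rw [hIA, Ideal.map_span]
  have hw1 : ∀ i, 1 ≤ wt r s T' i := by
    rintro (i | i)
    · exact le_rfl
    · exact hT'
  have hIΨ : ∀ t, ∀ f ∈ IA, (T' : ℕ∞) ≤ (Ψ t f).weightedOrder (wt r s T') := by
    intro t f hf
    refine Submodule.span_induction (p := fun f _ =>
      (T' : ℕ∞) ≤ (Ψ t f).weightedOrder (wt r s T')) ?_ ?_ ?_ ?_ hf
    · rintro _ ⟨g, hg, rfl⟩
      rw [hΨρ]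
      refine wo_Psi tor (D t) (E t) (e t) _ (Set.range Sum.inl) ?_ ?_ g ?_
      · rintro _ ⟨i, rfl⟩
        exact ⟨rfl, fun l => by rw [(hDE t i).2]; rfl⟩
      · rintro (i | i) hi
        · exact absurd ⟨i, rfl⟩ hi
        · rfl
      · intro l hl hl'
        rw [hker]
        have hlist : ∀ (l : List (Fin r ⊕ Fin s)), (∀ i ∈ l, i ∈ Set.range Sum.inl) →
            ∃ l' : List (Fin r), l = l'.map Sum.inl := by
          intro l
          induction l with
          | nil => intro _; exact ⟨[], rfl⟩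
          | cons a l ih =>
            intro hl
            obtain ⟨l', hl'⟩ := ih fun i hi => hl i (List.mem_cons_of_mem _ hi)
            obtain ⟨i, hi⟩ := hl a List.mem_cons_self
            exact ⟨i :: l', by rw [List.map_cons, ← hl', hi]⟩
        obtain ⟨l', rfl⟩ := hlist l hl'
        rw [List.foldl_map]
        simp only [(hDE t _).1]
        rw [List.length_map] at hl
        exact hjet t g hg l' hl
    · rw [map_zero, MvPowerSeries.weightedOrder_zero]
      exact le_top
    · intro x y _ _ hx hy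
      rw [map_add]
      exact le_trans (le_min hx hy) (MvPowerSeries.min_weightedOrder_le_add _)
    · intro a x _ hx
      rw [smul_eq_mul, map_mul]
      exact wo_mul_left _ hx
  -- separating elements
  have hsepq : ∀ t t', t' ≠ t → ∃ v, v ∈ q t' ∧ v ∉ q t := by
    intro t t' hne
    by_contra hc
    push Not at hc
    have h1 : q t' ≤ q t := hc
    have h2 : q t ≤ q t' := (hmin t).2 ⟨hp t', (hmin t').1.2⟩ h1
    exact hne (hinj (le_antisymm h1 h2))
  choose! v hv hv' using hsepq
  -- the upper bound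
  let x : {j // j ∉ I} → A := fun j => ρ (X (j : Fin n))
  have hadj : ∀ f : Rg n, ρ f ∈ Algebra.adjoin F (Set.range x) := by
    intro f
    induction f using MvPolynomial.induction_on with
    | C z =>
      obtain ⟨a, ha⟩ := hconst (C z) (by simp)
      rw [← ha]
      exact Subalgebra.algebraMap_mem _ a
    | add p q hp hq => rw [map_add]; exact add_mem hp hq
    | mul_X p i hp =>
      rw [map_mul]
      refine mul_mem hp ?_
      by_cases hi : i ∈ I
      · obtain ⟨a, ha⟩ := hconst (X i) (by rw [MvPolynomial.vars_X]; simpa using hi)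
        rw [← ha]
        exact Subalgebra.algebraMap_mem _ a
      · exact Algebra.subset_adjoin ⟨⟨i, hi⟩, rfl⟩
  have hG0L : ∀ g ∈ ρ '' G0, g ∈ Lk F x (fun j => d j) 1 := by
    rintro _ ⟨g, hg, rfl⟩
    rw [MvPolynomial.as_sum g, map_sum]
    refine Submodule.sum_mem _ fun m hm => ?_
    rw [MvPolynomial.monomial_eq, Finsupp.prod_fintype _ _ (by simp)]
    have e1 : ∏ i, (X i : Rg n) ^ m i =
        (∏ i ∈ I, (X i : Rg n) ^ m i) * ∏ j : {j // j ∉ I}, (X (j : Fin n) : Rg n) ^ m j := by
      rw [← Finset.prod_mul_prod_compl I]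
      congr 1
      exact (Finset.prod_subtype (Iᶜ) (fun j => Finset.mem_compl) (fun j => (X j : Rg n) ^ m j))
    rw [e1, ← mul_assoc, map_mul]
    obtain ⟨a, ha⟩ := hconst (C (coeff m g) * ∏ i ∈ I, (X i : Rg n) ^ m i) (by
      refine (MvPolynomial.vars_mul _ _).trans ?_
      rw [MvPolynomial.vars_C, Finset.empty_union]
      refine (MvPolynomial.vars_prod _).trans ?_
      intro i hi
      obtain ⟨i', hi', h2⟩ := Finset.mem_biUnion.1 hi
      have h3 := MvPolynomial.vars_pow _ _ h2
      rw [MvPolynomial.vars_X, Finset.mem_singleton] at h3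
      rwa [h3])
    rw [← ha, ← Algebra.smul_def, map_prod]
    refine Submodule.smul_mem _ _ ?_
    simp only [map_pow]
    refine mem_Lk (F := F) (x := x) (d := fun j => d j) (fun j => m j) fun j => ?_
    rw [one_mul]
    exact (MvPolynomial.monomial_le_degreeOf _ hm).trans (hG g hg _)
  obtain ⟨c0, hupper⟩ := upper (F := F) x (d := fun j => d j) (fun j => hd j) hIA hG0L
    (fun t => (q t).map ρ) (fun Q hQ hIQ => by
      obtain ⟨t, ht⟩ := hprime Q hQ
      refine ⟨t, ?_⟩
      have h1 : Ideal.span G0 ≤ Q.comap ρ := by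
        rw [← Ideal.map_le_iff_le_comap, ← hIAmap]
        exact hIQ
      have h2 : q t ≤ Q.comap ρ := (hmin t).2 ⟨hQ.comap ρ, h1⟩ ht
      exact Ideal.map_le_iff_le_comap.2 h2) (fun j t => by
      obtain ⟨U, hU0, hUv, hUq⟩ := hAlg t j j.2
      obtain ⟨V, hV0, hV⟩ := hpoly j j.2 U hU0 hUv
      refine ⟨V, hV0, ?_⟩
      show Polynomial.aeval (ρ (X (j : Fin n))) V ∈ _
      rw [hV]
      exact Ideal.mem_map_of_mem ρ hUq) (fun a => by
      obtain ⟨f, w, hw, haw⟩ := hsurj a
      exact ⟨ρ w, hadj w, ρ f, hadj f, hunit w hw, haw⟩)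
  -- combine
  have hcardJ : Fintype.card {j // j ∉ I} = r + s := by
    rw [← hJcard]
    exact Fintype.card_of_subtype Iᶜ fun j => Finset.mem_compl
  have hfinal : ∀ M : ℕ, Fintype.card τ * T' ^ r * (M + 1) ^ Fintype.card {j // j ∉ I} ≤
      (r + s).factorial * ∏ j : {j // j ∉ I}, ((c0 + r + M) * d j + 1) := by
    intro M
    have hlow := lower_family (F := F) (w := wt r s T') (T := T') (k := M + r + 1) Ψ hIΨ
      (fun t j => ρ (u t j)) (fun t j => e t (h t j)) (fun t j => ?_) (fun t j => ?_)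
      (fun t => ρ (∏ t' ∈ Finset.univ.erase t, v t t' ^ ((M + r + 1) * T'))) (fun t => ?_)
      (fun t t' ht' => ?_) (X := Xi r s T' M) xi xi_injective (fun x => xi_weight hT' x)
    · have h1 := hupper (M + r) (τ × Xi r s T' M) _ hlow
      rw [Fintype.card_prod] at h1
      calc Fintype.card τ * T' ^ r * (M + 1) ^ Fintype.card {j // j ∉ I}
          = Fintype.card τ * (T' ^ r * (M + 1) ^ (r + s)) := by rw [hcardJ]; ring
        _ ≤ Fintype.card τ * ((r + s).factorial * Fintype.card (Xi r s T' M)) :=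
            Nat.mul_le_mul_left _ (card_Xi_le r s T' M)
        _ = (r + s).factorial * (Fintype.card τ * Fintype.card (Xi r s T' M)) := by ring
        _ ≤ (r + s).factorial * ∏ j : {j // j ∉ I}, ((c0 + (M + r)) * d j + 1) :=
            Nat.mul_le_mul_left _ h1
        _ = _ := by
            have : c0 + (M + r) = c0 + r + M := by omega
            rw [this]
    · intro h0
      exact hh t j ((hker t _).1 h0)
    · rw [hΨρ]
      refine lead_Psi tor (D t) (E t) (e t) ((hker t _).2 (hu t j)) fun i => ?_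
      convert hval t j i
    · rw [hΨρ]
      rw [MvPowerSeries.isUnit_iff_constantCoeff, constantCoeff_Psi, isUnit_iff_ne_zero, map_prod]
      refine Finset.prod_ne_zero_iff.2 fun t' ht' => ?_
      rw [map_pow]
      refine pow_ne_zero _ fun h0 => ?_
      exact hv' t t' (Finset.ne_of_mem_erase ht') ((hker t _).1 h0)
    · rw [hΨρ, ← Finset.mul_prod_erase _ _ (Finset.mem_erase.2 ⟨ht', Finset.mem_univ t'⟩), map_mul,
        mul_comm (Psi tor (D t') (E t') (e t') (v t t' ^ ((M + r + 1) * T')))]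
      refine wo_mul_left _ ?_
      rw [map_pow]
      have h1 : ((1 : ℕ) : ℕ∞) ≤
          (Psi tor (D t') (E t') (e t') (v t t')).weightedOrder (wt r s T') := by
        refine wo_of_constantCoeff hw1 ?_
        rw [constantCoeff_Psi, hker]
        exact hv t t' ht'
      refine le_trans ?_ (MvPowerSeries.le_weightedOrder_pow _ _)
      rw [nsmul_eq_mul]
      calc (((M + r + 1) * T' : ℕ) : ℕ∞) = (((M + r + 1) * T' : ℕ) : ℕ∞) * ((1 : ℕ) : ℕ∞) := by
            simp
        _ ≤ _ := mul_le_mul_right h1 _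
  have hlim := limit_bound (fun j : {j // j ∉ I} => d j) _ _ _ hfinal
  refine hlim.trans (le_of_eq ?_)
  congr 1
  exact (Finset.prod_subtype (Iᶜ) (fun j => Finset.mem_compl) (fun j => d j)).symm

end Pool.Agent.Helper37.PiE
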