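import Pool.Agent.Helper17.Trs.Defs

/-! # Generic points and semilocalization -/

open MvPolynomial Trs
open scoped Classical

namespace Pool.Agent.Helper37.PiE

theorem gen_point {n : ℕ} (p : Ideal (Rg n)) [p.IsPrime] :
    ∃ (K : Type) (_ : Field K) (_ : CharZero K) (e : Rg n →+* K),
      (∀ f, e f = 0 ↔ f ∈ p) ∧ ∀ a : K, ∃ g h, e h ≠ 0 ∧ a = e g / e h := by
  refine ⟨FractionRing (Rg n ⧸ p), inferInstance,
    charZero_of_injective_algebraMap (algebraMap ℂ (FractionRing (Rg n ⧸ p))).injective,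
    (algebraMap (Rg n ⧸ p) (FractionRing (Rg n ⧸ p))).comp (Ideal.Quotient.mk p), fun f => ?_,
    fun a => ?_⟩
  · rw [RingHom.comp_apply, FaithfulSMul.algebraMap_eq_zero_iff, Ideal.Quotient.eq_zero_iff_mem]
  · obtain ⟨x, y, hy, rfl⟩ := IsFractionRing.div_surjective (A := Rg n ⧸ p) a
    obtain ⟨g, rfl⟩ := Ideal.Quotient.mk_surjective x
    obtain ⟨h, rfl⟩ := Ideal.Quotient.mk_surjective y
    refine ⟨g, h, ?_, rfl⟩
    rw [RingHom.comp_apply, Ne, FaithfulSMul.algebraMap_eq_zero_iff]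
    exact nonZeroDivisors.ne_zero hy

theorem semiloc {n : ℕ} (I : Finset (Fin n)) {τ : Type} [Fintype τ] (q : τ → Ideal (Rg n))
    (hp : ∀ t, (q t).IsPrime) (hInd : ∀ t, Ind (q t) I) :
    ∃ (A F : Type) (_ : CommRing A) (_ : IsNoetherianRing A) (_ : Field F) (_ : Algebra F A)
      (ρ : Rg n →+* A),
      (∀ f, (∀ t, f ∉ q t) → IsUnit (ρ f)) ∧
      (∀ (B : Type) (_ : CommRing B) (g : Rg n →+* B), (∀ f, (∀ t, f ∉ q t) → IsUnit (g f)) →
        ∃ g' : A →+* B, ∀ f, g' (ρ f) = g f) ∧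
      (∀ a, ∃ f v, (∀ t, v ∉ q t) ∧ a * ρ v = ρ f) ∧
      (∀ f : Rg n, f.vars ⊆ I → ∃ a : F, algebraMap F A a = ρ f) ∧
      (∀ Q : Ideal A, Q.IsPrime → ∃ t, Q.comap ρ ≤ q t) ∧
      (∀ Q : Ideal A, (Q.comap ρ).map ρ = Q) ∧
      (∀ j, j ∉ I → ∀ U : Rg n, U ≠ 0 → U.vars ⊆ insert j I →
        ∃ V : Polynomial F, V ≠ 0 ∧ Polynomial.aeval (ρ (X j)) V = ρ U) := by
  let S : Submonoid (Rg n) := ⨅ t, (haveI := hp t; (q t).primeCompl)
  have hS : ∀ f, f ∈ S ↔ ∀ t, f ∉ q t := fun f => by
    rw [Submonoid.mem_iInf]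
    exact forall_congr' fun t => Iff.rfl
  let A := Localization S
  let D := MvPolynomial.supported ℂ (I : Set (Fin n))
  have hD : ∀ f : Rg n, f ∈ D ↔ f.vars ⊆ I := fun f => by
    rw [MvPolynomial.mem_supported]
    exact Finset.coe_subset
  let F := FractionRing D
  have hu : ∀ f : Rg n, f ∈ S → IsUnit (algebraMap (Rg n) A f) := fun f hf =>
    IsLocalization.map_units A (⟨f, hf⟩ : S)
  have hg : ∀ y : nonZeroDivisors D,
      IsUnit (((algebraMap (Rg n) A).comp D.val.toRingHom) (y : D)) := fun y => by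
    refine hu _ ((hS _).2 fun t ht => ?_)
    have h1 := hInd t _ ((hD _).1 (y : D).2) ht
    exact nonZeroDivisors.ne_zero y.2 (Subtype.ext h1)
  let algF : F →+* A := IsLocalization.lift (M := nonZeroDivisors D) hg
  have halgF : ∀ x : D, algF (algebraMap D F x) = algebraMap (Rg n) A (x : Rg n) := fun x =>
    IsLocalization.lift_eq hg x
  let _ : Algebra F A := algF.toAlgebra
  refine ⟨A, F, inferInstance, IsLocalization.isNoetherianRing S A inferInstance, inferInstance,
    inferInstance, algebraMap (Rg n) A, ?_, ?_, ?_, ?_, ?_, ?_, ?_⟩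
  · intro f hf
    exact hu f ((hS f).2 hf)
  · intro B _ g hgB
    exact ⟨IsLocalization.lift (M := S) (g := g) fun y => hgB _ ((hS _).1 y.2),
      fun f => IsLocalization.lift_eq _ f⟩
  · intro a
    obtain ⟨⟨f, v⟩, h⟩ := IsLocalization.surj S a
    exact ⟨f, v, (hS _).1 v.2, h⟩
  · intro f hf
    exact ⟨algebraMap D F ⟨f, (hD f).2 hf⟩, halgF _⟩
  · intro Q hQ
    have h1 : ((Q.comap (algebraMap (Rg n) A) : Ideal (Rg n)) : Set (Rg n)) ⊆
        ⋃ t ∈ ((Finset.univ : Finset τ) : Set τ), (q t : Set (Rg n)) := by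
      intro f hf
      by_contra hne
      have h2 : ∀ t, f ∉ q t := fun t ht => hne (by
        simp only [Finset.coe_univ, Set.mem_univ, Set.iUnion_true, Set.mem_iUnion]
        exact ⟨t, ht⟩)
      have h3 := hu f ((hS f).2 h2)
      exact hQ.ne_top (Ideal.eq_top_of_isUnit_mem _ hf h3)
    by_cases hτ : Nonempty τ
    · obtain ⟨t₀⟩ := hτ
      obtain ⟨t, -, ht⟩ := (Ideal.subset_union_prime t₀ t₀ fun t _ _ _ => hp t).1 h1
      exact ⟨t, ht⟩
    · exfalso
      have h4 : (0 : Rg n) ∈ (Q.comap (algebraMap (Rg n) A) : Ideal (Rg n)) := zero_mem _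
      have h5 := h1 h4
      simp only [Finset.coe_univ, Set.mem_univ, Set.iUnion_true, Set.mem_iUnion] at h5
      obtain ⟨t, _⟩ := h5
      exact hτ ⟨t⟩
  · intro Q
    exact IsLocalization.map_under S A Q
  · intro j hj U hU0 hUv
    let φ : Rg n →+* Polynomial F :=
      eval₂Hom ((Polynomial.C.comp (algebraMap D F)).comp (algebraMap ℂ D)) fun i =>
        if h : i ∈ I then Polynomial.C (algebraMap D F ⟨X i, (hD _).2 (by
          rw [MvPolynomial.vars_X]; simpa using h)⟩) else Polynomial.X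
    have hφC : ∀ z, φ (C z) = Polynomial.C (algebraMap D F (algebraMap ℂ D z)) := fun z => by
      simp [φ]
    have hφI : ∀ i (h : i ∈ I), φ (X i) = Polynomial.C (algebraMap D F ⟨X i, (hD _).2 (by
          rw [MvPolynomial.vars_X]; simpa using h)⟩) := fun i h => by
      simp [φ, h]
    have hφj : φ (X j) = Polynomial.X := by simp [φ, hj]
    -- comparison with an arbitrary target
    have key : ∀ (B : Type) [CommRing B] (g : Rg n →+* B) (a : F →+* B),
        (∀ x : D, a (algebraMap D F x) = g (x : Rg n)) →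
        Polynomial.eval₂ a (g (X j)) (φ U) = g U := by
      intro B _ g a ha
      refine MvPolynomial.hom_congr_vars (f₁ := (Polynomial.eval₂RingHom a (g (X j))).comp φ)
        (f₂ := g) ?_ ?_ rfl
      · refine RingHom.ext fun z => ?_
        simp only [RingHom.comp_apply, hφC, Polynomial.coe_eval₂RingHom, Polynomial.eval₂_C, ha]
        rfl
      · intro i hi _
        rcases Finset.mem_insert.1 (hUv hi) with rfl | h'
        · simp only [RingHom.comp_apply, hφj, Polynomial.coe_eval₂RingHom, Polynomial.eval₂_X]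
        · simp only [RingHom.comp_apply, hφI i h', Polynomial.coe_eval₂RingHom,
            Polynomial.eval₂_C, ha]
    refine ⟨φ U, fun h0 => ?_, ?_⟩
    · have hg2 : ∀ y : nonZeroDivisors D, IsUnit
          (((algebraMap (Rg n) (FractionRing (Rg n))).comp D.val.toRingHom) (y : D)) := fun y => by
        rw [isUnit_iff_ne_zero, RingHom.comp_apply, Ne, FaithfulSMul.algebraMap_eq_zero_iff]
        intro h
        exact nonZeroDivisors.ne_zero y.2 (Subtype.ext h)
      have := key (FractionRing (Rg n)) (algebraMap _ _)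
        (IsLocalization.lift (M := nonZeroDivisors D) hg2) (fun x => IsLocalization.lift_eq hg2 x)
      rw [h0, Polynomial.eval₂_zero] at this
      exact hU0 ((FaithfulSMul.algebraMap_eq_zero_iff _ _).1 this.symm)
    · exact key A (algebraMap (Rg n) A) algF halgF

end Pool.Agent.Helper37.PiE
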