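import Mathlib

/-! # Lower bound: monomials in approximate parameters are independent modulo weights -/

open MvPowerSeries
open scoped Classical

set_option linter.unusedSectionVars false

namespace Pool.Agent.Helper37.PiE

section
variable {ν : Type*} [Fintype ν] {K : Type*} [Field K]

/-- `φ` is `a Z^α` up to terms of higher total degree -/
def Lead (φ : MvPowerSeries (ν) K) (α : ν →₀ ℕ) (a : K) : Prop :=
  ((α.degree + 1 : ℕ) : ℕ∞) ≤ (φ - monomial α a).order

theorem Lead.order {φ : MvPowerSeries (ν) K} {α : ν →₀ ℕ} {a : K} (h : Lead φ α a) :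
    ((α.degree : ℕ) : ℕ∞) ≤ φ.order := by
  refine MvPowerSeries.nat_le_order fun d hd => ?_
  have h1 : coeff d (φ - monomial α a) = 0 :=
    MvPowerSeries.coeff_of_lt_order (lt_of_lt_of_le (by exact_mod_cast Nat.lt_succ_of_lt hd) h)
  rw [map_sub, MvPowerSeries.coeff_monomial, if_neg, sub_zero] at h1
  · exact h1
  · rintro rfl
    exact lt_irrefl _ hd

theorem Lead.coeff_eq {φ : MvPowerSeries (ν) K} {α : ν →₀ ℕ} {a : K} (h : Lead φ α a)
    {β : ν →₀ ℕ} (hβ : β.degree ≤ α.degree) : coeff β φ = if β = α then a else 0 := by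
  have h1 : coeff β (φ - monomial α a) = 0 :=
    MvPowerSeries.coeff_of_lt_order (lt_of_lt_of_le (by exact_mod_cast Nat.lt_succ_of_le hβ) h)
  rw [map_sub, MvPowerSeries.coeff_monomial, sub_eq_zero] at h1
  exact h1

theorem Lead.mul {φ ψ : MvPowerSeries (ν) K} {α β : ν →₀ ℕ} {a b : K}
    (h : Lead φ α a) (h' : Lead ψ β b) : Lead (φ * ψ) (α + β) (a * b) := by
  have e : φ * ψ - monomial (α + β) (a * b) =
      (φ - monomial α a) * ψ + monomial α a * (ψ - monomial β b) := by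
    rw [← MvPowerSeries.monomial_mul_monomial]
    ring
  have h1 : (((α + β).degree + 1 : ℕ) : ℕ∞) ≤ ((φ - monomial α a) * ψ).order := by
    refine le_trans ?_ MvPowerSeries.le_order_mul
    refine le_trans (le_of_eq ?_) (add_le_add h h'.order)
    rw [← Nat.cast_add, map_add]
    congr 1
    ring
  have h2 : (((α + β).degree + 1 : ℕ) : ℕ∞) ≤
      (monomial α a * (ψ - monomial β b)).order := by
    refine le_trans ?_ MvPowerSeries.le_order_mul
    have h3 : ((α.degree : ℕ) : ℕ∞) ≤ (monomial α a : MvPowerSeries (ν) K).order := by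
      refine MvPowerSeries.nat_le_order fun d hd => ?_
      rw [MvPowerSeries.coeff_monomial, if_neg]
      rintro rfl
      exact lt_irrefl _ hd
    refine le_trans (le_of_eq ?_) (add_le_add h3 h')
    rw [← Nat.cast_add, map_add]
    congr 1
  rw [Lead, e]
  exact le_trans (le_min h1 h2) MvPowerSeries.min_order_le_add

theorem Lead.one : Lead (1 : MvPowerSeries (ν) K) 0 1 := by
  have : (1 : MvPowerSeries (ν) K) - monomial 0 1 = 0 := by
    rw [sub_eq_zero]; rfl
  rw [Lead, this, MvPowerSeries.order_zero]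
  exact le_top

theorem Lead.pow {φ : MvPowerSeries (ν) K} {α : ν →₀ ℕ} {a : K} (h : Lead φ α a)
    (n : ℕ) : Lead (φ ^ n) (n • α) (a ^ n) := by
  induction n with
  | zero => simpa using Lead.one
  | succ n ih =>
    rw [pow_succ, pow_succ, succ_nsmul]
    exact ih.mul h

theorem Lead.prod {ι : Type*} (s : Finset ι) {φ : ι → MvPowerSeries (ν) K}
    {α : ι → ν →₀ ℕ} {a : ι → K} (h : ∀ i ∈ s, Lead (φ i) (α i) (a i)) :
    Lead (∏ i ∈ s, φ i) (∑ i ∈ s, α i) (∏ i ∈ s, a i) := by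
  induction s using Finset.induction_on with
  | empty => simpa using Lead.one
  | insert i s hi ih =>
    rw [Finset.prod_insert hi, Finset.sum_insert hi, Finset.prod_insert hi]
    exact (h i (Finset.mem_insert_self _ _)).mul
      (ih fun j hj => h j (Finset.mem_insert_of_mem hj))

theorem Lead.const {φ : MvPowerSeries (ν) K} : Lead φ 0 (constantCoeff φ) := by
  rw [Lead]
  simp only [map_zero, zero_add, Nat.cast_one]
  rw [MvPowerSeries.one_le_order_iff_constCoeff_eq_zero, map_sub]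
  have : (monomial (0 : ν →₀ ℕ) (constantCoeff φ) : MvPowerSeries (ν) K) =
      C (constantCoeff φ) := rfl
  rw [this, MvPowerSeries.constantCoeff_C, sub_self]

/-- approximate parameters -/
theorem Lead.of_coeff {φ : MvPowerSeries (ν) K} {j : ν} {a : K}
    (h0 : constantCoeff φ = 0)
    (h1 : ∀ i, MvPowerSeries.coeff (Finsupp.single i 1) φ = if i = j then a else 0) :
    Lead φ (Finsupp.single j 1) a := by
  rw [Lead]
  refine MvPowerSeries.nat_le_order fun d hd => ?_
  rw [Finsupp.degree_single] at hd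
  rw [map_sub, MvPowerSeries.coeff_monomial]
  rcases Nat.lt_or_ge d.degree 1 with h | h
  · have hd0 : d = 0 := by
      rw [← Finsupp.degree_eq_zero_iff]; omega
    subst hd0
    rw [MvPowerSeries.coeff_zero_eq_constantCoeff_apply, h0, if_neg, sub_zero]
    intro e
    have := congrArg (fun f => f j) e
    simp at this
  · have hd1 : d.degree = 1 := by omega
    obtain ⟨i, rfl⟩ : ∃ i, d = Finsupp.single i 1 := by
      have hd2 : d.sum (fun _ n => n) = 1 := by
        rw [← hd1]; rfl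
      obtain ⟨i, hi⟩ := (Finsupp.sum_eq_one_iff d).1 hd2
      exact ⟨i, hi⟩
    rw [h1]
    have : (Finsupp.single i 1 = (Finsupp.single j 1 : ν →₀ ℕ)) ↔ i = j := by
      constructor
      · intro e
        exact (Finsupp.single_left_injective one_ne_zero) e
      · rintro rfl; rfl
    simp only [this, sub_self]

end

section
variable {A F K : Type*} [CommRing A] [Field F] [Algebra F A] [Field K] {ν : Type*} [Fintype ν]
  {ι : Type*} [Fintype ι] {L : ι → Type*} [∀ s, Field (L s)]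

theorem wo_mul_left {w : ν → ℕ} {N : ℕ∞} (φ : MvPowerSeries (ν) K)
    {ψ : MvPowerSeries (ν) K} (h : N ≤ ψ.weightedOrder w) : N ≤ (φ * ψ).weightedOrder w :=
  (h.trans (by exact le_add_self)).trans (MvPowerSeries.le_weightedOrder_mul w)

theorem wo_sum {w : ν → ℕ} {N : ℕ∞} {κ : Type*} (s : Finset κ)
    {φ : κ → MvPowerSeries (ν) K} (h : ∀ k ∈ s, N ≤ (φ k).weightedOrder w) :
    N ≤ (∑ k ∈ s, φ k).weightedOrder w := by
  induction s using Finset.induction_on with
  | empty => simp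
  | insert k s hk ih =>
    rw [Finset.sum_insert hk]
    exact le_trans (le_min (h k (Finset.mem_insert_self _ _))
      (ih fun j hj => h j (Finset.mem_insert_of_mem hj)))
      (MvPowerSeries.min_weightedOrder_le_add w)

theorem wo_pow {w : ν → ℕ} (Ψ : A →+* MvPowerSeries (ν) K) {I : Ideal A} {T : ℕ}
    (hI : ∀ f ∈ I, (T : ℕ∞) ≤ (Ψ f).weightedOrder w) (k : ℕ) :
    ∀ f ∈ I ^ k, ((k * T : ℕ) : ℕ∞) ≤ (Ψ f).weightedOrder w := by
  induction k with
  | zero => intro f _; simp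
  | succ k ih =>
    intro f hf
    rw [pow_succ] at hf
    refine Submodule.mul_induction_on hf (fun a ha b hb => ?_) (fun a b ha hb => ?_)
    · rw [map_mul]
      refine le_trans ?_ (MvPowerSeries.le_weightedOrder_mul w)
      refine le_trans (le_of_eq ?_) (add_le_add (ih a ha) (hI b hb))
      rw [← Nat.cast_add]
      congr 1
      ring
    · rw [map_add]
      exact le_trans (le_min ha hb) (MvPowerSeries.min_weightedOrder_le_add w)

/-- **Lower bound**: independence of the monomials in the approximate parameters. -/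
theorem lower {w : ν → ℕ} {T k : ℕ} (Ψ : ∀ s : ι, A →+* MvPowerSeries (ν) (L s)) {I : Ideal A}
    (hI : ∀ s, ∀ f ∈ I, (T : ℕ∞) ≤ (Ψ s f).weightedOrder w)
    (u : ι → ν → A) (lam : ∀ s, ν → L s) (hlam : ∀ s j, lam s j ≠ 0)
    (hu : ∀ s j, Lead (Ψ s (u s j)) (Finsupp.single j 1) (lam s j))
    (ε : ι → A) (hε : ∀ s, IsUnit (Ψ s (ε s)))
    (hε' : ∀ s s', s' ≠ s → ((k * T : ℕ) : ℕ∞) ≤ (Ψ s' (ε s)).weightedOrder w)
    (𝒜 : Finset (ν →₀ ℕ)) (h𝒜 : ∀ α ∈ 𝒜, Finsupp.weight w α < k * T)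
    (x : ι → (ν →₀ ℕ) → F)
    (hx : ∑ s, ∑ α ∈ 𝒜, x s α • (ε s * ∏ j, u s j ^ α j) ∈ I ^ k) :
    ∀ s, ∀ α ∈ 𝒜, x s α = 0 := by
  intro s
  by_contra hne
  push Not at hne
  obtain ⟨α', hα', hxα'⟩ := hne
  -- minimal degree
  obtain ⟨α₀, hα₀, hmin⟩ := Finset.exists_min_image (𝒜.filter fun α => x s α ≠ 0)
    (fun α => α.degree) ⟨α', Finset.mem_filter.2 ⟨hα', hxα'⟩⟩
  rw [Finset.mem_filter] at hα₀
  obtain ⟨hα₀𝒜, hxα₀⟩ := hα₀
  -- apply `Ψ s`
  have h1 := wo_pow (Ψ s) (hI s) k _ hx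
  rw [map_sum, ← Finset.add_sum_erase _ _ (Finset.mem_univ s)] at h1
  have h2 : ((k * T : ℕ) : ℕ∞) ≤ (∑ s' ∈ Finset.univ.erase s,
      Ψ s (∑ α ∈ 𝒜, x s' α • (ε s' * ∏ j, u s' j ^ α j))).weightedOrder w := by
    refine wo_sum _ fun s' hs' => ?_
    rw [map_sum]
    refine wo_sum _ fun α _ => ?_
    rw [Algebra.smul_def, map_mul, map_mul]
    refine wo_mul_left _ ?_
    rw [mul_comm (Ψ s (ε s'))]
    exact wo_mul_left _ (hε' s' s (Finset.ne_of_mem_erase hs').symm)
  have h3 : ((k * T : ℕ) : ℕ∞) ≤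
      (Ψ s (∑ α ∈ 𝒜, x s α • (ε s * ∏ j, u s j ^ α j))).weightedOrder w := by
    have e : Ψ s (∑ α ∈ 𝒜, x s α • (ε s * ∏ j, u s j ^ α j)) =
      (Ψ s (∑ α ∈ 𝒜, x s α • (ε s * ∏ j, u s j ^ α j)) + ∑ s' ∈ Finset.univ.erase s,
      Ψ s (∑ α ∈ 𝒜, x s' α • (ε s' * ∏ j, u s' j ^ α j))) + (-(∑ s' ∈ Finset.univ.erase s,
      Ψ s (∑ α ∈ 𝒜, x s' α • (ε s' * ∏ j, u s' j ^ α j)))) := by ring
    rw [e]
    refine le_trans (le_min h1 ?_) (MvPowerSeries.min_weightedOrder_le_add w)
    rw [MvPowerSeries.weightedOrder_neg]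
    exact h2
  obtain ⟨y, hy⟩ := (hε s).exists_left_inv
  have h4 := wo_mul_left y h3
  have e : y * Ψ s (∑ α ∈ 𝒜, x s α • (ε s * ∏ j, u s j ^ α j)) =
      ∑ α ∈ 𝒜, Ψ s (algebraMap F A (x s α)) * ∏ j, Ψ s (u s j) ^ α j := by
    rw [map_sum, Finset.mul_sum]
    refine Finset.sum_congr rfl fun α _ => ?_
    rw [Algebra.smul_def, map_mul, map_mul, map_prod]
    simp only [map_pow]
    linear_combination (Ψ s (algebraMap F A (x s α)) * ∏ j, Ψ s (u s j) ^ α j) * hy
  rw [e] at h4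
  have h5 : coeff α₀ (∑ α ∈ 𝒜, Ψ s (algebraMap F A (x s α)) * ∏ j, Ψ s (u s j) ^ α j) = 0 := by
    refine MvPowerSeries.coeff_eq_zero_of_lt_weightedOrder w (lt_of_lt_of_le ?_ h4)
    exact_mod_cast h𝒜 α₀ hα₀𝒜
  rw [map_sum] at h5
  have hlead : ∀ α, Lead (Ψ s (algebraMap F A (x s α)) * ∏ j, Ψ s (u s j) ^ α j) α
      (constantCoeff (Ψ s (algebraMap F A (x s α))) * ∏ j, lam s j ^ α j) := fun α => by
    have h6 := (Lead.const (φ := Ψ s (algebraMap F A (x s α)))).mul
      (Lead.prod Finset.univ fun j _ => (hu s j).pow (α j))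
    have e2 : (0 : ν →₀ ℕ) + ∑ j, α j • Finsupp.single j 1 = α := by
      rw [zero_add]
      simp only [Finsupp.smul_single, smul_eq_mul, mul_one]
      exact Finsupp.univ_sum_single α
    rwa [e2] at h6
  rw [Finset.sum_eq_single α₀] at h5
  · rw [(hlead α₀).coeff_eq le_rfl, if_pos rfl] at h5
    have h7 : IsUnit (Ψ s (algebraMap F A (x s α₀))) :=
      (IsUnit.mk0 _ hxα₀).map (algebraMap F A) |>.map (Ψ s)
    have h8 := (MvPowerSeries.isUnit_iff_constantCoeff.1 h7).ne_zero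
    refine mul_ne_zero h8 (Finset.prod_ne_zero_iff.2 fun j _ => pow_ne_zero _ (hlam s j)) h5
  · intro α hα hne
    by_cases hx0 : x s α = 0
    · simp [hx0]
    · have h9 := hmin α (Finset.mem_filter.2 ⟨hα, hx0⟩)
      rw [(hlead α).coeff_eq h9, if_neg (fun h => hne h.symm)]
  · intro h
    exact absurd hα₀𝒜 h

end

end Pool.Agent.Helper37.PiE
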