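import Pool.Agent.Helper37.PiE.ZLower
import Pool.Agent.Helper17.Trs.Defs

/-! # The Taylor homomorphism at the generic point of a prime ideal -/

open MvPolynomial Trs
open scoped Classical

set_option linter.unusedSectionVars false

namespace Pool.Agent.Helper37.PiE

section
variable {ν : Type*} [Fintype ν] {K : Type*} [Field K]

/-- the exponential series `exp (∑ a_j Z_j)` -/
noncomputable def Ex (a : ν → K) : MvPowerSeries ν K :=
  fun κ => ∏ j, a j ^ κ j / ((κ j).factorial : K)

theorem coeff_Ex (a : ν → K) (κ : ν →₀ ℕ) :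
    MvPowerSeries.coeff κ (Ex a) = ∏ j, a j ^ κ j / ((κ j).factorial : K) := rfl

theorem constantCoeff_Ex (a : ν → K) : MvPowerSeries.constantCoeff (Ex a) = 1 := by
  rw [← MvPowerSeries.coeff_zero_eq_constantCoeff_apply, coeff_Ex]
  simp

theorem pderiv_Ex [CharZero K] (a : ν → K) (i : ν) :
    MvPowerSeries.pderiv K i (Ex a) = MvPowerSeries.C (a i) * Ex a := by
  ext κ
  rw [MvPowerSeries.coeff_pderiv, MvPowerSeries.coeff_C_mul, coeff_Ex, coeff_Ex,
    ← Finset.mul_prod_erase _ _ (Finset.mem_univ i),
    ← Finset.mul_prod_erase _ (fun j => a j ^ κ j / ((κ j).factorial : K)) (Finset.mem_univ i)]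
  have h1 : ∏ j ∈ Finset.univ.erase i, a j ^ ((κ + Finsupp.single i 1 : ν →₀ ℕ) j) /
      (((κ + Finsupp.single i 1 : ν →₀ ℕ) j).factorial : K) =
      ∏ j ∈ Finset.univ.erase i, a j ^ κ j / ((κ j).factorial : K) := by
    refine Finset.prod_congr rfl fun j hj => ?_
    have : (κ + Finsupp.single i 1 : ν →₀ ℕ) j = κ j := by
      rw [Finsupp.add_apply, Finsupp.single_eq_of_ne (Finset.ne_of_mem_erase hj), add_zero]
    rw [this]
  rw [h1]
  have h2 : (κ + Finsupp.single i 1 : ν →₀ ℕ) i = κ i + 1 := by simp
  rw [h2, Nat.factorial_succ, pow_succ]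
  have h3 : ((κ i).factorial : K) ≠ 0 := by exact_mod_cast (κ i).factorial_ne_zero
  have h4 : ((κ i : K) + 1) ≠ 0 := by exact_mod_cast (Nat.succ_ne_zero (κ i))
  push_cast
  field_simp

/-- a linear form -/
noncomputable def Li (a : ν → K) : MvPowerSeries ν K := ∑ j, MvPowerSeries.C (a j) * MvPowerSeries.X j

theorem constantCoeff_Li (a : ν → K) : MvPowerSeries.constantCoeff (Li a) = 0 := by
  rw [Li, map_sum]
  simp

theorem pderiv_Li (a : ν → K) (i : ν) :
    MvPowerSeries.pderiv K i (Li a) = MvPowerSeries.C (a i) := by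
  rw [Li, map_sum, Finset.sum_eq_single i]
  · rw [Derivation.leibniz, MvPowerSeries.pderiv_C, smul_zero, add_zero,
      MvPowerSeries.pderiv_X_self, smul_eq_mul, mul_one]
  · intro k _ hk
    rw [Derivation.leibniz, MvPowerSeries.pderiv_C, smul_zero, add_zero,
      MvPowerSeries.pderiv_X_of_ne hk, smul_zero]
  · intro h
    exact absurd (Finset.mem_univ i) h

variable {n : ℕ} (tor : Fin n → Bool) (D E : ν → Fin n → ℂ) (e : Rg n →+* K)

/-- the Taylor homomorphism: flow along `D`, shift along `E` -/
noncomputable def Psi : Rg n →+* MvPowerSeries ν K :=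
  eval₂Hom ((MvPowerSeries.C (σ := ν) (R := K)).comp (e.comp C)) fun i =>
    if tor i then (MvPowerSeries.C (e (X i)) + Li (fun j => e (C (E j i)))) *
      Ex (fun j => e (C (D j i)))
    else MvPowerSeries.C (e (X i)) + Li (fun j => e (C (E j i + D j i)))

theorem Psi_C (z : ℂ) : Psi tor D E e (C z) = MvPowerSeries.C (e (C z)) := by
  simp [Psi]

theorem Psi_X (i : Fin n) : Psi tor D E e (X i) =
    if tor i then (MvPowerSeries.C (e (X i)) + Li (fun j => e (C (E j i)))) *
      Ex (fun j => e (C (D j i)))
    else MvPowerSeries.C (e (X i)) + Li (fun j => e (C (E j i + D j i))) := by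
  simp [Psi]

theorem constantCoeff_Psi (P : Rg n) : MvPowerSeries.constantCoeff (Psi tor D E e P) = e P := by
  have h : (MvPowerSeries.constantCoeff (σ := ν) (R := K)).comp (Psi tor D E e) = e := by
    refine MvPolynomial.ringHom_ext (fun z => ?_) (fun i => ?_)
    · rw [RingHom.comp_apply, Psi_C, MvPowerSeries.constantCoeff_C]
    · rw [RingHom.comp_apply, Psi_X]
      split_ifs with hi
      · rw [map_mul, map_add, MvPowerSeries.constantCoeff_C, constantCoeff_Ex, mul_one,
          constantCoeff_Li, add_zero]
      · rw [map_add, MvPowerSeries.constantCoeff_C, constantCoeff_Li, add_zero]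
  exact congrArg (fun f => f P) h

theorem dr_X (w : Fin n → ℂ) (i : Fin n) :
    dr tor w (X i) = if tor i then C (w i) * X i else C (w i) := by
  simp [dr]

theorem pderiv_Psi [CharZero K] (i : ν) (hi : ∀ l, E i l = 0) (P : Rg n) :
    MvPowerSeries.pderiv K i (Psi tor D E e P) = Psi tor D E e (dr tor (D i) P) := by
  induction P using MvPolynomial.induction_on with
  | C z => rw [Psi_C, MvPowerSeries.pderiv_C, derivation_C, map_zero]
  | add P Q hP hQ => rw [map_add, map_add, map_add, map_add, hP, hQ]
  | mul_X P j hP =>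
    rw [map_mul, Derivation.leibniz, hP, Derivation.leibniz, map_add, smul_eq_mul, smul_eq_mul,
      smul_eq_mul, smul_eq_mul, map_mul, map_mul, dr_X, Psi_X]
    split_ifs with hj
    · rw [Derivation.leibniz, map_add, MvPowerSeries.pderiv_C, pderiv_Li, zero_add, hi j,
        C_0, map_zero, map_zero, smul_zero, add_zero, smul_eq_mul, pderiv_Ex, map_mul, Psi_C,
        Psi_X, if_pos hj]
      ring
    · rw [map_add, MvPowerSeries.pderiv_C, zero_add, Psi_C, pderiv_Li, hi j, zero_add]

/-- linear coefficients of the Taylor series -/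
theorem coeff_Psi_single [CharZero K] (i : ν) (P : Rg n) :
    MvPowerSeries.coeff (Finsupp.single i 1) (Psi tor D E e P) =
      e (dr tor (D i) P) + e (∑ l, C (E i l) * pderiv l P) := by
  have h1 : MvPowerSeries.coeff (Finsupp.single i 1) (Psi tor D E e P) =
      MvPowerSeries.constantCoeff (MvPowerSeries.pderiv K i (Psi tor D E e P)) := by
    rw [← MvPowerSeries.coeff_zero_eq_constantCoeff_apply, MvPowerSeries.coeff_pderiv]
    simp
  rw [h1]
  clear h1
  induction P using MvPolynomial.induction_on with
  | C z =>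
    rw [Psi_C, MvPowerSeries.pderiv_C, derivation_C, map_zero]
    simp
  | add P Q hP hQ =>
    rw [map_add, map_add, map_add, hP, hQ, map_add]
    have : ∑ l, C (E i l) * pderiv l (P + Q) =
        ∑ l, C (E i l) * pderiv l P + ∑ l, C (E i l) * pderiv l Q := by
      rw [← Finset.sum_add_distrib]
      exact Finset.sum_congr rfl fun l _ => by rw [map_add, mul_add]
    rw [this, map_add, map_add]
    ring
  | mul_X P j hP =>
    have h2 : ∑ l, C (E i l) * pderiv l (P * X j) =
        X j * ∑ l, C (E i l) * pderiv l P + C (E i j) * P := by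
      have : ∀ l, C (E i l) * pderiv l (P * X j) =
          X j * (C (E i l) * pderiv l P) + (if l = j then C (E i j) * P else 0) := fun l => by
        rw [Derivation.leibniz, smul_eq_mul, smul_eq_mul]
        rcases eq_or_ne l j with h | h
        · subst h
          rw [pderiv_X_self, if_pos rfl]
          ring
        · rw [pderiv_X_of_ne h.symm, if_neg h]
          ring
      simp only [this]
      rw [Finset.sum_add_distrib, ← Finset.mul_sum]
      simp
    rw [h2, map_mul, Derivation.leibniz, map_add, smul_eq_mul, smul_eq_mul, map_mul, map_mul, hP,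
      constantCoeff_Psi, constantCoeff_Psi, Derivation.leibniz, smul_eq_mul, smul_eq_mul, dr_X,
      Psi_X]
    split_ifs with hj
    · rw [Derivation.leibniz, smul_eq_mul, smul_eq_mul, pderiv_Ex]
      simp only [map_add, map_mul, MvPowerSeries.pderiv_C, pderiv_Li, zero_add, constantCoeff_Li,
        constantCoeff_Ex, MvPowerSeries.constantCoeff_C]
      ring
    · rw [map_add, MvPowerSeries.pderiv_C, zero_add, pderiv_Li, MvPowerSeries.constantCoeff_C]
      simp only [map_add, map_mul]
      ring

/-- vanishing of jets gives high weighted order -/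
theorem wo_Psi [CharZero K] (w : ν → ℕ) {T : ℕ} (S1 : Set ν)
    (h1 : ∀ i ∈ S1, w i = 1 ∧ ∀ l, E i l = 0) (h2 : ∀ i, i ∉ S1 → w i = T) (P : Rg n)
    (hP : ∀ l : List ν, l.length < T → (∀ i ∈ l, i ∈ S1) →
      e (l.foldl (fun Q i => dr tor (D i) Q) P) = 0) :
    (T : ℕ∞) ≤ (Psi tor D E e P).weightedOrder w := by
  refine MvPowerSeries.nat_le_weightedOrder w fun κ hκ => ?_
  have key : ∀ (N : ℕ) (κ : ν →₀ ℕ) (P : Rg n) (U : ℕ), κ.degree = N →
      Finsupp.weight w κ < U → U ≤ T →
      (∀ l : List ν, l.length < U → (∀ i ∈ l, i ∈ S1) →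
      e (l.foldl (fun Q i => dr tor (D i) Q) P) = 0) →
      MvPowerSeries.coeff κ (Psi tor D E e P) = 0 := by
    intro N
    induction N with
    | zero =>
      intro κ P U hκ hU _ hP
      have : κ = 0 := (Finsupp.degree_eq_zero_iff κ).1 hκ
      subst this
      rw [MvPowerSeries.coeff_zero_eq_constantCoeff_apply, constantCoeff_Psi]
      have hU0 : 0 < U := lt_of_le_of_lt (Nat.zero_le _) hU
      exact hP [] (by simpa using hU0) (by simp)
    | succ N ih =>
      intro κ P U hκ hU hUT hP
      obtain ⟨i, hi⟩ : ∃ i, κ i ≠ 0 := by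
        by_contra h
        push Not at h
        have : κ = 0 := Finsupp.ext h
        rw [this, map_zero] at hκ
        omega
      set κ' := κ - Finsupp.single i 1 with hκ'
      have hκκ : κ' + Finsupp.single i 1 = κ := by
        rw [hκ']
        refine tsub_add_cancel_of_le ?_
        rw [Finsupp.single_le_iff]
        omega
      have hwκ : Finsupp.weight w κ = Finsupp.weight w κ' + w i := by
        rw [← hκκ, map_add, Finsupp.weight_single]
        simp
      have hiS : i ∈ S1 := by
        by_contra h
        have := h2 i h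
        omega
      have hwi := (h1 i hiS).1
      have hdeg : κ'.degree = N := by
        have := hκ
        rw [← hκκ, map_add, Finsupp.degree_single] at this
        omega
      have h3 := MvPowerSeries.coeff_pderiv (i := i) (Psi tor D E e P) κ'
      rw [pderiv_Psi tor D E e i (h1 i hiS).2, hκκ] at h3
      have h4 := ih κ' (dr tor (D i) P) (U - 1) hdeg (by omega) (by omega) (fun l hl hl' => by
        have := hP (i :: l) (by simp only [List.length_cons]; omega)
          (fun j hj => by
            rcases List.mem_cons.1 hj with rfl | hj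
            · exact hiS
            · exact hl' j hj)
        simpa using this)
      rw [h4] at h3
      have h5 : ((κ' i : K) + 1) ≠ 0 := by exact_mod_cast (Nat.succ_ne_zero (κ' i))
      exact (mul_eq_zero.1 h3.symm).resolve_right h5
  exact key _ κ P T rfl hκ le_rfl hP

/-- approximate parameters -/
theorem lead_Psi [CharZero K] {j : ν} {a : K} {P : Rg n} (h0 : e P = 0)
    (h1 : ∀ i, e (dr tor (D i) P) + e (∑ l, C (E i l) * pderiv l P) = if i = j then a else 0) :
    Lead (Psi tor D E e P) (Finsupp.single j 1) a := by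
  refine Lead.of_coeff ?_ fun i => ?_
  · rw [constantCoeff_Psi, h0]
  · rw [coeff_Psi_single, h1]

end

end Pool.Agent.Helper37.PiE
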